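import Pool.Agent.H43.Geo3

/-!
Spatial derivatives of solutions are solutions; one-sided derivatives at the boundary.
-/

set_option autoImplicit false
set_option linter.unusedSectionVars false

namespace Pool.Agent.H43.Flux

open Set Filter Topology Laplacian RealInnerProductSpace ContDiff

section Comm

variable {F : Type*} [NormedAddCommGroup F] [NormedSpace ℝ F]

lemma hasDerivAt_line' {φ : F → ℝ} {x v : F} {s : ℝ} (h : DifferentiableAt ℝ φ (x + s • v)) :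
    HasDerivAt (fun s : ℝ => φ (x + s • v)) (fderiv ℝ φ (x + s • v) v) s := by
  have h1 : HasDerivAt (fun s : ℝ => x + s • v) v s := by
    simpa using ((hasDerivAt_id s).smul_const v).const_add x
  exact h.hasFDerivAt.comp_hasDerivAt s h1

lemma hasFDerivAt_fderiv_apply {φ : F → ℝ} {x : F} (h : ContDiffAt ℝ 2 φ x) (w : F) :
    HasFDerivAt (fun y => fderiv ℝ φ y w)
      ((ContinuousLinearMap.apply ℝ ℝ w).comp (fderiv ℝ (fderiv ℝ φ) x)) x := by
  have h3 : DifferentiableAt ℝ (fderiv ℝ φ) x := by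
    have := h.fderiv_right (m := 1) (by norm_num)
    exact this.differentiableAt (by simp)
  exact (ContinuousLinearMap.apply ℝ ℝ w).hasFDerivAt.comp x h3.hasFDerivAt

lemma fderiv_fderiv_apply {φ : F → ℝ} {x : F} (h : ContDiffAt ℝ 2 φ x) (v w : F) :
    fderiv ℝ (fun y => fderiv ℝ φ y w) x v = fderiv ℝ (fderiv ℝ φ) x v w := by
  rw [(hasFDerivAt_fderiv_apply h w).fderiv]
  rfl

lemma fderiv_comm {φ : F → ℝ} {x : F} (h : ContDiffAt ℝ 2 φ x) (v w : F) :
    fderiv ℝ (fun y => fderiv ℝ φ y w) x v = fderiv ℝ (fun y => fderiv ℝ φ y v) x w := by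
  rw [fderiv_fderiv_apply h, fderiv_fderiv_apply h]
  exact (h.isSymmSndFDerivAt (by simp)).eq v w

/-- The second derivative along a line. -/
lemma deriv_deriv_line' {φ : F → ℝ} {x v : F} (h : ContDiffAt ℝ 2 φ x) :
    deriv (deriv fun s : ℝ => φ (x + s • v)) 0 = fderiv ℝ (fun y => fderiv ℝ φ y v) x v := by
  have h1 : ∀ᶠ y in 𝓝 x, DifferentiableAt ℝ φ y := by
    filter_upwards [h.eventually (by simp)] with y hy
    exact hy.differentiableAt (by simp)
  have hc : Tendsto (fun s : ℝ => x + s • v) (𝓝 0) (𝓝 x) := by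
    have : Continuous fun s : ℝ => x + s • v := by fun_prop
    simpa using this.tendsto 0
  have h2 : deriv (fun s : ℝ => φ (x + s • v)) =ᶠ[𝓝 0] fun s => fderiv ℝ φ (x + s • v) v := by
    filter_upwards [hc.eventually h1] with s hs
    exact (hasDerivAt_line' hs).deriv
  rw [h2.deriv_eq]
  have h3 : DifferentiableAt ℝ (fun y => fderiv ℝ φ y v) x :=
    (hasFDerivAt_fderiv_apply h v).differentiableAt
  have h4 := (hasDerivAt_line' (φ := fun y => fderiv ℝ φ y v) (x := x) (v := v) (s := 0)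
    (by simpa using h3)).deriv
  rw [h4]
  simp

lemma contDiffAt_fderiv_apply {φ : F → ℝ} {x : F} {m n : ℕ∞ω} (h : ContDiffAt ℝ n φ x) (w : F)
    (hmn : m + 1 ≤ n) : ContDiffAt ℝ m (fun y => fderiv ℝ φ y w) x :=
  (h.fderiv_right hmn).clm_apply contDiffAt_const

end Comm

variable {E : Type*} [NormedAddCommGroup E] [InnerProductSpace ℝ E] [FiniteDimensional ℝ E]
variable {Ω : Set E} {u : ℝ → E → ℝ}

lemma fderiv_space {g : ℝ × E → ℝ} {t : ℝ} {x : E} (h : DifferentiableAt ℝ g (t, x)) (v : E) :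
    fderiv ℝ (fun y => g (t, y)) x v = fderiv ℝ g (t, x) (0, v) := by
  have h1 : HasFDerivAt (fun y : E => ((t, y) : ℝ × E)) (ContinuousLinearMap.inr ℝ ℝ E) x :=
    hasFDerivAt_prodMk_right t x
  have h2 := h.hasFDerivAt.comp x h1
  have h3 : fderiv ℝ (fun y => g (t, y)) x =
      (fderiv ℝ g (t, x)).comp (ContinuousLinearMap.inr ℝ ℝ E) := h2.fderiv
  rw [h3]; rfl

lemma hasDerivAt_time {g : ℝ × E → ℝ} {t : ℝ} {x : E} (h : DifferentiableAt ℝ g (t, x)) :
    HasDerivAt (fun s => g (s, x)) (fderiv ℝ g (t, x) (1, 0)) t := by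
  have h1 : HasDerivAt (fun s : ℝ => ((s, x) : ℝ × E)) ((1 : ℝ), (0 : E)) t :=
    (hasDerivAt_id t).prodMk (hasDerivAt_const t x)
  exact h.hasFDerivAt.comp_hasDerivAt t h1

lemma laplacian_space {g : ℝ × E → ℝ} {t : ℝ} {x : E} (h : ContDiffAt ℝ 2 g (t, x)) :
    Δ (fun y => g (t, y)) x = ∑ i, fderiv ℝ (fun z => fderiv ℝ g z (0, stdOrthonormalBasis ℝ E i))
      (t, x) (0, stdOrthonormalBasis ℝ E i) := by
  have h1 : ContDiffAt ℝ 2 (fun y => g (t, y)) x := by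
    have h2 : ContDiffAt ℝ 2 (fun y : E => ((t, y) : ℝ × E)) x := by fun_prop
    exact h.comp x h2
  rw [laplacian_eq_sum (stdOrthonormalBasis ℝ E) h1]
  refine Finset.sum_congr rfl fun i _ => ?_
  rw [← deriv_deriv_line' h]
  congr 2
  funext s
  simp

/-- The derivative of a solution in a spatial direction is a solution: joint form. -/
theorem heat_dir_aux {F : ℝ × E → ℝ} {O : Set (ℝ × E)} (hOo : IsOpen O)
    (hFs : ∀ z ∈ O, ContDiffAt ℝ ∞ F z)
    (hheat : ∀ z ∈ O, fderiv ℝ F z (1, 0) =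
      ∑ i, fderiv ℝ (fun y => fderiv ℝ F y (0, stdOrthonormalBasis ℝ E i)) z
        (0, stdOrthonormalBasis ℝ E i)) (n : E) {z : ℝ × E} (hz : z ∈ O) :
    fderiv ℝ (fun z => fderiv ℝ F z (0, n)) z (1, 0) =
      ∑ i, fderiv ℝ (fun y => fderiv ℝ (fun z => fderiv ℝ F z (0, n)) y
        (0, stdOrthonormalBasis ℝ E i)) z (0, stdOrthonormalBasis ℝ E i) := by
  have hF2 : ∀ z ∈ O, ContDiffAt ℝ 2 F z := fun z hz =>
    (hFs z hz).of_le (WithTop.coe_le_coe.mpr le_top)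
  have hsm : ∀ w : ℝ × E, ∀ z ∈ O, ContDiffAt ℝ ∞ (fun y => fderiv ℝ F y w) z := fun w z hz =>
    contDiffAt_fderiv_apply (hFs z hz) w le_rfl
  have hsm2 : ∀ w : ℝ × E, ∀ z ∈ O, ContDiffAt ℝ 2 (fun y => fderiv ℝ F y w) z := fun w z hz =>
    (hsm w z hz).of_le (WithTop.coe_le_coe.mpr le_top)
  have hsm3 : ∀ w w' : ℝ × E, ∀ z ∈ O,
      ContDiffAt ℝ 2 (fun y => fderiv ℝ (fun y' => fderiv ℝ F y' w) y w') z := fun w w' z hz =>
    (contDiffAt_fderiv_apply (hsm w z hz) w' (m := ∞) le_rfl).of_le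
      (WithTop.coe_le_coe.mpr le_top)
  have c1 : fderiv ℝ (fun z => fderiv ℝ F z (0, n)) z (1, 0) =
      fderiv ℝ (fun y => fderiv ℝ F y (1, 0)) z (0, n) :=
    fderiv_comm (hF2 _ hz) _ _
  have c2 : (fun y => fderiv ℝ F y (1, 0)) =ᶠ[𝓝 z]
      fun y => ∑ i, fderiv ℝ (fun y' => fderiv ℝ F y' (0, stdOrthonormalBasis ℝ E i)) y
        (0, stdOrthonormalBasis ℝ E i) := by
    filter_upwards [hOo.mem_nhds hz] with y hy
    exact hheat y hy
  rw [c1, c2.fderiv_eq]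
  rw [fderiv_fun_sum (fun i _ => (hsm3 _ _ _ hz).differentiableAt (by simp))]
  rw [sum_apply]
  refine Finset.sum_congr rfl fun i _ => ?_
  rw [fderiv_comm (hsm2 _ _ hz)]
  have c3 : (fun y => fderiv ℝ (fun y' => fderiv ℝ F y' (0, stdOrthonormalBasis ℝ E i)) y
      (0, n)) =ᶠ[𝓝 z] fun y => fderiv ℝ (fun z => fderiv ℝ F z (0, n)) y
        (0, stdOrthonormalBasis ℝ E i) := by
    filter_upwards [hOo.mem_nhds hz] with y hy
    exact fderiv_comm (hF2 y hy) _ _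
  rw [c3.fderiv_eq]

/-- The derivative of a solution in a spatial direction is a solution. -/
theorem IsHeatSolution.heat_dir (hu : IsHeatSolution Ω u) (hΩ : IsOpen Ω) (n : E) {t : ℝ}
    (ht : 0 < t) {x : E} (hx : x ∈ Ω) :
    ContDiffAt ℝ 2 (fun y => fderiv ℝ (u t) y n) x ∧
      HasDerivAt (fun s => fderiv ℝ (u s) x n) (Δ (fun y => fderiv ℝ (u t) y n) x) t := by
  obtain ⟨F, hF⟩ : ∃ F : ℝ × E → ℝ, F = fun z => u z.1 z.2 := ⟨_, rfl⟩
  obtain ⟨O, hO⟩ : ∃ O : Set (ℝ × E), O = Ioi 0 ×ˢ Ω := ⟨_, rfl⟩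
  have hFu : ∀ s, u s = fun y => F (s, y) := by
    intro s; rw [hF]
  have hOo : IsOpen O := by rw [hO]; exact isOpen_Ioi.prod hΩ
  have hOm : ∀ s y, (s, y) ∈ O ↔ 0 < s ∧ y ∈ Ω := by
    intro s y; rw [hO]; rfl
  have hFs : ∀ z ∈ O, ContDiffAt ℝ ∞ F z := by
    rintro ⟨s, y⟩ hz
    rw [hF]
    exact hu.contDiffAt s ((hOm s y).mp hz).1 y ((hOm s y).mp hz).2
  have hF2 : ∀ z ∈ O, ContDiffAt ℝ 2 F z := fun z hz =>
    (hFs z hz).of_le (WithTop.coe_le_coe.mpr le_top)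
  have hFd : ∀ z ∈ O, DifferentiableAt ℝ F z := fun z hz => (hF2 z hz).differentiableAt (by simp)
  have hheat : ∀ z ∈ O, fderiv ℝ F z (1, 0) =
      ∑ i, fderiv ℝ (fun y => fderiv ℝ F y (0, stdOrthonormalBasis ℝ E i)) z
        (0, stdOrthonormalBasis ℝ E i) := by
    rintro ⟨s, y⟩ hz
    have h0 := hu.heat s ((hOm s y).mp hz).1 y ((hOm s y).mp hz).2
    rw [hFu s] at h0
    have h0' : HasDerivAt (fun s => F (s, y)) (Δ (fun y => F (s, y)) y) s := by
      exact h0.congr_of_eventuallyEq (Eventually.of_forall fun s' => (congrFun (hFu s') y).symm)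
    have h1 := (hasDerivAt_time (hFd _ hz)).unique h0'
    rw [h1]
    exact laplacian_space (hF2 _ hz)
  have haux := heat_dir_aux hOo hFs hheat n (z := (t, x)) ((hOm t x).mpr ⟨ht, hx⟩)
  obtain ⟨P, hP⟩ : ∃ P : ℝ × E → ℝ, P = fun z => fderiv ℝ F z (0, n) := ⟨_, rfl⟩
  rw [← hP] at haux
  have hmem : (t, x) ∈ O := (hOm t x).mpr ⟨ht, hx⟩
  have hPd : ∀ s y, (s, y) ∈ O → fderiv ℝ (u s) y n = P (s, y) := by
    intro s y hz
    rw [hFu s, hP]
    exact fderiv_space (hFd _ hz) n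
  have hP2 : ContDiffAt ℝ 2 P (t, x) := by
    rw [hP]
    exact (contDiffAt_fderiv_apply (hFs _ hmem) (0, n) (m := ∞) le_rfl).of_le
      (WithTop.coe_le_coe.mpr le_top)
  have e1 : (fun y => fderiv ℝ (u t) y n) =ᶠ[𝓝 x] fun y => P (t, y) := by
    filter_upwards [hΩ.mem_nhds hx] with y hy
    exact hPd t y ((hOm t y).mpr ⟨ht, hy⟩)
  have e2 : (fun s => fderiv ℝ (u s) x n) =ᶠ[𝓝 t] fun s => P (s, x) := by
    filter_upwards [Ioi_mem_nhds ht] with s hs
    exact hPd s x ((hOm s x).mpr ⟨hs, hx⟩)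
  have hPs : ContDiffAt ℝ 2 (fun y => P (t, y)) x := by
    have h2 : ContDiffAt ℝ 2 (fun y : E => ((t, y) : ℝ × E)) x := by fun_prop
    exact hP2.comp x h2
  refine ⟨hPs.congr_of_eventuallyEq e1, ?_⟩
  have hlap : Δ (fun y => fderiv ℝ (u t) y n) x = Δ (fun y => P (t, y)) x :=
    (InnerProductSpace.laplacian_congr_nhds e1).self_of_nhds
  rw [hlap]
  refine HasDerivAt.congr_of_eventuallyEq ?_ e2
  refine (hasDerivAt_time (hP2.differentiableAt (by simp))).congr_deriv ?_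
  rw [laplacian_space hP2]
  exact haux

end Pool.Agent.H43.Flux
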