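import Pool.Agent.H43.Cor1

/-!
Local properties of a defining function: barrier, Taylor bound, normals.
-/

set_option autoImplicit false
set_option linter.unusedSectionVars false

namespace Pool.Agent.H43.Flux

open Set Filter Topology Laplacian RealInnerProductSpace ContDiff

variable {E : Type*} [NormedAddCommGroup E] [InnerProductSpace ℝ E] [FiniteDimensional ℝ E]
variable {Ω : Set E} {Q : E} {ρ : E → ℝ}

lemma laplacian_eq_sum' {φ : E → ℝ} {x : E} (h : ContDiffAt ℝ 2 φ x) :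
    Δ φ x = ∑ i, fderiv ℝ (fun y => fderiv ℝ φ y (stdOrthonormalBasis ℝ E i)) x
      (stdOrthonormalBasis ℝ E i) := by
  rw [laplacian_eq_sum (stdOrthonormalBasis ℝ E) h]
  exact Finset.sum_congr rfl fun i _ => deriv_deriv_line' h

lemma sum_fderiv_sq (φ : E → ℝ) (x : E) :
    ∑ i, (fderiv ℝ φ x (stdOrthonormalBasis ℝ E i)) ^ 2 = ‖gradient φ x‖ ^ 2 := by
  rw [← real_inner_self_eq_norm_sq,
    ← (stdOrthonormalBasis ℝ E).sum_inner_mul_inner (gradient φ x) (gradient φ x)]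
  refine Finset.sum_congr rfl fun i _ => ?_
  rw [real_inner_comm (gradient φ x), inner_gradient]
  ring

/-- Laplacian of `-ρ - K ρ²`. -/
lemma laplacian_bar {φ : E → ℝ} {x : E} (h : ContDiffAt ℝ 2 φ x) (K : ℝ) :
    ContDiffAt ℝ 2 (fun y => -φ y - K * (φ y) ^ 2) x ∧
    Δ (fun y => -φ y - K * (φ y) ^ 2) x =
      -Δ φ x - K * (2 * ‖gradient φ x‖ ^ 2 + 2 * φ x * Δ φ x) := by
  have hcd : ContDiffAt ℝ 2 (fun y => -φ y - K * (φ y) ^ 2) x :=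
    h.neg.sub (contDiffAt_const.mul (h.pow 2))
  refine ⟨hcd, ?_⟩
  rw [laplacian_eq_sum' hcd, laplacian_eq_sum' h, ← sum_fderiv_sq]
  have hterm : ∀ i, fderiv ℝ (fun y => fderiv ℝ (fun y => -φ y - K * (φ y) ^ 2) y
      (stdOrthonormalBasis ℝ E i)) x (stdOrthonormalBasis ℝ E i) =
      -(fderiv ℝ (fun y => fderiv ℝ φ y (stdOrthonormalBasis ℝ E i)) x
        (stdOrthonormalBasis ℝ E i)) - K * (2 * (fderiv ℝ φ x (stdOrthonormalBasis ℝ E i)) ^ 2 +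
        2 * φ x * fderiv ℝ (fun y => fderiv ℝ φ y (stdOrthonormalBasis ℝ E i)) x
        (stdOrthonormalBasis ℝ E i)) := by
    intro i
    set v := stdOrthonormalBasis ℝ E i with hv
    have h1 : ∀ᶠ y in 𝓝 x, DifferentiableAt ℝ φ y := by
      filter_upwards [h.eventually (by simp)] with y hy
      exact hy.differentiableAt (by simp)
    have h2 : (fun y => fderiv ℝ (fun y => -φ y - K * (φ y) ^ 2) y v) =ᶠ[𝓝 x]
        fun y => -(fderiv ℝ φ y v) - K * (2 * φ y * fderiv ℝ φ y v) := by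
      filter_upwards [h1] with y hy
      have h3 := (hy.hasFDerivAt.neg).sub (((hy.hasFDerivAt.pow 2)).const_mul K)
      have h4 : fderiv ℝ (fun y => -φ y - K * (φ y) ^ 2) y = _ := h3.fderiv
      rw [h4]
      simp
    rw [h2.fderiv_eq]
    have h5 : HasFDerivAt (fun y => fderiv ℝ φ y v) (fderiv ℝ (fun y => fderiv ℝ φ y v) x) x :=
      (hasFDerivAt_fderiv_apply h v).differentiableAt.hasFDerivAt
    have h6 := (h.differentiableAt (by simp)).hasFDerivAt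
    have h7 := h5.neg.sub (((h6.const_mul 2).mul h5).const_mul K)
    have h8 : fderiv ℝ (fun y => -(fderiv ℝ φ y v) - K * (2 * φ y * fderiv ℝ φ y v)) x = _ :=
      h7.fderiv
    rw [h8]
    simp
    ring
  rw [Finset.sum_congr rfl fun i _ => hterm i, Finset.sum_sub_distrib, Finset.sum_neg_distrib,
    ← Finset.mul_sum, Finset.sum_add_distrib, ← Finset.mul_sum, ← Finset.mul_sum]

lemma continuousAt_laplacian {φ : E → ℝ} {x : E} (h : ContDiffAt ℝ 2 φ x) :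
    ContinuousAt (fun y => Δ φ y) x := by
  have h1 : (fun y => Δ φ y) =ᶠ[𝓝 x] fun y => ∑ i, fderiv ℝ (fderiv ℝ φ) y
      (stdOrthonormalBasis ℝ E i) (stdOrthonormalBasis ℝ E i) := by
    filter_upwards [h.eventually (by simp)] with y hy
    rw [laplacian_eq_sum' hy]
    exact Finset.sum_congr rfl fun i _ => fderiv_fderiv_apply hy _ _
  refine ContinuousAt.congr ?_ h1.symm
  have h2 : ContDiffAt ℝ 1 (fderiv ℝ φ) x := h.fderiv_right (m := 1) (by norm_num)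
  have h3 : ContinuousAt (fderiv ℝ (fderiv ℝ φ)) x :=
    (h2.fderiv_right (m := 0) (by norm_num)).continuousAt
  exact tendsto_finsetSum _ fun i _ =>
    (h3.clm_apply continuousAt_const).clm_apply continuousAt_const

lemma norm_gradient_sub (φ : E → ℝ) (x y : E) :
    ‖gradient φ x - gradient φ y‖ = ‖fderiv ℝ φ x - fderiv ℝ φ y‖ := by
  unfold gradient
  rw [← map_sub, LinearIsometryEquiv.norm_map]

lemma norm_gradient' (φ : E → ℝ) (x : E) : ‖gradient φ x‖ = ‖fderiv ℝ φ x‖ := by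
  unfold gradient
  rw [LinearIsometryEquiv.norm_map]

lemma normalize_sub {A B : E} (hA : A ≠ 0) (hB : B ≠ 0) :
    ‖‖A‖⁻¹ • A - ‖B‖⁻¹ • B‖ ≤ 2 * ‖A - B‖ / ‖B‖ := by
  have hA' : 0 < ‖A‖ := norm_pos_iff.mpr hA
  have hB' : 0 < ‖B‖ := norm_pos_iff.mpr hB
  have e : ‖A‖⁻¹ • A - ‖B‖⁻¹ • B = (‖A‖⁻¹ - ‖B‖⁻¹) • A + ‖B‖⁻¹ • (A - B) := by
    rw [sub_smul, smul_sub]; abel
  rw [e]
  refine (norm_add_le _ _).trans ?_
  rw [norm_smul, norm_smul, Real.norm_eq_abs, Real.norm_eq_abs, abs_of_pos (inv_pos.mpr hB')]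
  have h1 : |‖A‖⁻¹ - ‖B‖⁻¹| * ‖A‖ ≤ ‖A - B‖ / ‖B‖ := by
    have h2 : ‖A‖⁻¹ - ‖B‖⁻¹ = (‖B‖ - ‖A‖) / (‖A‖ * ‖B‖) := by field_simp
    rw [h2, abs_div, abs_of_pos (mul_pos hA' hB')]
    have h3 : |‖B‖ - ‖A‖| ≤ ‖A - B‖ := by
      rw [abs_sub_comm]; exact abs_norm_sub_norm_le A B
    calc |‖B‖ - ‖A‖| / (‖A‖ * ‖B‖) * ‖A‖ = |‖B‖ - ‖A‖| / ‖B‖ := by field_simp
      _ ≤ ‖A - B‖ / ‖B‖ := by gcongr
  calc _ ≤ ‖A - B‖ / ‖B‖ + ‖B‖⁻¹ * ‖A - B‖ := by linarith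
    _ = 2 * ‖A - B‖ / ‖B‖ := by ring

/-- Local properties of a defining function near a boundary point. -/
structure Loc (Ω : Set E) (Q : E) (ρ : E → ℝ) (R a M K C : ℝ) : Prop where
  R_pos : 0 < R
  a_pos : 0 < a
  M_pos : 0 < M
  K_pos : 0 < K
  C_pos : 0 < C
  defining : ∀ x, ‖x - Q‖ ≤ R → IsDefiningAt Ω x ρ
  taylor : ∀ x, ‖x - Q‖ ≤ R → |ρ x + a * ⟪x - Q, -nrm ρ Q⟫| ≤ M * ‖x - Q‖ ^ 2
  slope : ∀ x, ‖x - Q‖ ≤ R → fderiv ℝ ρ x (-nrm ρ Q) ≤ -(a / 2)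
  lip : ∀ x y, ‖x - Q‖ ≤ R → ‖y - Q‖ ≤ R → |ρ x - ρ y| ≤ M * ‖x - y‖
  bar : ∀ x, ‖x - Q‖ ≤ R → ContDiffAt ℝ 2 (fun y => -ρ y - K * (ρ y) ^ 2) x ∧
    Δ (fun y => -ρ y - K * (ρ y) ^ 2) x ≤ -1
  small : ∀ x, ‖x - Q‖ ≤ R → K * |ρ x| ≤ 1
  normal : ∀ x, ‖x - Q‖ ≤ R → 1 - C * ‖x - Q‖ ^ 2 ≤ ⟪nrm ρ x, nrm ρ Q⟫

theorem exists_loc (hρ : IsDefiningAt Ω Q ρ) (h0 : ρ Q = 0) :
    ∃ R a M K C, Loc Ω Q ρ R a M K C := by
  set a := ‖gradient ρ Q‖ with ha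
  have ha0 : 0 < a := norm_pos_iff.mpr hρ.gradient_ne
  -- constants
  obtain ⟨M₁, hM₁, δ₁, hδ₁, H₁⟩ := taylor_two hρ.1
  have hC1 : ContDiffAt ℝ 1 ρ Q := hρ.1.of_le (by norm_num)
  obtain ⟨M₂, t, ht, hlip⟩ := hC1.exists_lipschitzOnWith
  have h3 : DifferentiableAt ℝ (fderiv ℝ ρ) Q := by
    have := hρ.1.fderiv_right (m := 1) (by norm_num)
    exact this.differentiableAt (by simp)
  obtain ⟨M₃, hM₃, hM₃'⟩ := (h3.hasFDerivAt.isBigO_sub).exists_pos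
  have H₃ := hM₃'.bound
  set L : ℝ := |Δ ρ Q| + 1 with hL
  have hL0 : 0 < L := by positivity
  have hΔ : ∀ᶠ x in 𝓝 Q, |Δ ρ x| < L :=
    (continuousAt_laplacian hρ.1).abs.eventually (gt_mem_nhds (by rw [hL]; linarith))
  set K : ℝ := 4 / a ^ 2 * (L + 2) with hK
  have hK0 : 0 < K := by positivity
  have hsmall : ∀ᶠ x in 𝓝 Q, |ρ x| < min (1 / K) (1 / (2 * K * L)) := by
    have h4 : ContinuousAt (fun x => |ρ x|) Q := hρ.1.continuousAt.abs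
    refine h4.eventually (gt_mem_nhds ?_)
    show |ρ Q| < _
    rw [h0, abs_zero]
    exact lt_min (by positivity) (by positivity)
  have hfd : ContinuousAt (fderiv ℝ ρ) Q := h3.continuousAt
  have hgrad : ∀ᶠ x in 𝓝 Q, a / 2 < ‖gradient ρ x‖ := by
    have h4 : ContinuousAt (fun x => ‖fderiv ℝ ρ x‖) Q := hfd.norm
    have h5 : a / 2 < ‖fderiv ℝ ρ Q‖ := by rw [← norm_gradient', ← ha]; linarith
    filter_upwards [h4.eventually (lt_mem_nhds h5)] with x hx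
    rw [norm_gradient']; exact hx
  have hslope : ∀ᶠ x in 𝓝 Q, fderiv ℝ ρ x (-nrm ρ Q) < -(a / 2) := by
    have h4 : ContinuousAt (fun x => fderiv ℝ ρ x (-nrm ρ Q)) Q := hfd.clm_apply continuousAt_const
    refine h4.eventually (gt_mem_nhds ?_)
    show fderiv ℝ ρ Q (-nrm ρ Q) < _
    rw [map_neg, hρ.fderiv_apply, real_inner_self_eq_norm_sq, hρ.norm_nrm, ← ha]
    linarith
  obtain ⟨R', hR', HR⟩ := Metric.eventually_nhds_iff.mp
    ((hρ.eventually_defining.and ht).and ((hΔ.and hsmall).and ((hgrad.and hslope).and H₃)))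
  set R := min (R' / 2) (δ₁ / 2) with hR
  have hR0 : 0 < R := lt_min (by positivity) (by positivity)
  have hRR' : ∀ x, ‖x - Q‖ ≤ R → dist x Q < R' := by
    intro x hx
    rw [dist_eq_norm]
    exact hx.trans_lt ((min_le_left _ _).trans_lt (by linarith))
  have hRδ : ∀ x, ‖x - Q‖ ≤ R → ‖x - Q‖ < δ₁ := by
    intro x hx
    exact hx.trans_lt ((min_le_right _ _).trans_lt (by linarith))
  refine ⟨R, a, max M₁ (M₂ + 1), K, 2 * M₃ ^ 2 / a ^ 2, hR0, ha0, lt_max_of_lt_left hM₁, hK0,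
    by positivity, ?_, ?_, ?_, ?_, ?_, ?_, ?_⟩
  · exact fun x hx => (HR (hRR' x hx)).1.1
  · intro x hx
    have h4 := H₁ x (hRδ x hx)
    rw [h0, sub_zero, hρ.fderiv_apply, ← ha] at h4
    rw [inner_neg_right, real_inner_comm]
    have e : ρ x + a * -⟪nrm ρ Q, x - Q⟫ = ρ x - a * ⟪nrm ρ Q, x - Q⟫ := by ring
    rw [e]
    exact h4.trans (mul_le_mul_of_nonneg_right (le_max_left _ _) (by positivity))
  · exact fun x hx => (HR (hRR' x hx)).2.2.1.2.le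
  · intro x y hx hy
    have h4 := hlip.dist_le_mul x (HR (hRR' x hx)).1.2 y (HR (hRR' y hy)).1.2
    rw [Real.dist_eq, dist_eq_norm] at h4
    refine h4.trans (mul_le_mul_of_nonneg_right ?_ (norm_nonneg _))
    exact (by linarith : (M₂ : ℝ) ≤ M₂ + 1).trans (le_max_right _ _)
  · intro x hx
    obtain ⟨⟨hd, _⟩, ⟨hΔx, hsx⟩, ⟨hgx, _⟩, _⟩ := HR (hRR' x hx)
    obtain ⟨h4, h5⟩ := laplacian_bar hd.1 K
    refine ⟨h4, ?_⟩
    rw [h5]
    have h6 : |ρ x| < 1 / (2 * K * L) := hsx.trans_le (min_le_right _ _)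
    have h7 : a ^ 2 / 4 ≤ ‖gradient ρ x‖ ^ 2 := by nlinarith
    have h8 : K * (2 * (a ^ 2 / 4)) = 2 * (L + 2) := by
      rw [hK]; field_simp
    have h9 : |ρ x * Δ ρ x| ≤ |ρ x| * L := by
      rw [abs_mul]; exact mul_le_mul_of_nonneg_left hΔx.le (abs_nonneg _)
    have h10 : 2 * K * (|ρ x| * L) ≤ 1 := by
      rw [lt_div_iff₀ (by positivity)] at h6
      nlinarith
    have h11 := (abs_le.mp h9).1
    have h12 := (abs_le.mp hΔx.le).1
    have h13 : K * (2 * (a ^ 2 / 4)) ≤ K * (2 * ‖gradient ρ x‖ ^ 2) := by gcongr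
    have h14 : -(2 * K * (|ρ x| * L)) ≤ K * (2 * ρ x * Δ ρ x) := by
      have : K * (2 * ρ x * Δ ρ x) = 2 * K * (ρ x * Δ ρ x) := by ring
      rw [this]
      have : -(2 * K * (|ρ x| * L)) = 2 * K * (-(|ρ x| * L)) := by ring
      rw [this]
      exact mul_le_mul_of_nonneg_left h11 (by positivity)
    rw [mul_add]
    linarith
  · intro x hx
    have h6 : |ρ x| < 1 / K := (HR (hRR' x hx)).2.1.2.trans_le (min_le_left _ _)
    rw [lt_div_iff₀ hK0] at h6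
    linarith
  · intro x hx
    obtain ⟨⟨hd, _⟩, _, _, hx3⟩ := HR (hRR' x hx)
    have h4 : ‖nrm ρ x - nrm ρ Q‖ ≤ 2 * (M₃ * ‖x - Q‖) / a := by
      refine (normalize_sub hd.gradient_ne hρ.gradient_ne).trans ?_
      rw [norm_gradient_sub, ← ha]
      gcongr
    have h5 : ‖nrm ρ x - nrm ρ Q‖ ^ 2 = 2 - 2 * ⟪nrm ρ x, nrm ρ Q⟫ := by
      rw [norm_sub_sq_real, hd.norm_nrm, hρ.norm_nrm]; ring
    have h6 : ‖nrm ρ x - nrm ρ Q‖ ^ 2 ≤ (2 * (M₃ * ‖x - Q‖) / a) ^ 2 :=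
      pow_le_pow_left₀ (norm_nonneg _) h4 2
    have h7 : (2 * (M₃ * ‖x - Q‖) / a) ^ 2 = 2 * (2 * M₃ ^ 2 / a ^ 2 * ‖x - Q‖ ^ 2) := by
      field_simp
    linarith

end Pool.Agent.H43.Flux
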