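import Pool.Agent.H43.Cor2

/-!
Barriers near a boundary point: comparison with `|x - c|² + (t - s)` plus a multiple of the
distance-like function, and a harmonic function of order `4/3` in the quarter space.
-/

set_option autoImplicit false
set_option linter.unusedSectionVars false

namespace Pool.Agent.H43.Flux

open Set Filter Topology Laplacian RealInnerProductSpace ContDiff

variable {E : Type*} [NormedAddCommGroup E] [InnerProductSpace ℝ E] [FiniteDimensional ℝ E]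
variable {Ω : Set E} {Q : E} {ρ : E → ℝ}

/-- Comparison on a compact set. -/
theorem compare' {K : Set (ℝ × E)} (hK : IsCompact K) {w z : ℝ → E → ℝ}
    (hw : ContinuousOn (fun y : ℝ × E => w y.1 y.2) K)
    (hz : ContinuousOn (fun y : ℝ × E => z y.1 y.2) K)
    (h : ∀ t x, (t, x) ∈ K → w t x < z t x →
      (∀ᶠ y in 𝓝 x, (t, y) ∈ K) ∧ (∀ᶠ s in 𝓝[<] t, (s, x) ∈ K) ∧ SuperAt w t x ∧
        ContDiffAt ℝ 2 (z t) x ∧ ∃ a, HasDerivAt (fun s => z s x) a t ∧ a ≤ Δ (z t) x) :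
    ∀ t x, (t, x) ∈ K → z t x ≤ w t x := by
  intro t x htx
  have key := weak_max (f := fun s y => w s y - z s y) hK (hw.sub hz) ?_ t x htx
  · linarith
  intro s y hsy hneg
  obtain ⟨h1, h2, ⟨h3, a, h4, h5⟩, h6, a', h7, h8⟩ := h s y hsy (by linarith)
  refine ⟨h1, h2, h3.sub h6, a - a', h4.sub h7, ?_⟩
  rw [laplacian_sub' h3 h6]
  linarith

lemma laplacian_normSq (c x : E) : Δ (fun y : E => ‖y - c‖ ^ 2) x = 2 * Module.finrank ℝ E := by
  have hcd : ContDiffAt ℝ 2 (fun y : E => ‖y - c‖ ^ 2) x :=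
    ((contDiff_id.sub contDiff_const).norm_sq ℝ).contDiffAt
  rw [laplacian_eq_sum (stdOrthonormalBasis ℝ E) hcd]
  have hterm : ∀ i, deriv (deriv fun s : ℝ => (fun y : E => ‖y - c‖ ^ 2)
      (x + s • stdOrthonormalBasis ℝ E i)) 0 = 2 := by
    intro i
    have h1 : (fun s : ℝ => (fun y : E => ‖y - c‖ ^ 2) (x + s • stdOrthonormalBasis ℝ E i)) =
        fun s : ℝ => ‖x - c‖ ^ 2 + (2 * ⟪x - c, stdOrthonormalBasis ℝ E i⟫) * s + 1 * s ^ 2 +
          0 * s ^ 3 + 0 * s ^ 4 := by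
      funext s
      simp only
      rw [norm_sq_line x c _ ((stdOrthonormalBasis ℝ E).norm_eq_one i) s]
      ring
    rw [h1, dd_poly]; norm_num
  rw [Finset.sum_congr rfl fun i _ => hterm i]
  simp
  ring

lemma laplacian_lin {f g : E → ℝ} {x : E} (hf : ContDiffAt ℝ 2 f x) (hg : ContDiffAt ℝ 2 g x)
    (α β γ : ℝ) : ContDiffAt ℝ 2 (fun y => α * f y + β * g y + γ) x ∧
      Δ (fun y => α * f y + β * g y + γ) x = α * Δ f x + β * Δ g x := by
  have h1 : ContDiffAt ℝ 2 (α • f) x := contDiffAt_const.smul hf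
  have h2 : ContDiffAt ℝ 2 (β • g) x := contDiffAt_const.smul hg
  have h3 : ContDiffAt ℝ 2 (fun _ : E => γ) x := contDiffAt_const
  have e : (fun y => α * f y + β * g y + γ) = (α • f + β • g) + fun _ => γ := by
    funext y; simp
  rw [e]
  refine ⟨(h1.add h2).add h3, ?_⟩
  have k1 : Δ ((α • f + β • g) + fun _ : E => γ) x = Δ (α • f + β • g) x + Δ (fun _ : E => γ) x :=
    (h1.add h2).laplacian_add h3
  have k2 : Δ (α • f + β • g) x = Δ (α • f) x + Δ (β • g) x := h1.laplacian_add h2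
  rw [k1, k2, InnerProductSpace.laplacian_smul α hf,
    InnerProductSpace.laplacian_smul β hg, InnerProductSpace.laplacian_const]
  simp

namespace Loc

variable {R a M K C : ℝ}

lemma nonpos (hL : Loc Ω Q ρ R a M K C) (hΩ : IsOpen Ω) {x : E} (hx : ‖x - Q‖ ≤ R)
    (hcl : x ∈ closure Ω) : ρ x ≤ 0 := by
  by_cases h : x ∈ Ω
  · exact ((hL.defining x hx).2.2.self_of_nhds.mp h).le
  · exact ((hL.defining x hx).eq_zero hΩ (frontier_of_closure hΩ hcl h)).le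

lemma bar_nonneg (hL : Loc Ω Q ρ R a M K C) (hΩ : IsOpen Ω) {x : E} (hx : ‖x - Q‖ ≤ R)
    (hcl : x ∈ closure Ω) : 0 ≤ -ρ x - K * (ρ x) ^ 2 := by
  have h1 := hL.nonpos hΩ hx hcl
  have h2 := hL.small x hx
  rw [abs_of_nonpos h1] at h2
  nlinarith

lemma bar_le (hL : Loc Ω Q ρ R a M K C) (x : E) : -ρ x - K * (ρ x) ^ 2 ≤ -ρ x := by
  have : 0 ≤ K * (ρ x) ^ 2 := mul_nonneg hL.K_pos.le (sq_nonneg _)
  linarith

/-- Comparison with the barrier. -/
theorem cmp (hL : Loc Ω Q ρ R a M K C) (hΩ : IsOpen Ω) (hb : Bornology.IsBounded Ω)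
    {h : ℝ → E → ℝ} {t' τ r A : ℝ} {c₀ : E} (hr : r ≤ R) (hA : 0 ≤ A)
    (hcont : ContinuousOn (fun z : ℝ × E => h z.1 z.2)
      (Icc (t' - τ) t' ×ˢ (closure Ω ∩ Metric.closedBall Q r)))
    (hsub : ∀ s ∈ Icc (t' - τ) t', ∀ x ∈ Ω, ‖x - Q‖ < r →
      ContDiffAt ℝ 2 (h s) x ∧ HasDerivAt (fun s => h s x) (Δ (h s) x) s)
    (hbd : ∀ s ∈ Icc (t' - τ) t', ∀ x ∈ closure Ω, ‖x - Q‖ ≤ r →
      (x ∈ frontier Ω ∨ ‖x - Q‖ = r ∨ s = t' - τ) → h s x ≤ A * (‖x - c₀‖ ^ 2 + (t' - s))) :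
    ∀ s ∈ Icc (t' - τ) t', ∀ x ∈ closure Ω, ‖x - Q‖ ≤ r →
      h s x ≤ A * (‖x - c₀‖ ^ 2 + (t' - s)) +
        (2 * Module.finrank ℝ E + 1) * A * (-ρ x - K * (ρ x) ^ 2) := by
  set N : ℝ := ((Module.finrank ℝ E : ℕ) : ℝ) with hN
  have hN0 : 0 ≤ N := by positivity
  set b₀ : E → ℝ := fun y => -ρ y - K * (ρ y) ^ 2 with hb₀
  intro s hs x hx hxr
  have hcomp : IsCompact (Icc (t' - τ) t' ×ˢ (closure Ω ∩ Metric.closedBall Q r)) :=
    isCompact_Icc.prod (hb.isCompact_closure.inter_right Metric.isClosed_closedBall)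
  have hb₀c : ∀ y, ‖y - Q‖ ≤ R → ContDiffAt ℝ 2 b₀ y := fun y hy => (hL.bar y hy).1
  refine compare' hcomp (w := fun s x => A * (‖x - c₀‖ ^ 2 + (t' - s)) + (2 * N + 1) * A * b₀ x)
    (z := h) ?_ hcont ?_ s x ⟨hs, hx, by rw [mem_closedBall_iff_norm]; exact hxr⟩
  · rintro ⟨s', y⟩ ⟨_, _, hy⟩
    rw [mem_closedBall_iff_norm] at hy
    simp only at hy
    have h1 : ContinuousAt (fun z : ℝ × E => b₀ z.2) (s', y) :=
      ContinuousAt.comp (g := b₀) (hb₀c y (hy.trans hr)).continuousAt continuousAt_snd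
    have h2 : ContinuousAt (fun z : ℝ × E => A * (‖z.2 - c₀‖ ^ 2 + (t' - z.1))) (s', y) := by
      fun_prop
    exact (h2.add (continuousAt_const.mul h1)).continuousWithinAt
  · rintro s' y ⟨hs', hycl, hyr⟩ hlt
    rw [mem_closedBall_iff_norm] at hyr
    simp only at hs' hycl hyr hlt
    have hbar := hL.bar_nonneg hΩ (hyr.trans hr) hycl
    have hnot : ¬ (y ∈ frontier Ω ∨ ‖y - Q‖ = r ∨ s' = t' - τ) := by
      intro hcase
      have h1 := hbd s' hs' y hycl hyr hcase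
      have h2 : 0 ≤ (2 * N + 1) * A * b₀ y := by
        apply mul_nonneg (by positivity) hbar
      linarith
    push Not at hnot
    obtain ⟨hn1, hn2, hn3⟩ := hnot
    have hyΩ : y ∈ Ω := by
      by_contra hcon
      exact hn1 (frontier_of_closure hΩ hycl hcon)
    have hyr' : ‖y - Q‖ < r := lt_of_le_of_ne hyr hn2
    have hs'' : t' - τ < s' := lt_of_le_of_ne hs'.1 (Ne.symm hn3)
    obtain ⟨h1, h2⟩ := hsub s' hs' y hyΩ hyr'
    refine ⟨?_, ?_, ?_, h1, _, h2, le_rfl⟩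
    · have c1 : ∀ᶠ y' in 𝓝 y, ‖y' - Q‖ < r := by
        have hc : ContinuousAt (fun y' : E => ‖y' - Q‖) y := by fun_prop
        exact hc.eventually (gt_mem_nhds hyr')
      filter_upwards [hΩ.mem_nhds hyΩ, c1] with y' h3 h4
      exact ⟨hs', subset_closure h3, by rw [mem_closedBall_iff_norm]; exact h4.le⟩
    · filter_upwards [Ioo_mem_nhdsLT hs''] with s'' h3
      exact ⟨⟨h3.1.le, h3.2.le.trans hs'.2⟩, hycl, by rw [mem_closedBall_iff_norm]; exact hyr⟩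
    · have hcd1 : ContDiffAt ℝ 2 (fun x : E => ‖x - c₀‖ ^ 2) y :=
        ((contDiff_id.sub contDiff_const).norm_sq ℝ).contDiffAt
      obtain ⟨h3, h4⟩ := laplacian_lin hcd1 (hb₀c y (hyr.trans hr)) A ((2 * N + 1) * A)
        (A * (t' - s'))
      obtain ⟨Ψ, hΨ⟩ : ∃ Ψ : E → ℝ, Ψ = fun x : E =>
        A * (‖x - c₀‖ ^ 2 + (t' - s')) + (2 * N + 1) * A * b₀ x := ⟨_, rfl⟩
      have e : Ψ = fun x => A * ‖x - c₀‖ ^ 2 + (2 * N + 1) * A * b₀ x + A * (t' - s') := by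
        rw [hΨ]; funext x; ring
      have e' : (fun s x => A * (‖x - c₀‖ ^ 2 + (t' - s)) + (2 * N + 1) * A * b₀ x) s' = Ψ :=
        hΨ.symm
      refine ⟨?_, -A, ?_, ?_⟩
      · rw [e', e]; exact h3
      · have d1 : HasDerivAt (fun s : ℝ => ‖y - c₀‖ ^ 2 + (t' - s)) (-1) s' :=
          ((hasDerivAt_id s').const_sub t').const_add (‖y - c₀‖ ^ 2)
        have d2 := (d1.const_mul A).add_const ((2 * N + 1) * A * b₀ y)
        exact d2.congr_deriv (by ring)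
      · rw [e', e, h4, laplacian_normSq, ← hN]
        have h5 := (hL.bar y (hyr.trans hr)).2
        have h6 : (2 * N + 1) * A * Δ b₀ y ≤ (2 * N + 1) * A * (-1) :=
          mul_le_mul_of_nonneg_left h5 (by positivity)
        linarith

end Loc

/-! ### A harmonic function of order `4/3` -/

/-- The function `Re (e^{-iπ/3} z^{4/3})`. -/
noncomputable def Hc (z : ℂ) : ℝ :=
  (Complex.exp (-(Real.pi / 3 : ℝ) * Complex.I) * z ^ ((4 / 3 : ℝ) : ℂ)).re

lemma abs_Hc_le (z : ℂ) : |Hc z| ≤ ‖z‖ ^ (4 / 3 : ℝ) := by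
  unfold Hc
  refine (Complex.abs_re_le_norm _).trans ?_
  rw [norm_mul, Complex.norm_cpow_real]
  have : ‖Complex.exp (-(Real.pi / 3 : ℝ) * Complex.I)‖ = 1 := by
    have e : (-(Real.pi / 3 : ℝ) * Complex.I : ℂ) = ((-(Real.pi / 3) : ℝ) : ℂ) * Complex.I := by
      push_cast; ring
    rw [e, Complex.norm_exp_ofReal_mul_I]
  rw [this, one_mul]

lemma Hc_eq {z : ℂ} (hz : z ≠ 0) :
    Hc z = ‖z‖ ^ (4 / 3 : ℝ) * Real.cos (4 / 3 * z.arg - Real.pi / 3) := by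
  unfold Hc
  rw [Complex.cpow_def_of_ne_zero hz, ← Complex.exp_add, Complex.exp_re]
  have h1 : (-(Real.pi / 3 : ℝ) * Complex.I + Complex.log z * ((4 / 3 : ℝ) : ℂ) : ℂ).re =
      Real.log ‖z‖ * (4 / 3) := by
    rw [Complex.add_re, Complex.re_mul_ofReal, Complex.log_re]
    simp
  have h2 : (-(Real.pi / 3 : ℝ) * Complex.I + Complex.log z * ((4 / 3 : ℝ) : ℂ) : ℂ).im =
      4 / 3 * z.arg - Real.pi / 3 := by
    rw [Complex.add_im, Complex.im_mul_ofReal, Complex.log_im]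
    simp
    ring
  rw [h1, h2, Real.rpow_def_of_pos (norm_pos_iff.mpr hz)]

/-- Lower bound in the closed quarter plane. -/
lemma Hc_lower {z : ℂ} (hre : 0 ≤ z.re) (him : 0 ≤ z.im) :
    1 / 2 * ‖z‖ ^ (4 / 3 : ℝ) ≤ Hc z := by
  by_cases hz : z = 0
  · rw [hz]; simp [Hc]
  · rw [Hc_eq hz]
    have h1 : 0 ≤ z.arg := Complex.arg_nonneg_iff.mpr him
    have h2 : z.arg ≤ Real.pi / 2 := (le_abs_self _).trans (Complex.abs_arg_le_pi_div_two_iff.mpr hre)
    have h3 : 1 / 2 ≤ Real.cos (4 / 3 * z.arg - Real.pi / 3) := by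
      rw [← Real.cos_abs, ← Real.cos_pi_div_three]
      apply Real.cos_le_cos_of_nonneg_of_le_pi (abs_nonneg _)
      · linarith [Real.pi_pos]
      · rw [abs_le]; constructor <;> linarith
    have h4 : 0 ≤ ‖z‖ ^ (4 / 3 : ℝ) := Real.rpow_nonneg (norm_nonneg _) _
    nlinarith

/-- Lower bound in the lower half of the half plane. -/
lemma Hc_lower' {z : ℂ} (hre : 0 ≤ z.re) (him : z.im ≤ 0) :
    -(4 * |z.im| * ‖z‖ ^ (1 / 3 : ℝ)) ≤ Hc z := by
  by_cases hz : z = 0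
  · rw [hz]; simp [Hc]
  · rw [Hc_eq hz]
    have hn : 0 < ‖z‖ := norm_pos_iff.mpr hz
    have h1 : z.arg ≤ 0 := by
      by_contra hcon
      push Not at hcon
      have h3 : z.arg ≤ Real.pi / 2 :=
        (le_abs_self _).trans (Complex.abs_arg_le_pi_div_two_iff.mpr hre)
      have h4 : 0 < Real.sin z.arg := Real.sin_pos_of_pos_of_lt_pi hcon (by linarith [Real.pi_pos])
      rw [Complex.sin_arg] at h4
      have h5 : z.im / ‖z‖ ≤ 0 := div_nonpos_of_nonpos_of_nonneg him hn.le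
      linarith
    have h2 : -(Real.pi / 2) ≤ z.arg :=
      (abs_le.mp (Complex.abs_arg_le_pi_div_two_iff.mpr hre)).1
    have hp : 0 ≤ ‖z‖ ^ (4 / 3 : ℝ) := Real.rpow_nonneg (norm_nonneg _) _
    by_cases h8 : -(Real.pi / 8) ≤ z.arg
    · have h3 : 0 ≤ Real.cos (4 / 3 * z.arg - Real.pi / 3) := by
        apply Real.cos_nonneg_of_neg_pi_div_two_le_of_le
        · linarith
        · linarith [Real.pi_pos]
      have h4 : 0 ≤ ‖z‖ ^ (1 / 3 : ℝ) := Real.rpow_nonneg (norm_nonneg _) _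
      have h5 : 0 ≤ 4 * |z.im| * ‖z‖ ^ (1 / 3 : ℝ) := by positivity
      have h6 := mul_nonneg hp h3
      linarith
    · push Not at h8
      have h3 : 1 / 4 ≤ |z.im| / ‖z‖ := by
        have h4 : 2 / Real.pi * (-z.arg) ≤ Real.sin (-z.arg) :=
          Real.mul_le_sin (by linarith) (by linarith)
        rw [Real.sin_neg, Complex.sin_arg] at h4
        have h5 : 2 / Real.pi * (Real.pi / 8) ≤ 2 / Real.pi * (-z.arg) := by
          apply mul_le_mul_of_nonneg_left (by linarith)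
          exact div_nonneg (by norm_num) Real.pi_pos.le
        have h6 : 2 / Real.pi * (Real.pi / 8) = 1 / 4 := by
          have := Real.pi_pos.ne'
          field_simp; norm_num
        rw [abs_of_nonpos him, neg_div]
        linarith
      have h4 : ‖z‖ ≤ 4 * |z.im| := by
        rw [le_div_iff₀ hn] at h3
        linarith
      have h5 : ‖z‖ ^ (4 / 3 : ℝ) = ‖z‖ * ‖z‖ ^ (1 / 3 : ℝ) := by
        have : (4 / 3 : ℝ) = 1 + 1 / 3 := by norm_num
        rw [this, Real.rpow_add hn, Real.rpow_one]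
      have h6 : 0 ≤ ‖z‖ ^ (1 / 3 : ℝ) := Real.rpow_nonneg (norm_nonneg _) _
      have h7 := Real.neg_one_le_cos (4 / 3 * z.arg - Real.pi / 3)
      have h9 : ‖z‖ * ‖z‖ ^ (1 / 3 : ℝ) ≤ 4 * |z.im| * ‖z‖ ^ (1 / 3 : ℝ) :=
        mul_le_mul_of_nonneg_right h4 h6
      have h10 : -(‖z‖ ^ (4 / 3 : ℝ)) ≤ ‖z‖ ^ (4 / 3 : ℝ) *
          Real.cos (4 / 3 * z.arg - Real.pi / 3) := by nlinarith
      linarith

end Pool.Agent.H43.Flux
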