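import Pool.Agent.H43.Cor3

/-!
The harmonic function of order `4/3` as a function on `E`, and the barrier at the corner.
-/

set_option autoImplicit false
set_option linter.unusedSectionVars false

namespace Pool.Agent.H43.Flux

open Set Filter Topology Laplacian RealInnerProductSpace ContDiff

variable {E : Type*} [NormedAddCommGroup E] [InnerProductSpace ℝ E] [FiniteDimensional ℝ E]

lemma hasDerivAt_Hline (c w z q : ℂ) (s : ℝ) (h : z + s * q ∈ Complex.slitPlane) :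
    HasDerivAt (fun s : ℝ => (c * (z + s * q) ^ w).re)
      (((c * w * q) * (z + s * q) ^ (w - 1)).re) s := by
  have h1 : HasDerivAt (fun y : ℂ => c * y ^ w) (c * (w * (z + s * q) ^ (w - 1))) (z + s * q) := by
    have h0 : HasDerivAt (fun y : ℂ => y ^ w) (w * (z + s * q) ^ (w - 1)) (z + s * q) := by
      have := (hasDerivAt_id (z + s * q)).cpow_const (c := w) h
      simpa using this
    exact h0.const_mul c
  have h2 : HasDerivAt (fun s : ℝ => z + (s : ℂ) * q) q s := by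
    have h3 : HasDerivAt (fun s : ℝ => (s : ℂ)) 1 s := Complex.ofRealCLM.hasDerivAt
    have h4 := (h3.mul_const q).const_add z
    rwa [one_mul] at h4
  have h3 := h1.scomp s h2
  have h4 := (Complex.reCLM.hasFDerivAt (x := c * (z + s * q) ^ w)).comp_hasDerivAt s h3
  refine h4.congr_deriv ?_
  simp only [Complex.reCLM_apply, smul_eq_mul]
  congr 1
  ring

lemma deriv_deriv_Hline (z : ℂ) (h : z ∈ Complex.slitPlane) :
    ∃ k : ℂ, ∀ q : ℂ, deriv (deriv fun s : ℝ => Hc (z + s * q)) 0 = (k * q ^ 2).re := by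
  set c : ℂ := Complex.exp (-(Real.pi / 3 : ℝ) * Complex.I) with hc
  set w : ℂ := ((4 / 3 : ℝ) : ℂ) with hw
  refine ⟨c * w * (w - 1) * z ^ (w - 1 - 1), fun q => ?_⟩
  have hcont : ContinuousAt (fun s : ℝ => z + (s : ℂ) * q) 0 := by fun_prop
  have hev : ∀ᶠ s : ℝ in 𝓝 0, z + (s : ℂ) * q ∈ Complex.slitPlane := by
    apply hcont.eventually
    apply Complex.isOpen_slitPlane.mem_nhds
    simpa using h
  have h1 : deriv (fun s : ℝ => Hc (z + s * q)) =ᶠ[𝓝 0]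
      fun s : ℝ => ((c * w * q) * (z + s * q) ^ (w - 1)).re := by
    filter_upwards [hev] with s hs
    exact (hasDerivAt_Hline c w z q s hs).deriv
  rw [h1.deriv_eq]
  have h2 := (hasDerivAt_Hline (c * w * q) (w - 1) z q 0 (by simpa using h)).deriv
  rw [h2]
  congr 1
  simp only [Complex.ofReal_zero, zero_mul, add_zero]
  ring

/-- Coordinates in the plane spanned by `e` and `n`. -/
noncomputable def Zc (Q e n x : E) : ℂ := (⟪x - Q, e⟫ : ℂ) + (⟪x - Q, n⟫ : ℂ) * Complex.I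

lemma Zc_re (Q e n x : E) : (Zc Q e n x).re = ⟪x - Q, e⟫ := by simp [Zc]

lemma Zc_im (Q e n x : E) : (Zc Q e n x).im = ⟪x - Q, n⟫ := by simp [Zc]

lemma continuous_Zc (Q e n : E) : Continuous (Zc Q e n) := by
  unfold Zc
  fun_prop

lemma contDiff_Zc (Q e n : E) : ContDiff ℝ 2 (Zc Q e n) := by
  have h1 : ContDiff ℝ 2 fun x : E => x - Q := contDiff_id.sub contDiff_const
  have h2 : ContDiff ℝ 2 fun x : E => ⟪x - Q, e⟫ := h1.inner ℝ contDiff_const
  have h3 : ContDiff ℝ 2 fun x : E => ⟪x - Q, n⟫ := h1.inner ℝ contDiff_const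
  unfold Zc
  exact (Complex.ofRealCLM.contDiff.comp h2).add
    ((Complex.ofRealCLM.contDiff.comp h3).mul contDiff_const)

lemma Zc_line (Q e n x v : E) (s : ℝ) :
    Zc Q e n (x + s • v) = Zc Q e n x + s * ((⟪v, e⟫ : ℂ) + (⟪v, n⟫ : ℂ) * Complex.I) := by
  unfold Zc
  rw [inner_line, inner_line]
  push_cast
  ring

lemma norm_Zc_le {Q e n : E} (he : ‖e‖ = 1) (hn : ‖n‖ = 1) (hen : ⟪e, n⟫ = 0) (x : E) :
    ‖Zc Q e n x‖ ≤ ‖x - Q‖ := by
  have h1 : ‖Zc Q e n x‖ ^ 2 = ⟪x - Q, e⟫ ^ 2 + ⟪x - Q, n⟫ ^ 2 := by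
    rw [Complex.sq_norm, Complex.normSq_apply, Zc_re, Zc_im]; ring
  have h2 : ⟪x - Q, e⟫ ^ 2 + ⟪x - Q, n⟫ ^ 2 ≤ ‖x - Q‖ ^ 2 := by
    generalize x - Q = d
    have h3 : 0 ≤ ‖d - ⟪d, e⟫ • e - ⟪d, n⟫ • n‖ ^ 2 := by positivity
    have h4 : ‖d - ⟪d, e⟫ • e - ⟪d, n⟫ • n‖ ^ 2 =
        ‖d‖ ^ 2 - ⟪d, e⟫ ^ 2 - ⟪d, n⟫ ^ 2 := by
      rw [norm_sub_sq_real, norm_sub_sq_real, inner_smul_right, inner_smul_right,
        inner_sub_left, real_inner_smul_left, hen, norm_smul, norm_smul, he, hn]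
      simp only [Real.norm_eq_abs, mul_one, sq_abs]
      ring
    linarith
  have h3 : ‖Zc Q e n x‖ ^ 2 ≤ ‖x - Q‖ ^ 2 := by rw [h1]; exact h2
  exact (pow_le_pow_iff_left₀ (norm_nonneg _) (norm_nonneg _) two_ne_zero).mp h3

lemma contDiffAt_Hc {z : ℂ} (hz : z ∈ Complex.slitPlane) : ContDiffAt ℝ 2 Hc z := by
  have h1 : ContDiffAt ℂ 2 (fun y : ℂ => Complex.exp (-(Real.pi / 3 : ℝ) * Complex.I) *
      y ^ ((4 / 3 : ℝ) : ℂ)) z :=
    contDiffAt_const.mul (AnalyticAt.cpow analyticAt_id analyticAt_const hz).contDiffAt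
  have h2 := h1.restrict_scalars ℝ
  exact Complex.reCLM.contDiff.contDiffAt.comp z h2

lemma harmonic_Hc {Q e n : E} (he : ‖e‖ = 1) (hn : ‖n‖ = 1) (hen : ⟪e, n⟫ = 0) {x : E}
    (hx : 0 < ⟪x - Q, e⟫) : ContDiffAt ℝ 2 (fun y => Hc (Zc Q e n y)) x ∧
      Δ (fun y => Hc (Zc Q e n y)) x = 0 := by
  have hz : Zc Q e n x ∈ Complex.slitPlane := by
    left; rw [Zc_re]; exact hx
  have hcd : ContDiffAt ℝ 2 (fun y => Hc (Zc Q e n y)) x :=
    (contDiffAt_Hc hz).comp x (contDiff_Zc Q e n).contDiffAt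
  refine ⟨hcd, ?_⟩
  obtain ⟨k, hk⟩ := deriv_deriv_Hline (Zc Q e n x) hz
  rw [laplacian_eq_sum (stdOrthonormalBasis ℝ E) hcd]
  set b := stdOrthonormalBasis ℝ E with hb
  have hterm : ∀ i, deriv (deriv fun s : ℝ => (fun y => Hc (Zc Q e n y)) (x + s • b i)) 0 =
      (k * ((⟪b i, e⟫ : ℂ) + (⟪b i, n⟫ : ℂ) * Complex.I) ^ 2).re := by
    intro i
    rw [← hk]
    congr 2
    funext s
    simp only
    rw [Zc_line]
  rw [Finset.sum_congr rfl fun i _ => hterm i, ← Complex.re_sum, ← Finset.mul_sum]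
  have hsum : ∑ i, ((⟪b i, e⟫ : ℂ) + (⟪b i, n⟫ : ℂ) * Complex.I) ^ 2 = 0 := by
    have h1 : ∑ i, ⟪b i, e⟫ ^ 2 = 1 := by
      have := b.sum_inner_mul_inner e e
      rw [real_inner_self_eq_norm_sq, he] at this
      rw [← one_pow 2, ← this]
      refine Finset.sum_congr rfl fun i _ => ?_
      rw [real_inner_comm e (b i)]; ring
    have h2 : ∑ i, ⟪b i, n⟫ ^ 2 = 1 := by
      have := b.sum_inner_mul_inner n n
      rw [real_inner_self_eq_norm_sq, hn] at this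
      rw [← one_pow 2, ← this]
      refine Finset.sum_congr rfl fun i _ => ?_
      rw [real_inner_comm n (b i)]; ring
    have h3 : ∑ i, ⟪b i, e⟫ * ⟪b i, n⟫ = 0 := by
      have := b.sum_inner_mul_inner e n
      rw [hen] at this
      rw [← this]
      refine Finset.sum_congr rfl fun i _ => ?_
      rw [real_inner_comm e (b i)]
    have h4 : ∀ i, ((⟪b i, e⟫ : ℂ) + (⟪b i, n⟫ : ℂ) * Complex.I) ^ 2 =
        ((⟪b i, e⟫ ^ 2 : ℝ) : ℂ) - ((⟪b i, n⟫ ^ 2 : ℝ) : ℂ) +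
          2 * ((⟪b i, e⟫ * ⟪b i, n⟫ : ℝ) : ℂ) * Complex.I := by
      intro i
      push_cast
      have : Complex.I ^ 2 = -1 := Complex.I_sq
      linear_combination (⟪b i, n⟫ : ℂ) ^ 2 * this
    rw [Finset.sum_congr rfl fun i _ => h4 i, Finset.sum_add_distrib, Finset.sum_sub_distrib,
      ← Finset.sum_mul, ← Finset.mul_sum, ← Complex.ofReal_sum, ← Complex.ofReal_sum,
      ← Complex.ofReal_sum, h1, h2, h3]
    simp
  rw [hsum, mul_zero, Complex.zero_re]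

end Pool.Agent.H43.Flux
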