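import Pool.Agent.H43.Cor4

/-!
The gradient of the solution at the boundary, and its upper bound near a boundary point.
-/

set_option autoImplicit false
set_option linter.unusedSectionVars false

namespace Pool.Agent.H43.Flux

open Set Filter Topology Laplacian RealInnerProductSpace ContDiff

variable {E : Type*} [NormedAddCommGroup E] [InnerProductSpace ℝ E] [FiniteDimensional ℝ E]
variable {Ω : Set E} {u : ℝ → E → ℝ}

/-- `G` extends the spatial gradient of `u` continuously up to the boundary. -/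
def GradExt (Ω : Set E) (u : ℝ → E → ℝ) (G : ℝ × E → E) : Prop :=
  ContinuousOn G (Ioi 0 ×ˢ closure Ω) ∧ ∀ t > 0, ∀ x ∈ Ω, G (t, x) = gradient (u t) x

lemma IsHeatSolution.exists_gradExt (hu : IsHeatSolution Ω u) : ∃ G, GradExt Ω u G :=
  hu.gradient_ext

lemma IsHeatSolution.continuousOn_space (hu : IsHeatSolution Ω u) {t : ℝ} (ht : 0 < t) :
    ContinuousOn (u t) (closure Ω) := by
  have h2 : ContinuousOn (fun y : E => ((t, y) : ℝ × E)) (closure Ω) := by fun_prop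
  exact hu.continuousOn.comp h2 fun y hy => ⟨ht, hy⟩

lemma GradExt.continuousOn_space {G : ℝ × E → E} (hG : GradExt Ω u G) {t : ℝ} (ht : 0 < t) :
    ContinuousOn (fun y => G (t, y)) (closure Ω) := by
  have h2 : ContinuousOn (fun y : E => ((t, y) : ℝ × E)) (closure Ω) := by fun_prop
  exact hG.1.comp h2 fun y hy => ⟨ht, hy⟩

lemma GradExt.inner_eq {G : ℝ × E → E} (hG : GradExt Ω u G) {t : ℝ} (ht : 0 < t) {x : E}
    (hx : x ∈ Ω) (v : E) : ⟪G (t, x), v⟫ = fderiv ℝ (u t) x v := by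
  rw [hG.2 t ht x hx, inner_gradient]

/-- One-sided derivatives at points of the closure. -/
lemma GradExt.one_sided {G : ℝ × E → E} (hG : GradExt Ω u G) (hu : IsHeatSolution Ω u) {t : ℝ}
    (ht : 0 < t) {x v : E} (hx : x ∈ closure Ω) (hv : ∀ᶠ s : ℝ in 𝓝[>] 0, x + s • v ∈ Ω) :
    HasDerivWithinAt (fun s : ℝ => u t (x + s • v)) ⟪G (t, x), v⟫ (Ici 0) 0 := by
  obtain ⟨δ, hδ0, hδ⟩ := mem_nhdsGT_iff_exists_Ioo_subset.mp hv
  have hδ' : ∀ s ∈ Ioo (0 : ℝ) δ, x + s • v ∈ Ω := fun s hs => hδ hs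
  have hd : ∀ s ∈ Ioo (0 : ℝ) δ, HasDerivAt (fun s : ℝ => u t (x + s • v))
      ⟪G (t, x + s • v), v⟫ s := by
    intro s hs
    rw [hG.inner_eq ht (hδ' s hs)]
    exact hasDerivAt_line ((hu.smooth t ht _ (hδ' s hs)).differentiableAt (by simp))
  have hlin : Tendsto (fun s : ℝ => x + s • v) (𝓝[>] 0) (𝓝[closure Ω] x) := by
    rw [tendsto_nhdsWithin_iff]
    constructor
    · have : Continuous fun s : ℝ => x + s • v := by fun_prop
      have := this.tendsto 0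
      simp only [zero_smul, add_zero] at this
      exact this.mono_left nhdsWithin_le_nhds
    · filter_upwards [hv] with s hs
      exact subset_closure hs
  refine hasDerivWithinAt_Ici_of_tendsto_deriv (s := Ioo 0 δ)
    (fun s hs => (hd s hs).differentiableAt.differentiableWithinAt) ?_ (Ioo_mem_nhdsGT hδ0) ?_
  · have h1 : Tendsto (u t) (𝓝[closure Ω] x) (𝓝 (u t x)) := (hu.continuousOn_space ht) x hx
    have h2 : Tendsto (fun s : ℝ => u t (x + s • v)) (𝓝[>] 0) (𝓝 (u t x)) := h1.comp hlin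
    have h3 : 𝓝[Ioo (0 : ℝ) δ] 0 ≤ 𝓝[>] 0 := nhdsWithin_mono _ Ioo_subset_Ioi_self
    show Tendsto (fun s : ℝ => u t (x + s • v)) (𝓝[Ioo (0 : ℝ) δ] 0) (𝓝 (u t (x + (0 : ℝ) • v)))
    rw [zero_smul, add_zero]
    exact h2.mono_left h3
  · have h1 : Tendsto (fun y => G (t, y)) (𝓝[closure Ω] x) (𝓝 (G (t, x))) :=
      (hG.continuousOn_space ht) x hx
    have h2 : Tendsto (fun s : ℝ => ⟪G (t, x + s • v), v⟫) (𝓝[>] 0) (𝓝 ⟪G (t, x), v⟫) :=
      (h1.comp hlin).inner tendsto_const_nhds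
    refine h2.congr' ?_
    filter_upwards [Ioo_mem_nhdsGT hδ0] with s hs
    exact (hd s hs).deriv.symm

lemma deriv_le_of_quad {f : ℝ → ℝ} {d α β : ℝ} (h : HasDerivWithinAt f d (Ici 0) 0)
    (h0 : f 0 = 0) (H : ∀ᶠ η in 𝓝[>] (0 : ℝ), f η ≤ α * η ^ 2 + β * η) : d ≤ β := by
  have h1 : HasDerivWithinAt f d (Ioi 0) 0 := h.mono Ioi_subset_Ici_self
  rw [hasDerivWithinAt_iff_tendsto_slope' (by simp)] at h1
  have h2 : Tendsto (fun η : ℝ => α * η + β) (𝓝[>] 0) (𝓝 β) := by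
    have : Continuous fun η : ℝ => α * η + β := by fun_prop
    have := this.tendsto 0
    simp only [mul_zero, zero_add] at this
    exact this.mono_left nhdsWithin_le_nhds
  refine le_of_tendsto_of_tendsto h1 h2 ?_
  filter_upwards [H, self_mem_nhdsWithin] with η hη hη0
  have hη0' : 0 < η := hη0
  rw [slope_def_field, h0, sub_zero, sub_zero, div_le_iff₀ hη0']
  linarith

lemma deriv_nonneg_of_nonneg {f : ℝ → ℝ} {d : ℝ} (h : HasDerivWithinAt f d (Ici 0) 0)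
    (h0 : f 0 = 0) (H : ∀ᶠ η in 𝓝[>] (0 : ℝ), 0 ≤ f η) : 0 ≤ d := by
  have h1 := deriv_le_of_quad (α := 0) (β := 0) h.neg (by simp [h0]) (by
    filter_upwards [H] with η hη
    simp only [Pi.neg_apply]
    linarith)
  linarith

lemma eq_smul_of_halfspace {a g : E} (ha : ‖a‖ = 1) (h : ∀ v, ⟪a, v⟫ < 0 → 0 ≤ ⟪g, v⟫) :
    g = ⟪g, a⟫ • a ∧ ⟪g, a⟫ ≤ 0 := by
  have hle : ⟪g, a⟫ ≤ 0 := by
    have := h (-a) (by rw [inner_neg_right, real_inner_self_eq_norm_sq, ha]; norm_num)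
    rw [inner_neg_right] at this
    linarith
  refine ⟨?_, hle⟩
  set τ := g - ⟪g, a⟫ • a with hτ
  have haτ : ⟪a, τ⟫ = 0 := by
    rw [hτ, inner_sub_right, inner_smul_right, real_inner_self_eq_norm_sq, ha, real_inner_comm]
    ring
  have hgτ : ⟪g, τ⟫ = ‖τ‖ ^ 2 := by
    have : g = τ + ⟪g, a⟫ • a := by rw [hτ]; abel
    calc ⟪g, τ⟫ = ⟪τ + ⟪g, a⟫ • a, τ⟫ := by rw [← this]
      _ = ‖τ‖ ^ 2 := by
        rw [inner_add_left, real_inner_smul_left, haτ, real_inner_self_eq_norm_sq]; ring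
  have hsq : ∀ δ > 0, ‖τ‖ ^ 2 ≤ 0 + δ := by
    intro δ hδ
    have hc : 0 < 1 - ⟪g, a⟫ := by linarith
    have h1 := h (-τ - (δ / (1 - ⟪g, a⟫)) • a) (by
      rw [inner_sub_right, inner_neg_right, haτ, inner_smul_right, real_inner_self_eq_norm_sq, ha]
      have : 0 < δ / (1 - ⟪g, a⟫) := by positivity
      linarith)
    rw [inner_sub_right, inner_neg_right, hgτ, inner_smul_right] at h1
    have h2 : δ / (1 - ⟪g, a⟫) * -⟪g, a⟫ ≤ δ := by
      rw [div_mul_eq_mul_div, div_le_iff₀ hc]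
      nlinarith
    linarith
  have h0 : ‖τ‖ ^ 2 ≤ 0 := le_of_forall_pos_le_add hsq
  have h1 : τ = 0 := by
    rw [← norm_eq_zero]
    nlinarith [norm_nonneg τ]
  rw [hτ, sub_eq_zero] at h1
  exact h1

/-- The gradient at a boundary point is normal. -/
lemma GradExt.normal {G : ℝ × E → E} (hG : GradExt Ω u G) (hu : IsHeatSolution Ω u)
    (hΩ : IsOpen Ω) {t : ℝ} (ht : 0 < t) {x : E} (hx : x ∈ frontier Ω) {ρ : E → ℝ}
    (hρ : IsDefiningAt Ω x ρ) :
    G (t, x) = ⟪G (t, x), nrm ρ x⟫ • nrm ρ x ∧ ⟪G (t, x), nrm ρ x⟫ ≤ 0 := by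
  apply eq_smul_of_halfspace hρ.norm_nrm
  intro v hv
  have h1 : fderiv ℝ ρ x v < 0 := by
    rw [hρ.fderiv_apply]
    exact mul_neg_of_pos_of_neg (norm_pos_iff.mpr hρ.gradient_ne) hv
  have h2 := hρ.eventually_mem (hρ.eq_zero hΩ hx) h1
  refine deriv_nonneg_of_nonneg (hG.one_sided hu ht (frontier_subset_closure hx) h2) ?_ ?_
  · simp only [zero_smul, add_zero]
    exact hu.boundary t ht x hx
  · filter_upwards [h2] with s hs
    exact (hu.mem_Icc t ht _ hs).1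

/-- The flux in terms of the extended gradient. -/
lemma GradExt.flux {G : ℝ × E → E} (hG : GradExt Ω u G) (hu : IsHeatSolution Ω u)
    (hΩ : IsOpen Ω) {t b : ℝ} (ht : 0 < t) {x : E} (hx : x ∈ frontier Ω) {ρ : E → ℝ}
    (hρ : IsDefiningAt Ω x ρ)
    (hb : HasDerivWithinAt (fun s : ℝ => u t (x + s • nrm ρ x)) b (Iic 0) 0) :
    G (t, x) = b • nrm ρ x ∧ b ≤ 0 := by
  obtain ⟨h1, h2⟩ := hG.normal hu hΩ ht hx hρ
  have hev : ∀ᶠ s : ℝ in 𝓝[>] 0, x + s • (-nrm ρ x) ∈ Ω := by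
    apply hρ.eventually_mem (hρ.eq_zero hΩ hx)
    rw [map_neg, hρ.fderiv_apply, real_inner_self_eq_norm_sq, hρ.norm_nrm]
    have := norm_pos_iff.mpr hρ.gradient_ne
    linarith
  have h3 := hG.one_sided hu ht (frontier_subset_closure hx) hev
  have h4 : HasDerivWithinAt (fun s : ℝ => u t (x + (-s) • nrm ρ x)) (-b) (Ici 0) 0 := by
    have hneg : HasDerivWithinAt (fun s : ℝ => -s) (-1) (Ici 0) 0 :=
      (hasDerivAt_neg (0 : ℝ)).hasDerivWithinAt
    have hb' : HasDerivWithinAt (fun s : ℝ => u t (x + s • nrm ρ x)) b (Iic 0) (-0) := by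
      rw [neg_zero]; exact hb
    have := HasDerivWithinAt.comp (0 : ℝ) hb' hneg (fun s hs => by
      simp only [mem_Iic, mem_Ici] at hs ⊢; linarith)
    exact this.congr_deriv (mul_neg_one b)
  have h5 : (fun s : ℝ => u t (x + (-s) • nrm ρ x)) = fun s : ℝ => u t (x + s • (-nrm ρ x)) := by
    funext s; rw [neg_smul, smul_neg]
  rw [h5] at h4
  have h6 : ⟪G (t, x), -nrm ρ x⟫ = -b :=
    (uniqueDiffWithinAt_Ici (0 : ℝ)).eq_deriv _ h3 h4
  rw [inner_neg_right, neg_inj] at h6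
  rw [h6] at h1 h2
  exact ⟨h1, h2⟩

/-- Time differences are controlled by the bound of the time derivative. -/
lemma IsHeatSolution.time_diff (hu : IsHeatSolution Ω u) (hΩ : IsOpen Ω) {a C s τ : ℝ}
    (ha : 0 < a) (hC : ∀ t ≥ a, ∀ x ∈ Ω, |Δ (u t) x| ≤ C) (hC0 : 0 ≤ C) (hs : a ≤ s)
    (hτ : 0 ≤ τ) {x : E} (hx : x ∈ closure Ω) : u s x - u (s + τ) x ≤ C * τ := by
  by_cases hxΩ : x ∈ Ω
  · have h1 : ∀ t ∈ Icc s (s + τ), HasDerivWithinAt (fun t => u t x) (Δ (u t) x)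
        (Icc s (s + τ)) t := fun t ht =>
      (hu.heat t (by linarith [ht.1]) x hxΩ).hasDerivWithinAt
    have h2 := (convex_Icc s (s + τ)).norm_image_sub_le_of_norm_hasDerivWithin_le h1
      (C := C) (fun t ht => hC t (by linarith [ht.1]) x hxΩ) (x := s + τ) (y := s)
      ⟨by linarith, le_rfl⟩ ⟨le_rfl, by linarith⟩
    rw [Real.norm_eq_abs, Real.norm_eq_abs] at h2
    have h3 : |s - (s + τ)| = τ := by
      rw [show s - (s + τ) = -τ by ring, abs_neg, abs_of_nonneg hτ]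
    rw [h3] at h2
    exact (le_abs_self _).trans h2
  · have h1 := frontier_of_closure hΩ hx hxΩ
    rw [hu.boundary s (by linarith) x h1, hu.boundary (s + τ) (by linarith) x h1]
    have : 0 ≤ C * τ := mul_nonneg hC0 hτ
    linarith

end Pool.Agent.H43.Flux
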