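import Pool.Agent.H43.Cor5

/-!
Upper bounds of the normal component of the gradient near a boundary point at which the flux is
constant (steps B1 and B2).
-/

set_option autoImplicit false
set_option linter.unusedSectionVars false

namespace Pool.Agent.H43.Flux

open Set Filter Topology Laplacian RealInnerProductSpace ContDiff

variable {E : Type*} [NormedAddCommGroup E] [InnerProductSpace ℝ E] [FiniteDimensional ℝ E]
variable {Ω : Set E} {u : ℝ → E → ℝ} {Q : E} {ρ : E → ℝ} {R a M K C : ℝ}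

/-- The direction `-nrm ρ Q` points into the domain at all boundary points near `Q`. -/
lemma Loc.inward (hL : Loc Ω Q ρ R a M K C) (hΩ : IsOpen Ω) {x : E} (hx : x ∈ closure Ω)
    (hxR : ‖x - Q‖ ≤ R) : ∀ᶠ s : ℝ in 𝓝[>] 0, x + s • (-nrm ρ Q) ∈ Ω := by
  by_cases h : x ∈ Ω
  · have hc : ContinuousAt (fun s : ℝ => x + s • (-nrm ρ Q)) 0 := by fun_prop
    have : Ω ∈ 𝓝 (x + (0 : ℝ) • (-nrm ρ Q)) := by simpa using hΩ.mem_nhds h
    exact (hc.eventually this).filter_mono nhdsWithin_le_nhds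
  · have hd := hL.defining x hxR
    apply hd.eventually_mem (hd.eq_zero hΩ (frontier_of_closure hΩ hx h))
    have := hL.slope x hxR
    have := hL.a_pos
    linarith

/-- Time regularity of the flux (step B1). -/
theorem flux_time (hΩ : IsC2Domain Ω) (hu : IsHeatSolution Ω u) {G : ℝ × E → E}
    (hG : GradExt Ω u G) (hL : Loc Ω Q ρ R a M K C) (hQn : ‖nrm ρ Q‖ = 1) {t : ℝ} (ht : 0 < t) :
    ∃ C₂ ≥ 0, ∀ x ∈ frontier Ω, ‖x - Q‖ ≤ R / 2 → ∀ s ∈ Icc (t - t / 4) t,
      ⟪G (t, x), -nrm ρ Q⟫ ≤ ⟪G (s, x), -nrm ρ Q⟫ ∧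
      ⟪G (s, x), -nrm ρ Q⟫ ≤ ⟪G (t, x), -nrm ρ Q⟫ + C₂ * (t - s) := by
  have hO := hΩ.isOpen
  have hbd := hΩ.isBounded
  have hR := hL.R_pos
  obtain ⟨C₁, hC₁⟩ := hu.deriv_bounded (t / 2) (by positivity)
  set C₁' := max C₁ 0 with hC₁'
  have hC₁0 : 0 ≤ C₁' := le_max_right _ _
  have hC₁b : ∀ s ≥ t / 2, ∀ x ∈ Ω, |Δ (u s) x| ≤ C₁' := fun s hs x hx =>
    (hC₁ s hs x hx).trans (le_max_left _ _)
  set N : ℝ := ((Module.finrank ℝ E : ℕ) : ℝ) with hN
  have hN0 : 0 ≤ N := by positivity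
  set m := min ((R / 2) ^ 2) (t / 4) with hm
  have hm0 : 0 < m := lt_min (by positivity) (by positivity)
  have hM := hL.M_pos
  refine ⟨(2 * N + 1) * (C₁' / m) * M, by positivity, ?_⟩
  intro x₀ hx₀ hx₀R s₀ hs₀
  set n := -nrm ρ Q with hn
  have hnn : ‖n‖ = 1 := by rw [hn, norm_neg]; exact hQn
  have hx₀cl := frontier_subset_closure hx₀
  have hin := hL.inward hO hx₀cl (hx₀R.trans (by linarith))
  rw [← hn] at hin
  have hs₀0 : 0 < s₀ := by linarith [hs₀.1]
  set τ := t - s₀ with hτ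
  have hτ0 : 0 ≤ τ := by rw [hτ]; linarith [hs₀.2]
  have hts : s₀ + τ = t := by rw [hτ]; ring
  have hmono : ∀ s > 0, ∀ x ∈ closure Ω, u (s + τ) x ≤ u s x := by
    intro s hs x hx
    rcases hτ0.lt_or_eq with h | h
    · exact hu.mono hO hbd h hs hx
    · rw [← h, add_zero]
  have hd := (hG.one_sided hu hs₀0 hx₀cl hin).sub (hG.one_sided hu ht hx₀cl hin)
  have h0 : ((fun s : ℝ => u s₀ (x₀ + s • n)) - fun s : ℝ => u t (x₀ + s • n)) 0 = 0 := by
    simp only [Pi.sub_apply, zero_smul, add_zero]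
    rw [hu.boundary s₀ hs₀0 x₀ hx₀, hu.boundary t ht x₀ hx₀, sub_zero]
  constructor
  · have := deriv_nonneg_of_nonneg hd h0 (by
      filter_upwards [hin] with η hη
      simp only [Pi.sub_apply]
      have := hmono s₀ hs₀0 _ (subset_closure hη)
      rw [hts] at this
      linarith)
    linarith
  · set A := C₁' * τ / m with hA
    have hA0 : 0 ≤ A := by positivity
    have hAm : A * m = C₁' * τ := by rw [hA]; field_simp
    have hq : 0 ≤ t / 4 := by positivity
    have htime : ∀ s ∈ Icc (s₀ - t / 4) s₀, t / 2 ≤ s ∧ 0 < s := by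
      intro s hs
      have : t / 2 ≤ s := by linarith [hs.1, hs₀.1]
      exact ⟨this, by linarith⟩
    have key := hL.cmp hO hbd (h := fun s x => u s x - u (s + τ) x) (t' := s₀) (τ := t / 4)
      (r := R) (A := A) (c₀ := x₀) le_rfl hA0 ?_ ?_ ?_
    · have hnear : ∀ᶠ η : ℝ in 𝓝[>] 0, ‖x₀ + η • n - Q‖ ≤ R := by
        filter_upwards [Ioo_mem_nhdsGT (show 0 < R / 2 by positivity)] with η hη
        have e : x₀ + η • n - Q = (x₀ - Q) + η • n := by abel
        rw [e]
        refine (norm_add_le _ _).trans ?_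
        rw [norm_smul, hnn, Real.norm_eq_abs, abs_of_pos hη.1, mul_one]
        linarith [hη.2]
      have h1 := deriv_le_of_quad (α := A) (β := (2 * N + 1) * A * M) hd h0 (by
        filter_upwards [hin, hnear, self_mem_nhdsWithin] with η hη hηR hη0
        have hη0' : 0 < η := hη0
        have h2 := key s₀ ⟨by linarith, le_rfl⟩ _ (subset_closure hη) hηR
        simp only [Pi.sub_apply]
        rw [hts] at h2
        have e1 : x₀ + η • n - x₀ = η • n := by abel
        rw [e1, norm_smul, hnn, Real.norm_eq_abs, abs_of_pos hη0', mul_one, sub_self,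
          add_zero] at h2
        have h3 : -ρ (x₀ + η • n) ≤ M * η := by
          have h4 := hL.lip (x₀ + η • n) x₀ hηR (hx₀R.trans (by linarith))
          rw [e1, norm_smul, hnn, Real.norm_eq_abs, abs_of_pos hη0', mul_one,
            (hL.defining x₀ (hx₀R.trans (by linarith))).eq_zero hO hx₀, sub_zero] at h4
          linarith [(abs_le.mp h4).1]
        have h5 := hL.bar_le (x₀ + η • n)
        have h6 : (2 * N + 1) * A * (-ρ (x₀ + η • n) - K * ρ (x₀ + η • n) ^ 2) ≤
            (2 * N + 1) * A * (M * η) :=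
          mul_le_mul_of_nonneg_left (h5.trans h3) (by positivity)
        have e2 : (2 * N + 1) * A * (M * η) = (2 * N + 1) * A * M * η := by ring
        rw [e2] at h6
        linarith)
      have h2 : (2 * N + 1) * (C₁' / m) * M * (t - s₀) = (2 * N + 1) * A * M := by
        rw [hA, ← hτ]; ring
      rw [h2]
      linarith
    · have h1 : ContinuousOn (fun z : ℝ × E => u (z.1 + τ) z.2)
          (Icc (s₀ - t / 4) s₀ ×ˢ (closure Ω ∩ Metric.closedBall Q R)) := by
        have h2 : ContinuousOn (fun z : ℝ × E => (z.1 + τ, z.2))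
          (Icc (s₀ - t / 4) s₀ ×ˢ (closure Ω ∩ Metric.closedBall Q R)) := by fun_prop
        refine hu.continuousOn.comp h2 ?_
        rintro ⟨s, y⟩ ⟨hs, hy⟩
        exact ⟨by show 0 < s + τ; linarith [(htime s hs).2], hy.1⟩
      refine (hu.continuousOn.mono ?_).sub h1
      rintro ⟨s, y⟩ ⟨hs, hy⟩
      exact ⟨(htime s hs).2, hy.1⟩
    · intro s hs x hx _
      have hs0 := (htime s hs).2
      have hs' : 0 < s + τ := by linarith
      have h4 := hu.smooth (s + τ) hs' x hx
      have h5 := hu.heat (s + τ) hs' x hx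
      refine ⟨(hu.smooth s hs0 x hx).sub h4, ?_⟩
      rw [laplacian_sub' (hu.smooth s hs0 x hx) h4]
      exact (hu.heat s hs0 x hx).sub (h5.comp_add_const s τ)
    · intro s hs x hx hxR hcase
      have hs0 := htime s hs
      have hle : u s x - u (s + τ) x ≤ C₁' * τ :=
        hu.time_diff hO (by positivity) hC₁b hC₁0 hs0.1 hτ0 hx
      have hss : 0 ≤ s₀ - s := by linarith [hs.2]
      rcases hcase with h | h | h
      · rw [hu.boundary s hs0.2 x h, hu.boundary (s + τ) (by linarith) x h, sub_zero]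
        positivity
      · refine hle.trans ?_
        rw [← hAm]
        apply mul_le_mul_of_nonneg_left _ hA0
        have h1 : R / 2 ≤ ‖x - x₀‖ := by
          have e : x - Q = (x - x₀) + (x₀ - Q) := by abel
          have := norm_add_le (x - x₀) (x₀ - Q)
          rw [← e, h] at this
          linarith
        have h2 : (R / 2) ^ 2 ≤ ‖x - x₀‖ ^ 2 := pow_le_pow_left₀ (by positivity) h1 2
        linarith [min_le_left ((R / 2) ^ 2) (t / 4)]
      · refine hle.trans ?_
        rw [← hAm]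
        apply mul_le_mul_of_nonneg_left _ hA0
        have h1 : s₀ - s = t / 4 := by rw [h]; ring
        have h2 : 0 ≤ ‖x - x₀‖ ^ 2 := by positivity
        linarith [min_le_right ((R / 2) ^ 2) (t / 4)]

lemma exists_bound {K : Set (ℝ × E)} (hK : IsCompact K) {f : ℝ × E → ℝ} (hf : ContinuousOn f K) :
    ∃ B ≥ 0, ∀ z ∈ K, f z ≤ B := by
  obtain ⟨B, hB⟩ := hK.exists_bound_of_continuousOn hf
  exact ⟨max B 0, le_max_right _ _, fun z hz =>
    ((le_abs_self _).trans (hB z hz)).trans (le_max_left _ _)⟩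

/-- Upper bound of the normal component of the gradient (step B2). -/
theorem flux_upper (hΩ : IsC2Domain Ω) (hu : IsHeatSolution Ω u) {G : ℝ × E → E}
    (hG : GradExt Ω u G) (hL : Loc Ω Q ρ R a M K C) (hQn : ‖nrm ρ Q‖ = 1) {t b : ℝ} (ht : 0 < t)
    (hb : ∀ p ∈ frontier Ω, ∀ ν : E, IsOuterNormal Ω p ν →
      HasDerivWithinAt (fun s : ℝ => u t (p + s • ν)) b (Iic 0) 0) (hb0 : b ≤ 0) :
    ∃ A ≥ 0, ∀ s ∈ Icc (t - t / 4) t, ∀ x ∈ closure Ω, ‖x - Q‖ ≤ R / 2 →
      ⟪G (s, x), -nrm ρ Q⟫ ≤ -b + A * (‖x - Q‖ ^ 2 + (t - s)) +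
        (2 * Module.finrank ℝ E + 1) * A * (-ρ x) := by
  have hO := hΩ.isOpen
  have hbd := hΩ.isBounded
  have hR := hL.R_pos
  obtain ⟨C₂, hC₂0, hC₂⟩ := flux_time hΩ hu hG hL hQn ht
  set n := -nrm ρ Q with hn
  have hnn : ‖n‖ = 1 := by rw [hn, norm_neg]; exact hQn
  set N : ℝ := ((Module.finrank ℝ E : ℕ) : ℝ) with hN
  have hN0 : 0 ≤ N := by positivity
  have htime : ∀ s ∈ Icc (t - t / 4) t, 0 < s := fun s hs => by linarith [hs.1]
  have hcomp : IsCompact (Icc (t - t / 4) t ×ˢ (closure Ω ∩ Metric.closedBall Q (R / 2))) :=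
    isCompact_Icc.prod (hbd.isCompact_closure.inter_right Metric.isClosed_closedBall)
  have hcont : ContinuousOn (fun z : ℝ × E => ⟪G (z.1, z.2), n⟫ - (-b))
      (Icc (t - t / 4) t ×ˢ (closure Ω ∩ Metric.closedBall Q (R / 2))) := by
    have h1 : ContinuousOn (fun z : ℝ × E => ⟪G z, n⟫)
        (Icc (t - t / 4) t ×ˢ (closure Ω ∩ Metric.closedBall Q (R / 2))) := by
      refine ContinuousOn.inner (hG.1.mono ?_) continuousOn_const
      rintro ⟨s, y⟩ ⟨hs, hy⟩
      exact ⟨htime s hs, hy.1⟩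
    exact h1.sub continuousOn_const
  obtain ⟨B, hB0, hB⟩ := exists_bound hcomp hcont
  set m := min ((R / 2) ^ 2) (t / 4) with hm
  have hm0 : 0 < m := lt_min (by positivity) (by positivity)
  set A := C₂ + B / m with hA
  have hA0 : 0 ≤ A := by positivity
  have hAB : B ≤ A * m := by
    have : B / m * m = B := by field_simp
    have h2 : 0 ≤ C₂ * m := by positivity
    calc B = B / m * m := this.symm
      _ ≤ (C₂ + B / m) * m := by rw [add_mul]; linarith
  refine ⟨A, hA0, ?_⟩
  intro s hs x hx hxR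
  have key := hL.cmp hO hbd (h := fun s x => ⟪G (s, x), n⟫ - (-b)) (t' := t) (τ := t / 4)
    (r := R / 2) (A := A) (c₀ := Q) (by linarith) hA0 hcont ?_ ?_ s hs x hx hxR
  · have h5 := hL.bar_le x
    have h6 : (2 * N + 1) * A * (-ρ x - K * ρ x ^ 2) ≤ (2 * N + 1) * A * (-ρ x) :=
      mul_le_mul_of_nonneg_left h5 (by positivity)
    linarith
  · intro s' hs' y hy _
    have hs0 := htime s' hs'
    obtain ⟨h1, h2⟩ := hu.heat_dir hO n hs0 hy
    have e1 : (fun y => ⟪G (s', y), n⟫ - (-b)) =ᶠ[𝓝 y] fun y => fderiv ℝ (u s') y n - (-b) := by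
      filter_upwards [hO.mem_nhds hy] with y' hy'
      rw [hG.inner_eq hs0 hy']
    have e2 : (fun s => ⟪G (s, y), n⟫ - (-b)) =ᶠ[𝓝 s'] fun s => fderiv ℝ (u s) y n - (-b) := by
      filter_upwards [Ioi_mem_nhds hs0] with s'' hs''
      rw [hG.inner_eq hs'' hy]
    refine ⟨(h1.sub contDiffAt_const).congr_of_eventuallyEq e1, ?_⟩
    have e3 : Δ (fun y => ⟪G (s', y), n⟫ - (-b)) y = Δ (fun y => fderiv ℝ (u s') y n) y := by
      have e4 : Δ (fun y => ⟪G (s', y), n⟫ - (-b)) y =
          Δ (fun y => fderiv ℝ (u s') y n - (-b)) y :=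
        (InnerProductSpace.laplacian_congr_nhds e1).self_of_nhds
      have e5 : Δ (fun _ : E => (-b : ℝ)) y = 0 := by
        rw [InnerProductSpace.laplacian_const]; rfl
      rw [e4, laplacian_sub' h1 contDiffAt_const, e5, sub_zero]
    rw [e3]
    exact (h2.sub_const (-b)).congr_of_eventuallyEq e2
  · intro s' hs' y hy hyR hcase
    have hts : 0 ≤ t - s' := by linarith [hs'.2]
    rcases hcase with h | h | h
    · have h1 := (hC₂ y h hyR s' hs').2
      have hd := hL.defining y (by linarith)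
      have h2 := (hG.flux hu hO ht h hd (hb y h _ hd.isOuterNormal)).1
      have h3 : ⟪G (t, y), n⟫ ≤ -b := by
        rw [h2, real_inner_smul_left]
        have h4 : -1 ≤ ⟪nrm ρ y, n⟫ := by
          have := abs_real_inner_le_norm (nrm ρ y) n
          rw [hd.norm_nrm, hnn, mul_one] at this
          exact (abs_le.mp this).1
        nlinarith
      have h5 : C₂ * (t - s') ≤ A * (‖y - Q‖ ^ 2 + (t - s')) := by
        have h6 : C₂ * (t - s') ≤ A * (t - s') := by
          apply mul_le_mul_of_nonneg_right _ hts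
          rw [hA]
          have : 0 ≤ B / m := by positivity
          linarith
        have h7 : 0 ≤ A * ‖y - Q‖ ^ 2 := by positivity
        rw [mul_add]; linarith
      linarith
    · have h1 := hB (s', y) ⟨hs', hy, by rw [mem_closedBall_iff_norm]; exact hyR⟩
      refine h1.trans (hAB.trans ?_)
      apply mul_le_mul_of_nonneg_left _ hA0
      rw [h]
      linarith [min_le_left ((R / 2) ^ 2) (t / 4)]
    · have h1 := hB (s', y) ⟨hs', hy, by rw [mem_closedBall_iff_norm]; exact hyR⟩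
      refine h1.trans (hAB.trans ?_)
      apply mul_le_mul_of_nonneg_left _ hA0
      have h2 : t - s' = t / 4 := by rw [h]; ring
      have h3 : 0 ≤ ‖y - Q‖ ^ 2 := by positivity
      linarith [min_le_right ((R / 2) ^ 2) (t / 4)]

end Pool.Agent.H43.Flux
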