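import Pool.Agent.H43.Cor6

/-!
The vertical derivative of the difference at the corner is small (step B3).
-/

set_option autoImplicit false
set_option linter.unusedSectionVars false

namespace Pool.Agent.H43.Flux

open Set Filter Topology Laplacian RealInnerProductSpace ContDiff

variable {E : Type*} [NormedAddCommGroup E] [InnerProductSpace ℝ E] [FiniteDimensional ℝ E]
variable {Ω : Set E} {u : ℝ → E → ℝ} {Q : E} {ρ : E → ℝ} {R a M K C : ℝ}

/-- The barrier at the corner. -/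
noncomputable def Psi (Q e n : E) (K₀ τ : ℝ) (x : E) : ℝ :=
  2 * K₀ * Hc (Zc Q e n x) + (‖x - Q‖ ^ 2 + τ) - K₀ * ⟪x - Q, n⟫ ^ 2

lemma psi_lower {e n : E} (he : ‖e‖ = 1) (hn : ‖n‖ = 1) (hen : ⟪e, n⟫ = 0) {M' K₀ r₃ : ℝ}
    (hM' : 0 ≤ M') (hK₀ : 0 ≤ K₀) (hr1 : r₃ ≤ 1)
    (h1 : 32 * K₀ * M' * r₃ ^ (1 / 3 : ℝ) ≤ 1) (h2 : 4 * K₀ * M' ^ 2 * r₃ ^ 2 ≤ 1) {x : E}
    (hx : ‖x - Q‖ ≤ r₃) (hy : 0 ≤ ⟪x - Q, e⟫) (hv : -(M' * ‖x - Q‖ ^ 2) ≤ ⟪x - Q, n⟫)
    {τ : ℝ} (hτ : 0 ≤ τ) : 1 / 2 * (‖x - Q‖ ^ 2 + τ) ≤ Psi Q e n K₀ τ x := by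
  unfold Psi
  set q := ‖x - Q‖ ^ 2 with hq
  have hq0 : 0 ≤ q := by positivity
  set Z := Zc Q e n x with hZ
  have hZn : ‖Z‖ ≤ ‖x - Q‖ := norm_Zc_le he hn hen x
  set v := ⟪x - Q, n⟫ with hvdef
  have hZim : Z.im = v := Zc_im Q e n x
  have hZre : 0 ≤ Z.re := by rw [hZ, Zc_re]; exact hy
  have hvZ : |v| ≤ ‖Z‖ := by rw [← hZim]; exact Complex.abs_im_le_norm Z
  rcases le_total 0 v with hv0 | hv0
  · have h3 := Hc_lower hZre (by rw [hZim]; exact hv0)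
    have h4 : v ^ 2 ≤ ‖Z‖ ^ (4 / 3 : ℝ) := by
      rcases (norm_nonneg Z).lt_or_eq with h5 | h5
      · have h6 : ‖Z‖ ^ (2 : ℝ) ≤ ‖Z‖ ^ (4 / 3 : ℝ) :=
          Real.rpow_le_rpow_of_exponent_ge h5 (by linarith) (by norm_num)
        rw [Real.rpow_two] at h6
        have h7 : |v| ^ 2 ≤ ‖Z‖ ^ 2 := pow_le_pow_left₀ (abs_nonneg _) hvZ 2
        rw [sq_abs] at h7
        linarith
      · rw [← h5] at hvZ
        have : v = 0 := abs_eq_zero.mp (le_antisymm hvZ (abs_nonneg _))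
        rw [this, ← h5]
        simp
    have h5 : K₀ * v ^ 2 ≤ 2 * K₀ * Hc Z := by
      have : K₀ * v ^ 2 ≤ K₀ * ‖Z‖ ^ (4 / 3 : ℝ) := mul_le_mul_of_nonneg_left h4 hK₀
      nlinarith
    linarith
  · have h3 := Hc_lower' hZre (by rw [hZim]; exact hv0)
    rw [hZim] at h3
    have h4 : |v| ≤ M' * q := by rw [abs_of_nonpos hv0]; linarith
    have h5 : ‖Z‖ ^ (1 / 3 : ℝ) ≤ r₃ ^ (1 / 3 : ℝ) :=
      Real.rpow_le_rpow (norm_nonneg _) (hZn.trans hx) (by norm_num)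
    have h6 : |v| * ‖Z‖ ^ (1 / 3 : ℝ) ≤ (M' * q) * r₃ ^ (1 / 3 : ℝ) :=
      mul_le_mul h4 h5 (Real.rpow_nonneg (norm_nonneg _) _) (by positivity)
    have h7 : 8 * K₀ * (|v| * ‖Z‖ ^ (1 / 3 : ℝ)) ≤ q / 4 := by
      calc 8 * K₀ * (|v| * ‖Z‖ ^ (1 / 3 : ℝ)) ≤ 8 * K₀ * ((M' * q) * r₃ ^ (1 / 3 : ℝ)) :=
            mul_le_mul_of_nonneg_left h6 (by positivity)
        _ = (32 * K₀ * M' * r₃ ^ (1 / 3 : ℝ)) * (q / 4) := by ring
        _ ≤ 1 * (q / 4) := mul_le_mul_of_nonneg_right h1 (by positivity)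
        _ = q / 4 := one_mul _
    have h8 : K₀ * v ^ 2 ≤ q / 4 := by
      have h9 : v ^ 2 ≤ (M' * q) ^ 2 := by
        rw [← sq_abs v]
        exact pow_le_pow_left₀ (abs_nonneg _) h4 2
      have h10 : q ≤ r₃ ^ 2 := pow_le_pow_left₀ (norm_nonneg _) hx 2
      calc K₀ * v ^ 2 ≤ K₀ * (M' * q) ^ 2 := mul_le_mul_of_nonneg_left h9 hK₀
        _ = (4 * K₀ * M' ^ 2 * q) * (q / 4) := by ring
        _ ≤ (4 * K₀ * M' ^ 2 * r₃ ^ 2) * (q / 4) := by gcongr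
        _ ≤ 1 * (q / 4) := mul_le_mul_of_nonneg_right h2 (by positivity)
        _ = q / 4 := one_mul _
    have h11 : -(8 * K₀ * (|v| * ‖Z‖ ^ (1 / 3 : ℝ))) ≤ 2 * K₀ * Hc Z := by
      have := mul_le_mul_of_nonneg_left h3 (show 0 ≤ 2 * K₀ by positivity)
      calc _ = 2 * K₀ * -(4 * |v| * ‖Z‖ ^ (1 / 3 : ℝ)) := by ring
        _ ≤ _ := this
    linarith

lemma psi_upper {e n : E} (he : ‖e‖ = 1) (hn : ‖n‖ = 1) (hen : ⟪e, n⟫ = 0) {K₀ : ℝ}
    (hK₀ : 0 ≤ K₀) (x : E) :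
    Psi Q e n K₀ 0 x ≤ (2 * K₀ * ‖x - Q‖ ^ (1 / 3 : ℝ) + ‖x - Q‖) * ‖x - Q‖ := by
  unfold Psi
  have h1 := (abs_le.mp (abs_Hc_le (Zc Q e n x))).2
  have h2 : ‖Zc Q e n x‖ ^ (4 / 3 : ℝ) ≤ ‖x - Q‖ ^ (4 / 3 : ℝ) :=
    Real.rpow_le_rpow (norm_nonneg _) (norm_Zc_le he hn hen x) (by norm_num)
  have h3 : ‖x - Q‖ ^ (4 / 3 : ℝ) = ‖x - Q‖ ^ (1 / 3 : ℝ) * ‖x - Q‖ := by
    rcases (norm_nonneg (x - Q)).lt_or_eq with h | h
    · have : (4 / 3 : ℝ) = 1 / 3 + 1 := by norm_num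
      rw [this, Real.rpow_add h, Real.rpow_one]
    · rw [← h, mul_zero, Real.zero_rpow (by norm_num)]
  have h4 : 2 * K₀ * Hc (Zc Q e n x) ≤ 2 * K₀ * (‖x - Q‖ ^ (1 / 3 : ℝ) * ‖x - Q‖) := by
    apply mul_le_mul_of_nonneg_left _ (by positivity)
    rw [← h3]; exact h1.trans h2
  have h5 : 0 ≤ K₀ * ⟪x - Q, n⟫ ^ 2 := by positivity
  calc _ ≤ 2 * K₀ * (‖x - Q‖ ^ (1 / 3 : ℝ) * ‖x - Q‖) + ‖x - Q‖ ^ 2 := by linarith
    _ = _ := by ring

lemma exists_radius {K₀ M' R' : ℝ} (hR' : 0 < R') :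
    ∃ r > 0, r ≤ R' ∧ r ≤ 1 ∧ 32 * K₀ * M' * r ^ (1 / 3 : ℝ) ≤ 1 ∧
      4 * K₀ * M' ^ 2 * r ^ 2 ≤ 1 := by
  have h1 : Tendsto (fun r : ℝ => 32 * K₀ * M' * r ^ (1 / 3 : ℝ)) (𝓝[>] 0) (𝓝 0) := by
    have h2 : ContinuousAt (fun r : ℝ => 32 * K₀ * M' * r ^ (1 / 3 : ℝ)) 0 :=
      continuousAt_const.mul (Real.continuousAt_rpow_const _ _ (Or.inr (by norm_num)))
    have h3 := h2.tendsto
    simp only [Real.zero_rpow (show (1 / 3 : ℝ) ≠ 0 by norm_num), mul_zero] at h3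
    exact h3.mono_left nhdsWithin_le_nhds
  have h4 : Tendsto (fun r : ℝ => 4 * K₀ * M' ^ 2 * r ^ 2) (𝓝[>] 0) (𝓝 0) := by
    have h2 : Continuous fun r : ℝ => 4 * K₀ * M' ^ 2 * r ^ 2 := by fun_prop
    have h3 := h2.tendsto 0
    simp only [ne_eq, OfNat.ofNat_ne_zero, not_false_eq_true, zero_pow, mul_zero] at h3
    exact h3.mono_left nhdsWithin_le_nhds
  obtain ⟨r, ⟨h5, h6⟩, h7⟩ := ((h1.eventually (gt_mem_nhds one_pos)).and
    (h4.eventually (gt_mem_nhds one_pos))).and (Ioo_mem_nhdsGT (show 0 < min R' 1 from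
      lt_min hR' one_pos)) |>.exists
  exact ⟨r, h7.1, h7.2.le.trans (min_le_left _ _), h7.2.le.trans (min_le_right _ _), h5.le, h6.le⟩

/-- Step B3: the vertical derivative of the difference of the reflected solution and the solution
is `o(|x - Q|)` at the corner. -/
theorem vertical_small (hΩ : IsC2Domain Ω) (hu : IsHeatSolution Ω u) {G : ℝ × E → E}
    (hG : GradExt Ω u G) (hL : Loc Ω Q ρ R a M K C) (hQ : Q ∈ frontier Ω) {e : E} (he : ‖e‖ = 1)
    {μ : ℝ} (hg : Good Ω e μ) (hQμ : ⟪Q, e⟫ = μ) (hρe : fderiv ℝ ρ Q e = 0) {t b : ℝ}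
    (ht : 0 < t)
    (hb : ∀ p ∈ frontier Ω, ∀ ν : E, IsOuterNormal Ω p ν →
      HasDerivWithinAt (fun s : ℝ => u t (p + s • ν)) b (Iic 0) 0) {ε : ℝ} (hε : 0 < ε) :
    ∃ δ > 0, ∀ x ∈ Beyond Ω e μ, ‖x - Q‖ < δ →
      ⟪G (t, Rf e μ x), -nrm ρ Q⟫ - ⟪G (t, x), -nrm ρ Q⟫ ≤ ε * ‖x - Q‖ := by
  have hO := hΩ.isOpen
  have hbd := hΩ.isBounded
  have hR := hL.R_pos
  have ha := hL.a_pos
  have hM := hL.M_pos
  have hC := hL.C_pos
  have hρ : IsDefiningAt Ω Q ρ := hL.defining Q (by simp [hR.le])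
  have hQn : ‖nrm ρ Q‖ = 1 := hρ.norm_nrm
  have hb0 : b ≤ 0 := (hG.flux hu hO ht hQ hρ (hb Q hQ _ hρ.isOuterNormal)).2
  obtain ⟨C₂, hC₂0, hC₂⟩ := flux_time hΩ hu hG hL hQn ht
  obtain ⟨A, hA0, hA⟩ := flux_upper hΩ hu hG hL hQn ht hb hb0
  set n := -nrm ρ Q with hn
  have hnn : ‖n‖ = 1 := by rw [hn, norm_neg]; exact hQn
  have hen : ⟪e, n⟫ = 0 := by
    rw [hρ.fderiv_apply] at hρe
    have h1 := (mul_eq_zero.mp hρe).resolve_left (norm_pos_iff.mpr hρ.gradient_ne).ne'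
    rw [hn, inner_neg_right, real_inner_comm, h1, neg_zero]
  set N : ℝ := ((Module.finrank ℝ E : ℕ) : ℝ) with hN
  have hN0 : 0 ≤ N := by positivity
  set K₀ : ℝ := N + 1 / 2 with hK₀
  have hK₀0 : 0 < K₀ := by positivity
  set M' := M / a with hM'
  have hM'0 : 0 < M' := by positivity
  obtain ⟨r, hr0, hrR, hr1, hr2, hr3⟩ := exists_radius (K₀ := K₀) (M' := M')
    (show 0 < R / 2 by positivity)
  -- geometry of the reflection
  have hRQ : Rf e μ Q = Q := Rf_eq_self he hQμ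
  have hRn : ∀ x, ‖Rf e μ x - Q‖ = ‖x - Q‖ := by
    intro x
    have : Rf e μ x - Q = Rf e μ x - Rf e μ Q := by rw [hRQ]
    rw [this, norm_Rf_sub]
  have hRin : ∀ x, ⟪Rf e μ x - Q, n⟫ = ⟪x - Q, n⟫ := by
    intro x
    rw [Rf_apply he, inner_sub_left, inner_sub_left, inner_sub_left, real_inner_smul_left, hen]
    ring
  have hye : ∀ x, ⟪x - Q, e⟫ = ⟪x, e⟫ - μ := fun x => by rw [inner_sub_left, hQμ]
  have hvlow : ∀ x ∈ closure Ω, ‖x - Q‖ ≤ r → -(M' * ‖x - Q‖ ^ 2) ≤ ⟪x - Q, n⟫ := by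
    intro x hx hxr
    have hxR : ‖x - Q‖ ≤ R := by linarith
    have h1 := (abs_le.mp (hL.taylor x hxR)).1
    have h2 := hL.nonpos hO hxR hx
    rw [← hn] at h1
    rw [hM', neg_le, div_mul_eq_mul_div, le_div_iff₀ ha]
    linarith
  have htime : ∀ s ∈ Icc (t - t / 4) t, 0 < s := fun s hs => by linarith [hs.1]
  set Kc : Set (ℝ × E) :=
    Icc (t - t / 4) t ×ˢ (closure (Beyond Ω e μ) ∩ Metric.closedBall Q r) with hKc
  have hclB : closure (Beyond Ω e μ) ⊆ closure Ω := closure_mono inter_subset_left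
  have hcomp : IsCompact Kc :=
    isCompact_Icc.prod ((hbd.subset inter_subset_left).isCompact_closure.inter_right
      Metric.isClosed_closedBall)
  set w : ℝ → E → ℝ := fun s x => ⟪G (s, Rf e μ x), n⟫ - ⟪G (s, x), n⟫ with hw
  have hcont : ContinuousOn (fun z : ℝ × E => w z.1 z.2) Kc := by
    have h1 : ContinuousOn (fun z : ℝ × E => ⟪G z, n⟫) Kc := by
      refine ContinuousOn.inner (hG.1.mono ?_) continuousOn_const
      rintro ⟨s, y⟩ ⟨hs, hy⟩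
      exact ⟨htime s hs, hclB hy.1⟩
    have h2 : ContinuousOn (fun z : ℝ × E => ⟪G (z.1, Rf e μ z.2), n⟫) Kc := by
      have h3 : Continuous fun z : ℝ × E => (z.1, Rf e μ z.2) :=
        continuous_fst.prodMk ((continuous_Rf e μ).comp continuous_snd)
      refine ContinuousOn.inner (hG.1.comp h3.continuousOn ?_) continuousOn_const
      rintro ⟨s, y⟩ ⟨hs, hy⟩
      exact ⟨htime s hs, hg.Rf_mem_closure he hy.1⟩
    exact h2.sub h1
  obtain ⟨B, hB0, hB⟩ := exists_bound hcomp hcont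
  -- bound on the curved boundary
  set C₇ := A + (2 * N + 1) * A * (2 * M) + (-b) * C with hC₇
  have hC₇0 : 0 ≤ C₇ := by
    have : 0 ≤ -b := by linarith
    positivity
  have hfr : ∀ s ∈ Icc (t - t / 4) t, ∀ x ∈ closure (Beyond Ω e μ), x ∈ frontier Ω →
      ‖x - Q‖ ≤ r → w s x ≤ C₇ * (‖x - Q‖ ^ 2 + (t - s)) := by
    intro s hs x hxB hx hxr
    have hxR2 : ‖x - Q‖ ≤ R / 2 := by linarith
    have hxR : ‖x - Q‖ ≤ R := by linarith
    have hts : 0 ≤ t - s := by linarith [hs.2]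
    have hd := hL.defining x hxR
    have h1 := (hC₂ x hx hxR2 s hs).1
    have h2 := (hG.flux hu hO ht hx hd (hb x hx _ hd.isOuterNormal)).1
    have h3 : -b * (1 - C * ‖x - Q‖ ^ 2) ≤ ⟪G (t, x), n⟫ := by
      rw [h2, real_inner_smul_left, hn, inner_neg_right]
      have h4 := hL.normal x hxR
      nlinarith
    have h4 := hA s hs (Rf e μ x) (hg.Rf_mem_closure he hxB) (by rw [hRn]; exact hxR2)
    rw [hRn] at h4
    have h5 : -ρ (Rf e μ x) ≤ 2 * M * ‖x - Q‖ ^ 2 := by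
      have h6 := (abs_le.mp (hL.taylor (Rf e μ x) (by rw [hRn]; exact hxR))).1
      have h7 := (abs_le.mp (hL.taylor x hxR)).2
      rw [← hn] at h6 h7
      rw [hRn, hRin] at h6
      rw [hd.eq_zero hO hx] at h7
      linarith
    have h6 : (2 * N + 1) * A * (-ρ (Rf e μ x)) ≤ (2 * N + 1) * A * (2 * M * ‖x - Q‖ ^ 2) :=
      mul_le_mul_of_nonneg_left h5 (by positivity)
    have h7 : 0 ≤ ((2 * N + 1) * A * (2 * M) + (-b) * C) * (t - s) := by
      have : 0 ≤ -b := by linarith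
      positivity
    show ⟪G (s, Rf e μ x), n⟫ - ⟪G (s, x), n⟫ ≤ _
    have h8 : C₇ * (‖x - Q‖ ^ 2 + (t - s)) = A * (‖x - Q‖ ^ 2 + (t - s)) +
        (2 * N + 1) * A * (2 * M * ‖x - Q‖ ^ 2) + (-b) * C * ‖x - Q‖ ^ 2 +
        ((2 * N + 1) * A * (2 * M) + (-b) * C) * (t - s) := by
      rw [hC₇]; ring
    rw [h8]
    linarith
  set m := min (r ^ 2) (t / 4) with hm
  have hm0 : 0 < m := lt_min (by positivity) (by positivity)
  set A₅ := 2 * (C₇ + B / m) with hA₅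
  have hA₅0 : 0 ≤ A₅ := by positivity
  have hA₅C : C₇ ≤ A₅ * (1 / 2) := by
    have : 0 ≤ B / m := by positivity
    rw [hA₅]; linarith
  have hA₅B : B ≤ A₅ * (1 / 2 * m) := by
    have h1 : B / m * m = B := by field_simp
    have h2 : 0 ≤ C₇ * m := by positivity
    calc B = B / m * m := h1.symm
      _ ≤ A₅ * (1 / 2 * m) := by rw [hA₅]; linarith
  have hlow : ∀ s ∈ Icc (t - t / 4) t, ∀ x ∈ closure (Beyond Ω e μ), ‖x - Q‖ ≤ r →
      A₅ * (1 / 2 * (‖x - Q‖ ^ 2 + (t - s))) ≤ A₅ * Psi Q e n K₀ (t - s) x := by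
    intro s hs x hx hxr
    apply mul_le_mul_of_nonneg_left _ hA₅0
    refine psi_lower he hnn hen hM'0.le hK₀0.le hr1 hr2 hr3 hxr ?_ (hvlow x (hclB hx) hxr)
      (by linarith [hs.2])
    rw [hye]
    linarith [le_of_mem_closure_beyond hx]
  have key := compare' hcomp (w := fun s x => A₅ * Psi Q e n K₀ (t - s) x) (z := w) ?_ hcont ?_
  · -- conclusion
    have h1 : Tendsto (fun y : ℝ => A₅ * (2 * K₀ * y ^ (1 / 3 : ℝ) + y)) (𝓝 0) (𝓝 0) := by
      have h2 : ContinuousAt (fun y : ℝ => A₅ * (2 * K₀ * y ^ (1 / 3 : ℝ) + y)) 0 :=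
        continuousAt_const.mul ((continuousAt_const.mul
          (Real.continuousAt_rpow_const _ _ (Or.inr (by norm_num)))).add continuousAt_id)
      have h3 := h2.tendsto
      simp only [Real.zero_rpow (show (1 / 3 : ℝ) ≠ 0 by norm_num), mul_zero, add_zero] at h3
      exact h3
    obtain ⟨δ, hδ0, hδ⟩ := Metric.eventually_nhds_iff.mp (h1.eventually (gt_mem_nhds hε))
    refine ⟨min δ r, lt_min hδ0 hr0, fun x hx hxδ => ?_⟩
    have hxr : ‖x - Q‖ ≤ r := hxδ.le.trans (min_le_right _ _)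
    have h2 := key t x ⟨⟨by linarith, le_rfl⟩, subset_closure hx,
      by rw [mem_closedBall_iff_norm]; exact hxr⟩
    rw [sub_self] at h2
    have h3 := psi_upper (Q := Q) he hnn hen hK₀0.le x
    have h4 := hδ (y := ‖x - Q‖) (by
      rw [Real.dist_eq, sub_zero, abs_of_nonneg (norm_nonneg _)]
      exact hxδ.trans_le (min_le_left _ _))
    calc w t x ≤ A₅ * Psi Q e n K₀ 0 x := h2
      _ ≤ A₅ * ((2 * K₀ * ‖x - Q‖ ^ (1 / 3 : ℝ) + ‖x - Q‖) * ‖x - Q‖) :=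
        mul_le_mul_of_nonneg_left h3 hA₅0
      _ = A₅ * (2 * K₀ * ‖x - Q‖ ^ (1 / 3 : ℝ) + ‖x - Q‖) * ‖x - Q‖ := by ring
      _ ≤ ε * ‖x - Q‖ := mul_le_mul_of_nonneg_right h4.le (norm_nonneg _)
  · -- continuity of the barrier
    have hHc : ∀ x, 0 ≤ ⟪x - Q, e⟫ → ContinuousAt (fun y => Hc (Zc Q e n y)) x := by
      intro x hx
      have h1 : ContinuousAt Hc (Zc Q e n x) := by
        by_cases hz : Zc Q e n x = 0
        · -- at the origin
          rw [hz]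
          have h2 : Hc 0 = 0 := by simp [Hc]
          rw [ContinuousAt, h2]
          refine squeeze_zero_norm (a := fun z : ℂ => ‖z‖ ^ (4 / 3 : ℝ)) (fun z => abs_Hc_le z) ?_
          have h3 : ContinuousAt (fun z : ℂ => ‖z‖ ^ (4 / 3 : ℝ)) 0 :=
            continuousAt_id.norm.rpow_const (Or.inr (by norm_num))
          have h4 := h3.tendsto
          simp only [norm_zero, Real.zero_rpow (show (4 / 3 : ℝ) ≠ 0 by norm_num)] at h4
          exact h4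
        · have hsl : Zc Q e n x ∈ Complex.slitPlane := by
            rw [Complex.mem_slitPlane_iff]
            rcases hx.lt_or_eq with h3 | h3
            · left; rw [Zc_re]; exact h3
            · right
              intro him
              apply hz
              apply Complex.ext
              · rw [Zc_re, ← h3]; rfl
              · rw [him]; rfl
          exact (contDiffAt_Hc hsl).continuousAt
      exact ContinuousAt.comp (g := Hc) h1 (continuous_Zc Q e n).continuousAt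
    rintro ⟨s, x⟩ ⟨hs, hx, _⟩
    have hx0 : 0 ≤ ⟪x - Q, e⟫ := by rw [hye]; linarith [le_of_mem_closure_beyond hx]
    have h1 : ContinuousAt (fun z : ℝ × E => Hc (Zc Q e n z.2)) (s, x) :=
      ContinuousAt.comp (g := fun y => Hc (Zc Q e n y)) (hHc x hx0) continuousAt_snd
    have h2 : ContinuousAt (fun z : ℝ × E => (‖z.2 - Q‖ ^ 2 + (t - z.1)) - K₀ * ⟪z.2 - Q, n⟫ ^ 2)
        (s, x) := by fun_prop
    have h3 : (fun z : ℝ × E => A₅ * Psi Q e n K₀ (t - z.1) z.2) = fun z =>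
        A₅ * (2 * K₀ * Hc (Zc Q e n z.2) +
          ((‖z.2 - Q‖ ^ 2 + (t - z.1)) - K₀ * ⟪z.2 - Q, n⟫ ^ 2)) := by
      funext z; unfold Psi; ring
    show ContinuousWithinAt (fun z : ℝ × E => A₅ * Psi Q e n K₀ (t - z.1) z.2) Kc (s, x)
    rw [h3]
    exact (continuousAt_const.mul ((continuousAt_const.mul h1).add h2)).continuousWithinAt
  · -- interior points
    rintro s x ⟨hs, hxB, hxr⟩ hlt
    simp only at hs hxB hxr hlt
    rw [mem_closedBall_iff_norm] at hxr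
    have hs0 := htime s hs
    have hts : 0 ≤ t - s := by linarith [hs.2]
    have hl := hlow s hs x hxB hxr
    have hq0 : 0 ≤ ‖x - Q‖ ^ 2 := by positivity
    have hnf : x ∉ frontier Ω := by
      intro hcon
      have h1 := hfr s hs x hxB hcon hxr
      have h2 : C₇ * (‖x - Q‖ ^ 2 + (t - s)) ≤ A₅ * (1 / 2 * (‖x - Q‖ ^ 2 + (t - s))) := by
        rw [← mul_assoc]
        exact mul_le_mul_of_nonneg_right hA₅C (by positivity)
      linarith
    have hxΩ : x ∈ Ω := by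
      by_contra hcon
      exact hnf (frontier_of_closure hO (hclB hxB) hcon)
    have hxμ : μ < ⟪x, e⟫ := by
      rcases (le_of_mem_closure_beyond hxB).lt_or_eq with h1 | h1
      · exact h1
      · exfalso
        have h2 : w s x = 0 := by
          show ⟪G (s, Rf e μ x), n⟫ - ⟪G (s, x), n⟫ = 0
          rw [Rf_eq_self he h1.symm, sub_self]
        have h3 : 0 ≤ A₅ * (1 / 2 * (‖x - Q‖ ^ 2 + (t - s))) := by positivity
        linarith
    have hxB' : x ∈ Beyond Ω e μ := ⟨hxΩ, hxμ⟩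
    have hbig : ¬ (m ≤ ‖x - Q‖ ^ 2 + (t - s)) := by
      intro hcon
      have h1 := hB (s, x) ⟨hs, hxB, by rw [mem_closedBall_iff_norm]; exact hxr⟩
      have h2 : A₅ * (1 / 2 * m) ≤ A₅ * (1 / 2 * (‖x - Q‖ ^ 2 + (t - s))) := by gcongr
      simp only at h1
      linarith
    have hxr' : ‖x - Q‖ < r := by
      rcases hxr.lt_or_eq with h1 | h1
      · exact h1
      · exfalso
        apply hbig
        rw [h1]
        linarith [min_le_left (r ^ 2) (t / 4)]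
    have hst : t - t / 4 < s := by
      rcases hs.1.lt_or_eq with h1 | h1
      · exact h1
      · exfalso
        apply hbig
        linarith [min_le_right (r ^ 2) (t / 4)]
    refine ⟨?_, ?_, ?_, ?_⟩
    · have c1 : ∀ᶠ y in 𝓝 x, ‖y - Q‖ < r := by
        have hc : ContinuousAt (fun y : E => ‖y - Q‖) x := by fun_prop
        exact hc.eventually (gt_mem_nhds hxr')
      filter_upwards [(isOpen_beyond hO e μ).mem_nhds hxB', c1] with y h3 h4
      exact ⟨hs, subset_closure h3, by rw [mem_closedBall_iff_norm]; exact h4.le⟩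
    · filter_upwards [Ioo_mem_nhdsLT hst] with s' h3
      exact ⟨⟨h3.1.le, h3.2.le.trans hs.2⟩, hxB, by rw [mem_closedBall_iff_norm]; exact hxr⟩
    · -- the barrier is a supersolution
      have hx0 : 0 < ⟪x - Q, e⟫ := by rw [hye]; linarith
      obtain ⟨k1, k2⟩ := harmonic_Hc he hnn hen hx0
      have hcd1 : ContDiffAt ℝ 2 (fun x : E => ‖x - Q‖ ^ 2) x :=
        ((contDiff_id.sub contDiff_const).norm_sq ℝ).contDiffAt
      have hcd2 : ContDiffAt ℝ 2 (fun x : E => ⟪x - Q, n⟫ ^ 2) x :=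
        ((((contDiff_id.sub contDiff_const).inner ℝ contDiff_const)).pow 2).contDiffAt
      obtain ⟨k3, k4⟩ := laplacian_lin k1 hcd1 (A₅ * (2 * K₀)) A₅ (A₅ * (t - s))
      obtain ⟨k5, k6⟩ := laplacian_lin k3 hcd2 1 (-(A₅ * K₀)) 0
      have hlapv : Δ (fun x : E => ⟪x - Q, n⟫ ^ 2) x = 2 := by
        rw [laplacian_eq_sum (stdOrthonormalBasis ℝ E) hcd2]
        have hterm : ∀ i, deriv (deriv fun s : ℝ => (fun x : E => ⟪x - Q, n⟫ ^ 2)
            (x + s • stdOrthonormalBasis ℝ E i)) 0 =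
            2 * (⟪n, stdOrthonormalBasis ℝ E i⟫ * ⟪stdOrthonormalBasis ℝ E i, n⟫) := by
          intro i
          have h1 : (fun s : ℝ => (fun x : E => ⟪x - Q, n⟫ ^ 2)
              (x + s • stdOrthonormalBasis ℝ E i)) =
              fun s : ℝ => ⟪x - Q, n⟫ ^ 2 +
                (2 * ⟪x - Q, n⟫ * ⟪stdOrthonormalBasis ℝ E i, n⟫) * s +
                (⟪stdOrthonormalBasis ℝ E i, n⟫ ^ 2) * s ^ 2 + 0 * s ^ 3 + 0 * s ^ 4 := by
            funext s
            simp only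
            rw [inner_line]
            ring
          rw [h1, dd_poly, real_inner_comm n]
          ring
        rw [Finset.sum_congr rfl fun i _ => hterm i, ← Finset.mul_sum,
          (stdOrthonormalBasis ℝ E).sum_inner_mul_inner, real_inner_self_eq_norm_sq, hnn]
        norm_num
      obtain ⟨Φ, hΦ⟩ : ∃ Φ : E → ℝ, Φ = fun x => A₅ * Psi Q e n K₀ (t - s) x := ⟨_, rfl⟩
      have e1 : Φ = fun y => 1 * (A₅ * (2 * K₀) * Hc (Zc Q e n y) + A₅ * ‖y - Q‖ ^ 2 +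
          A₅ * (t - s)) + -(A₅ * K₀) * ⟪y - Q, n⟫ ^ 2 + 0 := by
        rw [hΦ]; funext y; unfold Psi; ring
      refine ⟨?_, -A₅, ?_, ?_⟩
      · show ContDiffAt ℝ 2 (fun x => A₅ * Psi Q e n K₀ (t - s) x) x
        rw [← hΦ, e1]; exact k5
      · have d1 : HasDerivAt (fun s : ℝ => 2 * K₀ * Hc (Zc Q e n x) + (‖x - Q‖ ^ 2 + (t - s)) -
            K₀ * ⟪x - Q, n⟫ ^ 2) (-1) s :=
          (((((hasDerivAt_id s).const_sub t).const_add (‖x - Q‖ ^ 2)).const_add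
            (2 * K₀ * Hc (Zc Q e n x)))).sub_const (K₀ * ⟪x - Q, n⟫ ^ 2)
        exact (d1.const_mul A₅).congr_deriv (by ring)
      · have h1 : Δ Φ x ≤ -A₅ := by
          rw [e1, k6, k4, k2, laplacian_normSq, hlapv, ← hN, hK₀]
          ring_nf
          exact le_rfl
        rw [hΦ] at h1
        exact h1
    · obtain ⟨h1, h2⟩ := hu.heat_dir hO n hs0 hxΩ
      have hRx : Rf e μ x ∈ Ω := hg.Rf_mem he hxB'
      obtain ⟨h3, h4⟩ := hu.heat_dir hO n hs0 hRx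
      have h3' : ContDiffAt ℝ 2 (fun y => fderiv ℝ (u s) (Rf e μ y) n) x :=
        contDiffAt_comp_Rf (φ := fun y => fderiv ℝ (u s) y n) h3
      have hlapR : Δ (fun y => fderiv ℝ (u s) (Rf e μ y) n) x =
          Δ (fun y => fderiv ℝ (u s) y n) (Rf e μ x) :=
        laplacian_comp_Rf (φ := fun y => fderiv ℝ (u s) y n) h3
      have e1 : w s =ᶠ[𝓝 x] fun y => fderiv ℝ (u s) (Rf e μ y) n - fderiv ℝ (u s) y n := by
        filter_upwards [(isOpen_beyond hO e μ).mem_nhds hxB'] with y hy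
        show ⟪G (s, Rf e μ y), n⟫ - ⟪G (s, y), n⟫ = _
        rw [hG.inner_eq hs0 (hg.Rf_mem he hy), hG.inner_eq hs0 hy.1]
      have e2 : (fun s => w s x) =ᶠ[𝓝 s]
          fun s => fderiv ℝ (u s) (Rf e μ x) n - fderiv ℝ (u s) x n := by
        filter_upwards [Ioi_mem_nhds hs0] with s' hs'
        show ⟪G (s', Rf e μ x), n⟫ - ⟪G (s', x), n⟫ = _
        rw [hG.inner_eq hs' hRx, hG.inner_eq hs' hxΩ]
      refine ⟨(h3'.sub h1).congr_of_eventuallyEq e1, _, (h4.sub h2).congr_of_eventuallyEq e2, ?_⟩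
      have e3 : Δ (w s) x = Δ (fun y => fderiv ℝ (u s) (Rf e μ y) n - fderiv ℝ (u s) y n) x :=
        (InnerProductSpace.laplacian_congr_nhds e1).self_of_nhds
      rw [e3, laplacian_sub' h3' h1, hlapR]

end Pool.Agent.H43.Flux
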