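import Pool.Agent.H43.Cor7

/-!
Orthogonality at a boundary point, for domains of class `C²`.
-/

set_option autoImplicit false
set_option linter.unusedSectionVars false

namespace Pool.Agent.H43.Flux

open Set Filter Topology RealInnerProductSpace

variable {E : Type*} [NormedAddCommGroup E] [InnerProductSpace ℝ E] [FiniteDimensional ℝ E]
variable {Ω : Set E} {u : ℝ → E → ℝ} {Q : E} {ρ : E → ℝ} {R a M K C : ℝ}

lemma quad_upper {g g' : ℝ → ℝ} (hg : ∀ᶠ h in 𝓝 0, HasDerivAt g (g' h) h)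
    (hg' : HasDerivAt g' 0 0) (h0 : g 0 = 0) (h0' : g' 0 = 0) {ε : ℝ} (hε : 0 < ε) :
    ∀ᶠ η in 𝓝[>] 0, g η ≤ ε * η ^ 2 := by
  have h1 := (hasDerivAt_iff_tendsto_slope.mp hg').eventually (gt_mem_nhds hε)
  have h2 : ∀ᶠ s : ℝ in 𝓝[>] 0, slope g' 0 s < ε :=
    h1.filter_mono (nhdsWithin_mono _ (fun y hy => ne_of_gt hy))
  obtain ⟨δ, hδ0, hδ⟩ := Metric.eventually_nhds_iff.mp hg
  obtain ⟨δ', hδ'0, hδ'⟩ := mem_nhdsGT_iff_exists_Ioo_subset.mp h2
  filter_upwards [Ioo_mem_nhdsGT hδ0, Ioo_mem_nhdsGT hδ'0] with η hηδ hηδ'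
  have hη0 : 0 < η := hηδ.1
  have hd : ∀ x ∈ Icc (0 : ℝ) η, HasDerivAt g (g' x) x := by
    intro x hx
    apply hδ
    rw [Real.dist_eq, sub_zero, abs_of_nonneg hx.1]
    linarith [hx.2, hηδ.2]
  obtain ⟨ξ, hξ, hξ'⟩ := exists_hasDerivAt_eq_slope g g' hη0
    (fun x hx => (hd x hx).continuousAt.continuousWithinAt)
    (fun x hx => hd x ⟨hx.1.le, hx.2.le⟩)
  rw [h0, sub_zero, sub_zero] at hξ'
  have h3 := hδ' ⟨hξ.1, hξ.2.trans hηδ'.2⟩
  simp only [mem_ofPred_eq] at h3
  rw [slope_def_field, h0', sub_zero, sub_zero, div_lt_iff₀ hξ.1] at h3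
  have h4 : g η = g' ξ * η := by rw [hξ']; field_simp
  rw [h4]
  have h5 : g' ξ * η ≤ (ε * ξ) * η := mul_le_mul_of_nonneg_right h3.le hη0.le
  have h6 : (ε * ξ) * η ≤ (ε * η) * η := by
    apply mul_le_mul_of_nonneg_right _ hη0.le
    exact mul_le_mul_of_nonneg_left hξ.2.le hε.le
  calc _ ≤ (ε * η) * η := h5.trans h6
    _ = ε * η ^ 2 := by ring

lemma hasDerivAt_fderiv_line {φ : E → ℝ} {x : E} (h : ContDiffAt ℝ 2 φ x) (v z : E) :
    HasDerivAt (fun s : ℝ => fderiv ℝ φ (x + s • v) z) (fderiv ℝ (fderiv ℝ φ) x v z) 0 := by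
  have h3 : DifferentiableAt ℝ (fderiv ℝ φ) x := by
    have := h.fderiv_right (m := 1) (by norm_num)
    exact this.differentiableAt (by simp)
  have h5 : HasDerivAt (fun s : ℝ => x + s • v) v 0 := by
    simpa using ((hasDerivAt_id (0 : ℝ)).smul_const v).const_add x
  have h6 : HasFDerivAt (fderiv ℝ φ) (fderiv ℝ (fderiv ℝ φ) x) (x + (0 : ℝ) • v) := by
    simpa using h3.hasFDerivAt
  have h7 : HasDerivAt (fun s : ℝ => fderiv ℝ φ (x + s • v)) (fderiv ℝ (fderiv ℝ φ) x v) 0 :=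
    h6.comp_hasDerivAt (0 : ℝ) h5
  exact (ContinuousLinearMap.apply ℝ ℝ z).hasFDerivAt.comp_hasDerivAt (0 : ℝ) h7

/-- The odd part of a `C²` function in a direction of vanishing derivative is `o(h²)`. -/
lemma odd_small {φ : E → ℝ} (h : ContDiffAt ℝ 2 φ Q) {e n : E} (hn : ‖n‖ = 1)
    (he : fderiv ℝ φ Q e = 0) (k : ℝ) {ε : ℝ} (hε : 0 < ε) :
    ∀ᶠ η : ℝ in 𝓝[>] 0, ∀ v : ℝ, |v| ≤ k * η ^ 2 →
      φ (Q + η • e + v • n) - φ (Q + η • (-e) + v • n) ≤ ε * η ^ 2 := by
  have hdiff : ∀ᶠ y in 𝓝 Q, DifferentiableAt ℝ φ y := by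
    filter_upwards [h.eventually (by simp)] with y hy
    exact hy.differentiableAt (by simp)
  have hT : ∀ v : E, Tendsto (fun s : ℝ => Q + s • v) (𝓝 0) (𝓝 Q) := by
    intro v
    have : Continuous fun s : ℝ => Q + s • v := by fun_prop
    simpa using this.tendsto 0
  have hq := quad_upper (g := fun s => φ (Q + s • e) - φ (Q + s • (-e)))
    (g' := fun s => fderiv ℝ φ (Q + s • e) e - fderiv ℝ φ (Q + s • (-e)) (-e)) (ε := ε / 2) ?_ ?_
    (by simp) (by simp [he]) (by positivity)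
  · -- continuity of the derivative
    have hfd : ContinuousAt (fderiv ℝ φ) Q :=
      (h.fderiv_right (m := 1) (by norm_num)).continuousAt
    set ε' := ε / (4 * (|k| + 1)) with hε'
    have hε'0 : 0 < ε' := by positivity
    have hfd' : ∀ᶠ y in 𝓝 Q, ‖fderiv ℝ φ y - fderiv ℝ φ Q‖ < ε' := by
      have h1 : ContinuousAt (fun y => ‖fderiv ℝ φ y - fderiv ℝ φ Q‖) Q :=
        (hfd.sub continuousAt_const).norm
      refine h1.eventually (gt_mem_nhds ?_)
      simpa using hε'0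
    obtain ⟨δ, hδ0, hδ⟩ := Metric.eventually_nhds_iff.mp (hdiff.and hfd')
    have hsm : Tendsto (fun η : ℝ => η * ‖e‖ + |k| * η ^ 2) (𝓝[>] 0) (𝓝 0) := by
      have : Continuous fun η : ℝ => η * ‖e‖ + |k| * η ^ 2 := by fun_prop
      have := this.tendsto 0
      simp only [zero_mul, ne_eq, OfNat.ofNat_ne_zero, not_false_eq_true, zero_pow, mul_zero,
        add_zero] at this
      exact this.mono_left nhdsWithin_le_nhds
    filter_upwards [hq, hsm.eventually (gt_mem_nhds hδ0), self_mem_nhdsWithin] with η h1 h2 hη0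
    intro v hv
    have hη0' : 0 < η := hη0
    have hkv : |v| ≤ |k| * η ^ 2 :=
      hv.trans (mul_le_mul_of_nonneg_right (le_abs_self k) (by positivity))
    have hstep : ∀ z : E, ‖z‖ = ‖e‖ →
        |φ (Q + η • z + v • n) - φ (Q + η • z) - fderiv ℝ φ Q (v • n)| ≤ ε' * |v| := by
      intro z hz
      have hb : ∀ y ∈ Metric.ball Q δ, dist y Q < δ := fun y hy => hy
      have hm1 : Q + η • z ∈ Metric.ball Q δ := by
        rw [mem_ball_iff_norm, add_sub_cancel_left, norm_smul, hz, Real.norm_eq_abs,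
          abs_of_pos hη0']
        have : 0 ≤ |k| * η ^ 2 := by positivity
        linarith
      have hm2 : Q + η • z + v • n ∈ Metric.ball Q δ := by
        rw [mem_ball_iff_norm]
        have e1 : Q + η • z + v • n - Q = η • z + v • n := by abel
        rw [e1]
        refine (norm_add_le _ _).trans_lt ?_
        rw [norm_smul, norm_smul, hz, hn, Real.norm_eq_abs, abs_of_pos hη0', Real.norm_eq_abs,
          mul_one]
        linarith
      have key := (convex_ball Q δ).norm_image_sub_le_of_norm_fderiv_le'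
        (f := φ) (φ := fderiv ℝ φ Q) (C := ε') (𝕜 := ℝ)
        (fun y hy => (hδ (hb y hy)).1) (fun y hy => (hδ (hb y hy)).2.le) hm1 hm2
      have e1 : Q + η • z + v • n - (Q + η • z) = v • n := by abel
      rw [e1, norm_smul, hn, mul_one, Real.norm_eq_abs, Real.norm_eq_abs] at key
      exact key
    have h3 := (abs_le.mp (hstep e rfl)).2
    have h4 := (abs_le.mp (hstep (-e) (norm_neg e))).1
    have h5 : ε' * |v| ≤ ε / 4 * η ^ 2 := by
      calc ε' * |v| ≤ ε' * (|k| * η ^ 2) := mul_le_mul_of_nonneg_left hkv hε'0.le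
        _ = (ε' * |k|) * η ^ 2 := by ring
        _ ≤ ε / 4 * η ^ 2 := by
          apply mul_le_mul_of_nonneg_right _ (by positivity)
          rw [hε', div_mul_eq_mul_div, div_le_iff₀ (by positivity)]
          nlinarith [abs_nonneg k]
    have h6 : φ (Q + η • e) - φ (Q + η • (-e)) ≤ ε / 2 * η ^ 2 := h1
    linarith
  · filter_upwards [(hT e).eventually hdiff, (hT (-e)).eventually hdiff] with s hs1 hs2
    exact (hasDerivAt_line hs1).sub (hasDerivAt_line hs2)
  · refine ((hasDerivAt_fderiv_line h e e).sub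
      (hasDerivAt_fderiv_line h (-e) (-e))).congr_deriv ?_
    simp

/-- **Case (b)**: orthogonality. -/
theorem case_b' (hΩ : IsC2Domain Ω) (hu : IsHeatSolution Ω u) {e : E} (he : ‖e‖ = 1) {μ : ℝ}
    (hg : Good Ω e μ) (hQ : Q ∈ frontier Ω) (hQμ : ⟪Q, e⟫ = μ)
    (hρ : IsDefiningAt Ω Q ρ) (hρe : fderiv ℝ ρ Q e = 0) {t : ℝ} (ht : 0 < t)
    (hflux : HasConstantFlux Ω u t) :
    (ZeroSet (Beyond Ω e μ) (fun t x => u t (Rf e μ x) - u t x) t).Nonempty := by
  have hO := hΩ.isOpen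
  have hρ0 := hρ.eq_zero hO hQ
  obtain ⟨R, a, M, K, C, hL⟩ := exists_loc hρ hρ0
  have hR := hL.R_pos
  have ha := hL.a_pos
  have hM := hL.M_pos
  obtain ⟨G, hG⟩ := hu.exists_gradExt
  obtain ⟨b, hb⟩ := hflux
  set n := -nrm ρ Q with hn
  have hnn : ‖n‖ = 1 := by rw [hn, norm_neg]; exact hρ.norm_nrm
  have hen : ⟪e, n⟫ = 0 := by
    have hρe' := hρe
    rw [hρ.fderiv_apply] at hρe'
    have h1 := (mul_eq_zero.mp hρe').resolve_left (norm_pos_iff.mpr hρ.gradient_ne).ne'
    rw [hn, inner_neg_right, real_inner_comm, h1, neg_zero]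
  have hne : ⟪n, e⟫ = 0 := by rw [real_inner_comm]; exact hen
  obtain ⟨r, hr0, _, hball⟩ := hρ.exists_ball hρ0 (R := 1) one_pos
  rw [← hn] at hball
  have hw := hu.nonnegHeat_diff hO hΩ.isBounded hg he
  have hC' : ∀ x ∈ Metric.ball (Q + r • n) r, μ < ⟪x, e⟫ → x ∈ Beyond Ω e μ :=
    fun x hx hxμ => ⟨hball hx, hxμ⟩
  have hplus : ∀ η : ℝ, 0 < η → η < r → Q + η • (e + n) ∈ Metric.ball (Q + r • n) r := by
    intro η h1 h2
    rw [mem_ball_iff_inner hr0 hnn]
    have e1 : Q + η • (e + n) - Q = η • (e + n) := by abel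
    have e2 : ⟪Q + η • (e + n) - Q, n⟫ = η := by
      rw [e1, real_inner_smul_left, inner_add_left, hen, real_inner_self_eq_norm_sq, hnn]; ring
    have e3 : ‖Q + η • (e + n) - Q‖ ^ 2 = 2 * η ^ 2 := by
      rw [e1, norm_smul, mul_pow, norm_add_sq_real, hen, he, hnn, Real.norm_eq_abs, sq_abs]; ring
    rw [e2, e3]
    nlinarith
  have hinner : ∀ η v : ℝ, ⟪Q + η • e + v • n, e⟫ = μ + η := by
    intro η v
    rw [inner_add_left, inner_add_left, hQμ, real_inner_smul_left, real_inner_smul_left, hne,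
      real_inner_self_eq_norm_sq, he]; ring
  have hRf : ∀ η v : ℝ, Rf e μ (Q + η • e + v • n) = Q + η • (-e) + v • n := by
    intro η v
    rw [Rf_apply he, hinner]
    have h1 : 2 * (μ + η - μ) = 2 * η := by ring
    have h2 : η • (-e) = -(η • e) := smul_neg η e
    rw [h1, h2, mul_smul, two_smul]
    generalize v • n = z
    abel
  have hsum : ∀ η : ℝ, Q + η • (e + n) = Q + η • e + η • n := by
    intro η; rw [smul_add]; abel
  -- a point of the half ball where the difference is positive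
  set x₁ := Q + (r / 2) • (e + n) with hx₁
  have hx₁b : x₁ ∈ Metric.ball (Q + r • n) r := hplus _ (by positivity) (by linarith)
  have hx₁μ : μ < ⟪x₁, e⟫ := by rw [hx₁, hsum, hinner]; linarith
  by_contra hemp
  rw [Set.not_nonempty_iff_eq_empty] at hemp
  have hx₁D : x₁ ∈ Beyond Ω e μ := hC' x₁ hx₁b hx₁μ
  rcases hw.dich (T := t) (C := {x₁}) isPreconnected_singleton
    (singleton_subset_iff.mpr hx₁D) with hcase | hcase
  swap
  · have := hcase (mem_singleton x₁)
    rw [hemp] at this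
    exact this
  obtain ⟨_, s₁, hs₁, hs₁t, hw₁⟩ := hcase (mem_singleton x₁)
  obtain ⟨ε, hε0, η₀, hη₀, H⟩ := hw.hopf_corner hr0 he hnn hen hQμ hC' hs₁ hs₁t hx₁b hx₁μ hw₁
  -- constants
  have hcompΩ : IsCompact (closure Ω) := hΩ.isBounded.isCompact_closure
  obtain ⟨B, hB⟩ := hcompΩ.exists_bound_of_continuousOn (hG.continuousOn_space ht)
  set B' := max B 0 with hB'
  have hB'0 : 0 ≤ B' := le_max_right _ _
  have hBn : ∀ x ∈ closure Ω, ⟪G (t, x), n⟫ ≤ B' := by
    intro x hx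
    refine (real_inner_le_norm _ _).trans ?_
    rw [hnn, mul_one]
    exact (hB x hx).trans (le_max_left _ _)
  set k := 3 * M / a with hk
  have hk0 : 0 < k := by positivity
  have hka : a * k = 3 * M := by rw [hk]; field_simp
  set K₁ := B' * (2 / a) with hK₁
  have hK₁0 : 0 ≤ K₁ := by positivity
  obtain ⟨δ, hδ0, hvert⟩ := vertical_small hΩ hu hG hL hQ he hg hQμ hρe ht hb
    (show 0 < ε / 16 by positivity)
  rw [← hn] at hvert
  have hodd := odd_small (Q := Q) hρ.1 hnn hρe k (show 0 < ε / (4 * (K₁ + 1)) by positivity)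
  -- choose the scale
  have hmin : 0 < min (min (R / 2) (δ / 2)) (min η₀ (min 1 (1 / k))) :=
    lt_min (lt_min (by positivity) (by positivity))
      (lt_min hη₀ (lt_min one_pos (by positivity)))
  obtain ⟨h, hodd', hh⟩ := (hodd.and (Ioo_mem_nhdsGT hmin)).exists
  have hh0 : 0 < h := hh.1
  have hhR : h < R / 2 := hh.2.trans_le ((min_le_left _ _).trans (min_le_left _ _))
  have hhδ : h < δ / 2 := hh.2.trans_le ((min_le_left _ _).trans (min_le_right _ _))
  have hhη : h < η₀ := hh.2.trans_le ((min_le_right _ _).trans (min_le_left _ _))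
  have hhk : h < 1 / k := hh.2.trans_le
    ((min_le_right _ _).trans ((min_le_right _ _).trans (min_le_right _ _)))
  have hkh : k * h ≤ 1 := by
    rw [lt_div_iff₀ hk0] at hhk; linarith
  have hkh2 : k * h ^ 2 ≤ h := by nlinarith
  -- points of the two vertical lines
  have hnormp : ∀ z : E, ‖z‖ = 1 → ∀ v : ℝ, |v| ≤ h → ‖Q + h • z + v • n - Q‖ ≤ 2 * h := by
    intro z hz v hv
    have e1 : Q + h • z + v • n - Q = h • z + v • n := by abel
    rw [e1]
    refine (norm_add_le _ _).trans ?_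
    rw [norm_smul, norm_smul, hz, hnn, Real.norm_eq_abs, Real.norm_eq_abs, abs_of_pos hh0]
    linarith
  have hnormR : ∀ z : E, ‖z‖ = 1 → ∀ v : ℝ, |v| ≤ h → ‖Q + h • z + v • n - Q‖ ≤ R :=
    fun z hz v hv => (hnormp z hz v hv).trans (by linarith)
  have hder : ∀ z : E, ‖z‖ = 1 → ∀ v : ℝ, |v| ≤ h →
      HasDerivAt (fun v : ℝ => ρ (Q + h • z + v • n)) (fderiv ℝ ρ (Q + h • z + v • n) n) v :=
    fun z hz v hv => hasDerivAt_line (hL.defining _ (hnormR z hz v hv)).differentiableAt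
  have hslope : ∀ z : E, ‖z‖ = 1 → ∀ v v' : ℝ, |v| ≤ h → |v'| ≤ h → v ≤ v' →
      ρ (Q + h • z + v' • n) - ρ (Q + h • z + v • n) ≤ -(a / 2) * (v' - v) := by
    intro z hz v v' hv hv' hvv
    have hmem : ∀ s ∈ Icc v v', |s| ≤ h := by
      intro s hs
      rw [abs_le] at hv hv' ⊢
      exact ⟨by linarith [hs.1, hv.1], by linarith [hs.2, hv'.2]⟩
    rcases hvv.lt_or_eq with hlt | heq
    · obtain ⟨ξ, hξ, hξ'⟩ := exists_hasDerivAt_eq_slope (fun v : ℝ => ρ (Q + h • z + v • n))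
        (fun v => fderiv ℝ ρ (Q + h • z + v • n) n) hlt
        (fun s hs => (hder z hz s (hmem s hs)).continuousAt.continuousWithinAt)
        (fun s hs => hder z hz s (hmem s ⟨hs.1.le, hs.2.le⟩))
      have h1 := hL.slope _ (hnormR z hz ξ (hmem ξ ⟨hξ.1.le, hξ.2.le⟩))
      rw [← hn, hξ'] at h1
      rw [div_le_iff₀ (by linarith)] at h1
      exact h1
    · rw [heq]; simp
  have hin : ∀ z : E, ‖z‖ = 1 → ∀ v : ℝ, |v| ≤ h → ρ (Q + h • z + v • n) < 0 →
      Q + h • z + v • n ∈ Ω := fun z hz v hv hneg =>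
    (hL.defining _ (hnormR z hz v hv)).2.2.self_of_nhds.mpr hneg
  have habskh : |-(k * h ^ 2)| ≤ h := by
    rw [abs_neg, abs_of_nonneg (by positivity)]; exact hkh2
  have hQn2 : ∀ z : E, ‖z‖ = 1 → ⟪z, n⟫ = 0 → ∀ v : ℝ, ‖Q + h • z + v • n - Q‖ ^ 2 = h ^ 2 + v ^ 2 := by
    intro z hz hzn v
    have e1 : Q + h • z + v • n - Q = h • z + v • n := by abel
    rw [e1, norm_add_sq_real, real_inner_smul_left, inner_smul_right, hzn, norm_smul, norm_smul,
      hz, hnn]
    simp only [Real.norm_eq_abs, mul_one, sq_abs, mul_zero, add_zero]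
  have hQv : ∀ z : E, ⟪z, n⟫ = 0 → ∀ v : ℝ, ⟪Q + h • z + v • n - Q, n⟫ = v := by
    intro z hzn v
    have e1 : Q + h • z + v • n - Q = h • z + v • n := by abel
    rw [e1, inner_add_left, real_inner_smul_left, real_inner_smul_left, hzn,
      real_inner_self_eq_norm_sq, hnn]; ring
  have hkk : (k * h ^ 2) ^ 2 ≤ h ^ 2 := pow_le_pow_left₀ (by positivity) hkh2 2
  have hlow : ∀ z : E, ‖z‖ = 1 → ⟪z, n⟫ = 0 → 0 < ρ (Q + h • z + (-(k * h ^ 2)) • n) := by
    intro z hz hzn
    have h1 := (abs_le.mp (hL.taylor _ (hnormR z hz _ habskh))).1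
    rw [← hn, hQn2 z hz hzn, hQv z hzn] at h1
    have h2 : M * (h ^ 2 + (-(k * h ^ 2)) ^ 2) ≤ M * (2 * h ^ 2) := by
      apply mul_le_mul_of_nonneg_left _ hM.le
      rw [neg_sq]; linarith
    have h3 : a * -(k * h ^ 2) = -(3 * M * h ^ 2) := by rw [← hka]; ring
    rw [h3] at h1
    have : 0 < M * h ^ 2 := by positivity
    linarith
  have hhigh : ρ (Q + h • e + (k * h ^ 2) • n) < 0 := by
    have hab : |k * h ^ 2| ≤ h := by rw [abs_of_nonneg (by positivity)]; exact hkh2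
    have h1 := (abs_le.mp (hL.taylor _ (hnormR e he _ hab))).2
    rw [← hn, hQn2 e he hen, hQv e hen] at h1
    have h2 : M * (h ^ 2 + (k * h ^ 2) ^ 2) ≤ M * (2 * h ^ 2) := by
      apply mul_le_mul_of_nonneg_left _ hM.le
      linarith
    have h3 : a * (k * h ^ 2) = 3 * M * h ^ 2 := by rw [← hka]; ring
    rw [h3] at h1
    have : 0 < M * h ^ 2 := by positivity
    linarith
  -- the boundary point below
  have hkpos : 0 < k * h ^ 2 := by positivity
  have hcontp : ∀ z : E, ‖z‖ = 1 → ∀ c d : ℝ, -h ≤ c → d ≤ h →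
      ContinuousOn (fun v : ℝ => ρ (Q + h • z + v • n)) (Icc c d) := by
    intro z hz c d hc hd v hv
    have : |v| ≤ h := abs_le.mpr ⟨by linarith [hv.1], by linarith [hv.2]⟩
    exact (hder z hz v this).continuousAt.continuousWithinAt
  obtain ⟨vb, hvb, hvb0⟩ : ∃ v ∈ Icc (-(k * h ^ 2)) (k * h ^ 2), ρ (Q + h • e + v • n) = 0 := by
    have := intermediate_value_Icc' (show -(k * h ^ 2) ≤ k * h ^ 2 by linarith)
      (hcontp e he _ _ (by linarith) hkh2)
    obtain ⟨v, hv, hv0⟩ := this ⟨hhigh.le, (hlow e he hen).le⟩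
    exact ⟨v, hv, hv0⟩
  have hvbh : |vb| ≤ k * h ^ 2 := abs_le.mpr ⟨hvb.1, hvb.2⟩
  have hvbh' : |vb| ≤ h := hvbh.trans hkh2
  have hvble : vb ≤ h := (le_abs_self _).trans hvbh'
  have hvlt : vb < h := by
    rcases hvble.lt_or_eq with h1 | h1
    · exact h1
    · exfalso
      have h2 := hvb.2
      rw [h1] at hvb0
      have h3 := hslope e he (k * h ^ 2) h (by rw [abs_of_pos hkpos]; exact hkh2)
        (by rw [abs_of_pos hh0]) hkh2
      have h4 : 0 ≤ a / 2 * (h - k * h ^ 2) := mul_nonneg (by positivity) (by linarith)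
      linarith
  have hxbcl : Q + h • e + vb • n ∈ frontier Ω :=
    (hL.defining _ (hnormR e he vb hvbh')).mem_frontier hO hvb0
  have hneg : ∀ v : ℝ, vb < v → v ≤ h → ρ (Q + h • e + v • n) < 0 := by
    intro v h1 h2
    have h3 : |v| ≤ h := abs_le.mpr ⟨by linarith [(abs_le.mp hvbh').1], h2⟩
    have h4 := hslope e he vb v hvbh' h3 h1.le
    rw [hvb0, sub_zero] at h4
    have h5 : 0 < a / 2 * (v - vb) := mul_pos (by positivity) (by linarith)
    linarith
  have hBey : ∀ v : ℝ, vb < v → v ≤ h → Q + h • e + v • n ∈ Beyond Ω e μ := by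
    intro v h1 h2
    have h3 : |v| ≤ h := abs_le.mpr ⟨by linarith [(abs_le.mp hvbh').1], h2⟩
    refine ⟨hin e he v h3 (hneg v h1 h2), ?_⟩
    show μ < ⟪Q + h • e + v • n, e⟫
    rw [hinner]; linarith
  have hBcl : ∀ v ∈ Icc vb h, Q + h • e + v • n ∈ closure (Beyond Ω e μ) := by
    intro v hv
    have h1 : Tendsto (fun v : ℝ => Q + h • e + v • n) (𝓝[>] v) (𝓝 (Q + h • e + v • n)) := by
      have : Continuous fun v : ℝ => Q + h • e + v • n := by fun_prop
      exact (this.tendsto v).mono_left nhdsWithin_le_nhds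
    rcases hv.2.lt_or_eq with h2 | h2
    · refine mem_closure_of_tendsto h1 ?_
      filter_upwards [Ioo_mem_nhdsGT h2] with v' hv'
      exact hBey v' (hv.1.trans_lt hv'.1) hv'.2.le
    · rw [h2]; exact subset_closure (hBey h hvlt le_rfl)
  have hne1 : ‖-e‖ = 1 := by rw [norm_neg]; exact he
  have hnen : ⟪-e, n⟫ = 0 := by rw [inner_neg_left, hen, neg_zero]
  -- the difference along the vertical line
  have hWd : ∀ v ∈ Ioo vb h, HasDerivAt
      (fun v : ℝ => u t (Rf e μ (Q + h • e + v • n)) - u t (Q + h • e + v • n))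
      (⟪G (t, Rf e μ (Q + h • e + v • n)), n⟫ - ⟪G (t, Q + h • e + v • n), n⟫) v := by
    intro v hv
    have h1 := hBey v hv.1 hv.2.le
    have h2 := hg.Rf_mem he h1
    have h3 : HasDerivAt (fun v : ℝ => u t (Q + h • e + v • n))
        ⟪G (t, Q + h • e + v • n), n⟫ v := by
      rw [hG.inner_eq ht h1.1]
      exact hasDerivAt_line ((hu.smooth t ht _ h1.1).differentiableAt (by simp))
    have h4 : HasDerivAt (fun v : ℝ => u t (Rf e μ (Q + h • e + v • n)))
        ⟪G (t, Rf e μ (Q + h • e + v • n)), n⟫ v := by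
      rw [hG.inner_eq ht h2]
      have h5 : (fun v : ℝ => u t (Rf e μ (Q + h • e + v • n))) =
          fun v : ℝ => u t (Q + h • (-e) + v • n) := by
        funext v; rw [hRf]
      rw [h5, hRf]
      rw [hRf] at h2
      exact hasDerivAt_line ((hu.smooth t ht _ h2).differentiableAt (by simp))
    exact h4.sub h3
  have hline : Continuous fun v : ℝ => Q + h • e + v • n := by fun_prop
  have hWc : ContinuousOn
      (fun v : ℝ => u t (Rf e μ (Q + h • e + v • n)) - u t (Q + h • e + v • n)) (Icc vb h) := by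
    have h1 : ContinuousOn (fun v : ℝ => u t (Q + h • e + v • n)) (Icc vb h) :=
      (hu.continuousOn_space ht).comp hline.continuousOn
        (fun v hv => closure_mono inter_subset_left (hBcl v hv))
    have h2 : ContinuousOn (fun v : ℝ => u t (Rf e μ (Q + h • e + v • n))) (Icc vb h) :=
      (hu.continuousOn_space ht).comp ((continuous_Rf e μ).comp hline).continuousOn
        (fun v hv => hg.Rf_mem_closure he (hBcl v hv))
    exact h2.sub h1
  obtain ⟨ξ, hξ, hξ'⟩ := exists_hasDerivAt_eq_slope _ _ hvlt hWc hWd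
  have hξn : ‖Q + h • e + ξ • n - Q‖ ≤ 2 * h := hnormp e he ξ
    (abs_le.mpr ⟨by linarith [(abs_le.mp hvbh').1, hξ.1], hξ.2.le⟩)
  have hv1 := hvert _ (hBey ξ hξ.1 hξ.2.le) (by linarith)
  rw [hξ', div_le_iff₀ (by linarith)] at hv1
  have hv2 : ε / 16 * ‖Q + h • e + ξ • n - Q‖ * (h - vb) ≤ ε / 4 * h ^ 2 := by
    have h1 : h - vb ≤ 2 * h := by linarith [(abs_le.mp hvbh').1]
    calc ε / 16 * ‖Q + h • e + ξ • n - Q‖ * (h - vb)
        ≤ ε / 16 * (2 * h) * (2 * h) := by
          apply mul_le_mul _ h1 (by linarith) (by positivity)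
          exact mul_le_mul_of_nonneg_left hξn (by positivity)
      _ = ε / 4 * h ^ 2 := by ring
  rw [hu.boundary t ht _ hxbcl, sub_zero] at hv1
  -- the reflected boundary point
  have hRcl : Rf e μ (Q + h • e + vb • n) ∈ closure Ω :=
    hg.Rf_mem_closure he (hBcl vb ⟨le_rfl, hvlt.le⟩)
  rw [hRf h vb] at hRcl hv1
  have hρR : ρ (Q + h • (-e) + vb • n) ≤ 0 := hL.nonpos hO (hnormR _ hne1 vb hvbh') hRcl
  have hUR : u t (Q + h • (-e) + vb • n) ≤ K₁ * (-ρ (Q + h • (-e) + vb • n)) := by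
    obtain ⟨vm, hvm, hvm0⟩ : ∃ v ∈ Icc (-(k * h ^ 2)) vb, ρ (Q + h • (-e) + v • n) = 0 := by
      have := intermediate_value_Icc' hvb.1 (hcontp (-e) hne1 _ _ (by linarith) hvble)
      obtain ⟨v, hv, hv0⟩ := this ⟨hρR, (hlow (-e) hne1 hnen).le⟩
      exact ⟨v, hv, hv0⟩
    have hvmh : |vm| ≤ h := abs_le.mpr ⟨by linarith [hvm.1], by linarith [hvm.2]⟩
    have h1 := hslope (-e) hne1 vm vb hvmh hvbh' hvm.2
    rw [hvm0, sub_zero] at h1
    have hfm : Q + h • (-e) + vm • n ∈ frontier Ω :=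
      (hL.defining _ (hnormR _ hne1 vm hvmh)).mem_frontier hO hvm0
    rcases hvm.2.lt_or_eq with hlt | heq
    · have hneg' : ∀ v : ℝ, vm < v → v ≤ vb → Q + h • (-e) + v • n ∈ Ω := by
        intro v h3 h4
        have h5 : |v| ≤ h := abs_le.mpr ⟨by linarith [(abs_le.mp hvmh).1], by linarith⟩
        apply hin (-e) hne1 v h5
        have h6 := hslope (-e) hne1 vm v hvmh h5 h3.le
        rw [hvm0, sub_zero] at h6
        have h7 : 0 < a / 2 * (v - vm) := mul_pos (by positivity) (by linarith)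
        linarith
      have hd : ∀ v ∈ Ioo vm vb, HasDerivAt (fun v : ℝ => u t (Q + h • (-e) + v • n))
          ⟪G (t, Q + h • (-e) + v • n), n⟫ v := by
        intro v hv
        have h3 := hneg' v hv.1 hv.2.le
        rw [hG.inner_eq ht h3]
        exact hasDerivAt_line ((hu.smooth t ht _ h3).differentiableAt (by simp))
      have hline' : Continuous fun v : ℝ => Q + h • (-e) + v • n := by fun_prop
      have hcl' : ∀ v ∈ Icc vm vb, Q + h • (-e) + v • n ∈ closure Ω := by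
        intro v hv
        rcases hv.1.lt_or_eq with h3 | h3
        · exact subset_closure (hneg' v h3 hv.2)
        · rw [← h3]; exact frontier_subset_closure hfm
      obtain ⟨ζ, hζ, hζ'⟩ := exists_hasDerivAt_eq_slope _ _ hlt
        ((hu.continuousOn_space ht).comp hline'.continuousOn hcl') hd
      have h3 := hBn _ (hcl' ζ ⟨hζ.1.le, hζ.2.le⟩)
      rw [hζ', div_le_iff₀ (by linarith)] at h3
      simp only [Function.comp] at h3
      rw [hu.boundary t ht _ hfm, sub_zero] at h3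
      have h4 : B' * (vb - vm) ≤ K₁ * (-ρ (Q + h • (-e) + vb • n)) := by
        have h5 : vb - vm ≤ (2 / a) * (-ρ (Q + h • (-e) + vb • n)) := by
          have : (2 / a) * (a / 2 * (vb - vm)) = vb - vm := by field_simp
          rw [← this]
          exact mul_le_mul_of_nonneg_left (by linarith) (by positivity)
        calc B' * (vb - vm) ≤ B' * ((2 / a) * (-ρ (Q + h • (-e) + vb • n))) :=
              mul_le_mul_of_nonneg_left h5 hB'0
          _ = _ := by rw [hK₁]; ring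
      linarith
    · rw [heq] at hfm
      rw [hu.boundary t ht _ hfm]
      exact mul_nonneg hK₁0 (by linarith)
  have hodd1 := hodd' vb hvbh
  rw [hvb0] at hodd1
  have hfin : K₁ * (-ρ (Q + h • (-e) + vb • n)) ≤ ε / 4 * h ^ 2 := by
    calc K₁ * (-ρ (Q + h • (-e) + vb • n)) ≤ K₁ * (ε / (4 * (K₁ + 1)) * h ^ 2) :=
          mul_le_mul_of_nonneg_left (by linarith) hK₁0
      _ = (K₁ / (K₁ + 1)) * (ε / 4 * h ^ 2) := by field_simp
      _ ≤ 1 * (ε / 4 * h ^ 2) := by
        apply mul_le_mul_of_nonneg_right _ (by positivity)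
        rw [div_le_one (by positivity)]; linarith
      _ = ε / 4 * h ^ 2 := one_mul _
  have hcorner := H h ⟨hh0.le, hhη.le⟩
  rw [hsum] at hcorner
  have hpos : 0 < ε * h ^ 2 := by positivity
  linarith

end Pool.Agent.H43.Flux
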