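import Mathlib

/-!
Definitions for the heat equation with Dirichlet boundary condition: domains of class `C²`, outward
unit normals, the solution with initial temperature one, constant boundary flux.
-/

set_option autoImplicit false

namespace Pool.Agent.H43.Flux

open Set Filter Topology Laplacian ContDiff

variable {E : Type*} [NormedAddCommGroup E] [InnerProductSpace ℝ E] [FiniteDimensional ℝ E]

/-- `ρ` is a defining function of class `C²` of the open set `Ω` near the point `p`: it is of class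
`C²` near `p`, its derivative at `p` is not zero, and `Ω = {ρ < 0}` near `p`. -/
def IsDefiningAt (Ω : Set E) (p : E) (ρ : E → ℝ) : Prop :=
  ContDiffAt ℝ 2 ρ p ∧ fderiv ℝ ρ p ≠ 0 ∧ ∀ᶠ x in 𝓝 p, (x ∈ Ω ↔ ρ x < 0)

/-- `Ω` is a bounded domain (nonempty, open, connected) with boundary of class `C²`. -/
structure IsC2Domain (Ω : Set E) : Prop where
  isOpen : IsOpen Ω
  isConnected : IsConnected Ω
  isBounded : Bornology.IsBounded Ω
  boundary : ∀ p ∈ frontier Ω, ∃ ρ : E → ℝ, IsDefiningAt Ω p ρ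

/-- `ν` is the outward unit normal of `Ω` at the boundary point `p`: the normalised gradient at `p`
of a defining function. -/
def IsOuterNormal (Ω : Set E) (p ν : E) : Prop :=
  ∃ ρ : E → ℝ, IsDefiningAt Ω p ρ ∧ ν = ‖gradient ρ p‖⁻¹ • gradient ρ p

/-- `u t x` (`t` time, `x` space) is the solution of `∂ₜ u = Δ u` in `Ω × (0, ∞)`, `u = 0` on
`∂Ω × (0, ∞)`, `u = 1` on `Ω × {0}`: a classical solution with values in `[0, 1]`, smooth in
`(0, ∞) × Ω`, continuous together with its spatial gradient on `(0, ∞) × closure Ω`, with bounded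
time derivative away from `t = 0`, and `u t y → 1` as `(t, y) → (0, x)` with `t > 0`, for `x ∈ Ω`. -/
structure IsHeatSolution (Ω : Set E) (u : ℝ → E → ℝ) : Prop where
  contDiffAt : ∀ t > 0, ∀ x ∈ Ω, ContDiffAt ℝ ∞ (fun z : ℝ × E => u z.1 z.2) (t, x)
  heat : ∀ t > 0, ∀ x ∈ Ω, HasDerivAt (fun s => u s x) (Δ (u t) x) t
  continuousOn : ContinuousOn (fun z : ℝ × E => u z.1 z.2) (Ioi 0 ×ˢ closure Ω)
  gradient_ext : ∃ G : ℝ × E → E, ContinuousOn G (Ioi 0 ×ˢ closure Ω) ∧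
    ∀ t > 0, ∀ x ∈ Ω, G (t, x) = gradient (u t) x
  deriv_bounded : ∀ a > 0, ∃ C : ℝ, ∀ t ≥ a, ∀ x ∈ Ω, |Δ (u t) x| ≤ C
  boundary : ∀ t > 0, ∀ x ∈ frontier Ω, u t x = 0
  initial : ∀ x ∈ Ω, Tendsto (fun z : ℝ × E => u z.1 z.2) (𝓝[Ioi 0 ×ˢ Ω] (0, x)) (𝓝 1)
  mem_Icc : ∀ t > 0, ∀ x ∈ Ω, u t x ∈ Icc (0 : ℝ) 1

/-- The flux `∂_ν u(·, t)` exists and has one and the same value at all points of the boundary. -/
def HasConstantFlux (Ω : Set E) (u : ℝ → E → ℝ) (t : ℝ) : Prop :=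
  ∃ b : ℝ, ∀ p ∈ frontier Ω, ∀ ν : E, IsOuterNormal Ω p ν →
    HasDerivWithinAt (fun s : ℝ => u t (p + s • ν)) b (Iic 0) 0

end Pool.Agent.H43.Flux
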