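import Pool.Agent.H43.Heat6

/-!
Defining functions: interior balls, outer normals, the critical position of the moving plane.
-/

set_option autoImplicit false
set_option linter.unusedSectionVars false

namespace Pool.Agent.H43.Flux

open Set Filter Topology RealInnerProductSpace

variable {E : Type*} [NormedAddCommGroup E] [InnerProductSpace ℝ E] [FiniteDimensional ℝ E]
variable {Ω : Set E} {p : E} {ρ : E → ℝ}

lemma inner_gradient (φ : E → ℝ) (x v : E) : ⟪gradient φ x, v⟫ = fderiv ℝ φ x v := by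
  rw [gradient, InnerProductSpace.toDual_symm_apply]

namespace IsDefiningAt

lemma differentiableAt (h : IsDefiningAt Ω p ρ) : DifferentiableAt ℝ ρ p :=
  h.1.differentiableAt (by simp)

lemma gradient_ne (h : IsDefiningAt Ω p ρ) : gradient ρ p ≠ 0 := by
  intro h0
  apply h.2.1
  ext v
  rw [← inner_gradient, h0, inner_zero_left]; rfl

lemma eq_zero (h : IsDefiningAt Ω p ρ) (hΩ : IsOpen Ω) (hp : p ∈ frontier Ω) : ρ p = 0 := by
  have h1 : ¬ ρ p < 0 := by
    intro hlt
    have h2 : p ∈ Ω := h.2.2.self_of_nhds.mpr hlt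
    rw [hΩ.frontier_eq] at hp
    exact hp.2 h2
  by_contra hne
  have hpos : 0 < ρ p := lt_of_le_of_ne (not_lt.mp h1) (Ne.symm hne)
  have h3 : ∀ᶠ x in 𝓝 p, 0 < ρ x := h.1.continuousAt.eventually (lt_mem_nhds hpos)
  have h4 : ∀ᶠ x in 𝓝 p, x ∉ Ω := by
    filter_upwards [h3, h.2.2] with x hx hx' hxΩ
    exact absurd (hx'.mp hxΩ) (not_lt.mpr hx.le)
  have h5 := mem_closure_iff_frequently.mp (frontier_subset_closure hp)
  exact h5 h4

/-- Directions of decrease point into the domain. -/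
lemma eventually_mem (h : IsDefiningAt Ω p ρ) (h0 : ρ p = 0) {v : E} (hv : fderiv ℝ ρ p v < 0) :
    ∀ᶠ s : ℝ in 𝓝[>] 0, p + s • v ∈ Ω := by
  have h1 : HasDerivAt (fun s : ℝ => ρ (p + s • v)) (fderiv ℝ ρ p v) 0 := by
    have := hasDerivAt_line (φ := ρ) (x := p) (v := v) (s := 0) (by simpa using h.differentiableAt)
    simpa using this
  have h2 := (hasDerivAt_iff_tendsto_slope.mp h1).eventually (gt_mem_nhds hv)
  have h3 : ∀ᶠ s : ℝ in 𝓝[>] 0, slope (fun s : ℝ => ρ (p + s • v)) 0 s < 0 :=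
    h2.filter_mono (nhdsWithin_mono _ (fun y hy => ne_of_gt hy))
  have h4 : Tendsto (fun s : ℝ => p + s • v) (𝓝[>] 0) (𝓝 p) := by
    have : Continuous fun s : ℝ => p + s • v := by fun_prop
    have := this.tendsto 0
    simp only [zero_smul, add_zero] at this
    exact this.mono_left nhdsWithin_le_nhds
  filter_upwards [h3, h4.eventually h.2.2, self_mem_nhdsWithin] with s hs1 hs2 hs3
  rw [hs2]
  have hs3' : 0 < s := hs3
  rw [slope_def_field, sub_zero] at hs1
  simp only [zero_smul, add_zero, h0, sub_zero] at hs1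
  by_contra hcon
  push Not at hcon
  exact absurd hs1 (not_lt.mpr (div_nonneg hcon hs3'.le))

lemma mem_frontier (h : IsDefiningAt Ω p ρ) (hΩ : IsOpen Ω) (h0 : ρ p = 0) : p ∈ frontier Ω := by
  rw [hΩ.frontier_eq]
  constructor
  · have h1 : fderiv ℝ ρ p (-gradient ρ p) < 0 := by
      rw [map_neg, ← inner_gradient, real_inner_self_eq_norm_sq]
      have := norm_pos_iff.mpr h.gradient_ne
      have : 0 < ‖gradient ρ p‖ ^ 2 := by positivity
      linarith
    have h2 := h.eventually_mem h0 h1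
    have h4 : Tendsto (fun s : ℝ => p + s • (-gradient ρ p)) (𝓝[>] 0) (𝓝 p) := by
      have : Continuous fun s : ℝ => p + s • (-gradient ρ p) := by fun_prop
      have := this.tendsto 0
      simp only [zero_smul, add_zero] at this
      exact this.mono_left nhdsWithin_le_nhds
    exact mem_closure_of_tendsto h4 h2
  · intro hp
    have := h.2.2.self_of_nhds.mp hp
    rw [h0] at this
    exact lt_irrefl _ this

lemma eventually_defining (h : IsDefiningAt Ω p ρ) : ∀ᶠ x in 𝓝 p, IsDefiningAt Ω x ρ := by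
  have h1 : ContinuousAt (fderiv ℝ ρ) p :=
    (h.1.fderiv_right (m := 1) (by norm_num)).continuousAt
  have h2 : ∀ᶠ x in 𝓝 p, fderiv ℝ ρ x ≠ 0 := h1.eventually_ne h.2.1
  filter_upwards [h.1.eventually (by simp), h2, h.2.2.eventually_nhds] with x hx1 hx2 hx3
  exact ⟨hx1, hx2, hx3⟩

end IsDefiningAt

/-- Taylor bound of order two. -/
lemma taylor_two {φ : E → ℝ} {x₀ : E} (h : ContDiffAt ℝ 2 φ x₀) :
    ∃ M > 0, ∃ δ > 0, ∀ x, ‖x - x₀‖ < δ →
      |φ x - φ x₀ - fderiv ℝ φ x₀ (x - x₀)| ≤ M * ‖x - x₀‖ ^ 2 := by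
  have h1 : ∀ᶠ y in 𝓝 x₀, DifferentiableAt ℝ φ y := by
    filter_upwards [h.eventually (by simp)] with y hy
    exact hy.differentiableAt (by simp)
  have h3 : DifferentiableAt ℝ (fderiv ℝ φ) x₀ := by
    have := h.fderiv_right (m := 1) (by norm_num)
    exact this.differentiableAt (by simp)
  obtain ⟨M, hM0, hM⟩ := (h3.hasFDerivAt.isBigO_sub).exists_pos
  have h4 := hM.bound
  obtain ⟨δ, hδ0, hδ⟩ := Metric.eventually_nhds_iff.mp (h1.and h4)
  refine ⟨M, hM0, δ, hδ0, fun x hx => ?_⟩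
  have hball : ∀ y ∈ Metric.closedBall x₀ ‖x - x₀‖, dist y x₀ < δ := by
    intro y hy
    exact (Metric.mem_closedBall.mp hy).trans_lt hx
  have key := (convex_closedBall x₀ ‖x - x₀‖).norm_image_sub_le_of_norm_fderiv_le'
    (f := φ) (φ := fderiv ℝ φ x₀) (C := M * ‖x - x₀‖) (𝕜 := ℝ)
    (fun y hy => (hδ (hball y hy)).1)
    (fun y hy => ((hδ (hball y hy)).2).trans
      (mul_le_mul_of_nonneg_left (by rw [← dist_eq_norm]; exact Metric.mem_closedBall.mp hy) hM0.le))
    (x := x₀) (y := x) (Metric.mem_closedBall_self (norm_nonneg _))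
    (by rw [mem_closedBall_iff_norm])
  rw [Real.norm_eq_abs] at key
  calc _ ≤ _ := key
    _ = _ := by ring

/-- The unit normal given by a defining function. -/
noncomputable def nrm (ρ : E → ℝ) (p : E) : E := ‖gradient ρ p‖⁻¹ • gradient ρ p

lemma IsDefiningAt.norm_nrm (h : IsDefiningAt Ω p ρ) : ‖nrm ρ p‖ = 1 := by
  have := norm_pos_iff.mpr h.gradient_ne
  rw [nrm, norm_smul, norm_inv, norm_norm]
  field_simp

lemma IsDefiningAt.isOuterNormal (h : IsDefiningAt Ω p ρ) : IsOuterNormal Ω p (nrm ρ p) :=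
  ⟨ρ, h, rfl⟩

lemma IsDefiningAt.fderiv_apply (h : IsDefiningAt Ω p ρ) (v : E) :
    fderiv ℝ ρ p v = ‖gradient ρ p‖ * ⟪nrm ρ p, v⟫ := by
  have := norm_pos_iff.mpr h.gradient_ne
  rw [nrm, real_inner_smul_left, ← inner_gradient]
  field_simp

/-- Interior balls. -/
lemma IsDefiningAt.exists_ball (h : IsDefiningAt Ω p ρ) (h0 : ρ p = 0) {R : ℝ} (hR : 0 < R) :
    ∃ r > 0, r ≤ R ∧ Metric.ball (p + r • (-nrm ρ p)) r ⊆ Ω := by
  obtain ⟨M, hM0, δ, hδ0, hδ⟩ := taylor_two h.1
  obtain ⟨δ', hδ'0, hδ'⟩ := Metric.eventually_nhds_iff.mp h.2.2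
  set a := ‖gradient ρ p‖ with ha
  have ha0 : 0 < a := norm_pos_iff.mpr h.gradient_ne
  set r := min R (min (δ / 2) (min (δ' / 2) (a / (2 * M)))) with hr
  have hr0 : 0 < r := lt_min hR (lt_min (by positivity) (lt_min (by positivity) (by positivity)))
  have hrδ : r ≤ δ / 2 := (min_le_right _ _).trans (min_le_left _ _)
  have hrδ' : r ≤ δ' / 2 :=
    ((min_le_right _ _).trans (min_le_right _ _)).trans (min_le_left _ _)
  have hrM : r ≤ a / (2 * M) :=
    ((min_le_right _ _).trans (min_le_right _ _)).trans (min_le_right _ _)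
  refine ⟨r, hr0, min_le_left _ _, fun x hx => ?_⟩
  have hn : ‖-nrm ρ p‖ = 1 := by rw [norm_neg]; exact h.norm_nrm
  have hx1 := (mem_ball_iff_inner hr0 hn).mp hx
  have hxp : ‖x - p‖ < 2 * r := by
    rw [mem_ball_iff_norm] at hx
    have e1 : x - p = (x - (p + r • (-nrm ρ p))) + r • (-nrm ρ p) := by abel
    rw [e1]
    refine (norm_add_le _ _).trans_lt ?_
    rw [norm_smul, hn, Real.norm_eq_abs, abs_of_pos hr0, mul_one]
    linarith
  have h2 := hδ x (by linarith)
  rw [(hδ' (y := x) (by rw [dist_eq_norm]; linarith))]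
  rw [h0, sub_zero, h.fderiv_apply, ← ha] at h2
  have h3 := (abs_le.mp h2).2
  rw [inner_neg_right] at hx1
  rw [real_inner_comm] at h3
  have h4 : M * ‖x - p‖ ^ 2 < M * (2 * r * -⟪x - p, nrm ρ p⟫) :=
    mul_lt_mul_of_pos_left hx1 hM0
  have h5 : 0 < -⟪x - p, nrm ρ p⟫ := by
    have : 0 ≤ ‖x - p‖ ^ 2 := by positivity
    by_contra hcon
    push Not at hcon
    have := mul_nonpos_of_nonneg_of_nonpos (show 0 ≤ 2 * r by positivity) hcon
    linarith
  have h6 : 2 * M * r ≤ a := by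
    rw [le_div_iff₀ (by positivity)] at hrM
    linarith
  have h7 : 2 * M * r * -⟪x - p, nrm ρ p⟫ ≤ a * -⟪x - p, nrm ρ p⟫ :=
    mul_le_mul_of_nonneg_right h6 h5.le
  linarith

/-- Outer normals at points where a copy of the domain touches from inside. -/
lemma normal_unique {a b : E} (ha : ‖a‖ = 1) (hb : ‖b‖ = 1)
    (h : ∀ v, ⟪a, v⟫ < 0 → ⟪b, v⟫ ≤ 0) : b = a := by
  have h1 : ∀ ε > 0, 1 ≤ (⟪a, b⟫ + ε) * ⟪a, b⟫ := by
    intro ε hε
    have h2 := h (b - (⟪a, b⟫ + ε) • a) (by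
      rw [inner_sub_right, inner_smul_right, real_inner_self_eq_norm_sq, ha]
      linarith)
    rw [inner_sub_right, inner_smul_right, real_inner_self_eq_norm_sq, hb,
      real_inner_comm a b] at h2
    linarith
  have h3 : 0 ≤ ⟪a, b⟫ := by
    have h2 := h (-a) (by
      rw [inner_neg_right, real_inner_self_eq_norm_sq, ha]; norm_num)
    rw [inner_neg_right, real_inner_comm] at h2
    linarith
  have h4 : ⟪a, b⟫ ≤ 1 := by
    have := real_inner_le_norm a b
    rwa [ha, hb, mul_one] at this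
  have h5 : ⟪a, b⟫ = 1 := by
    apply le_antisymm h4
    by_contra hcon
    push Not at hcon
    have h6 := h1 (1 - ⟪a, b⟫) (by linarith)
    have : ⟪a, b⟫ + (1 - ⟪a, b⟫) = 1 := by ring
    rw [this, one_mul] at h6
    linarith
  exact ((inner_eq_one_iff_of_norm_eq_one ha hb).mp h5).symm

lemma Good.mono {e : E} {μ μ' : ℝ} (h : Good Ω e μ) (hμ : μ ≤ μ') : Good Ω e μ' :=
  fun x hx hx' s hs hs' => h x hx (lt_of_le_of_lt hμ hx') s hs (by linarith)

end Pool.Agent.H43.Flux
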