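import Pool.Agent.H43.Geo1

/-!
The critical position of the moving plane.
-/

set_option autoImplicit false
set_option linter.unusedSectionVars false

namespace Pool.Agent.H43.Flux

open Set Filter Topology RealInnerProductSpace

variable {E : Type*} [NormedAddCommGroup E] [InnerProductSpace ℝ E] [FiniteDimensional ℝ E]
variable {Ω : Set E}

/-- Beyond a good plane the outer normals do not point against `e`. -/
lemma Good.fderiv_nonneg {e : E} {μ : ℝ} (hg : Good Ω e μ) (hΩ : IsOpen Ω) (he : ‖e‖ = 1)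
    {x : E} {ρ : E → ℝ} (hρ : IsDefiningAt Ω x ρ) (hx : x ∈ frontier Ω) (hμ : μ ≤ ⟪x, e⟫) :
    0 ≤ fderiv ℝ ρ x e := by
  by_contra hcon
  push Not at hcon
  have h1 := hρ.eventually_mem (hρ.eq_zero hΩ hx) hcon
  obtain ⟨s, hs, hs0⟩ := (h1.and self_mem_nhdsWithin).exists
  have hs0' : 0 < s := hs0
  have h2 : ⟪x + s • e, e⟫ = ⟪x, e⟫ + s := by
    rw [inner_add_left, real_inner_smul_left, real_inner_self_eq_norm_sq, he]; ring
  have h3 := hg _ hs (by rw [h2]; linarith) s hs0'.le (by rw [h2]; linarith)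
  rw [add_sub_cancel_right] at h3
  rw [hΩ.frontier_eq] at hx
  exact hx.2 h3

/-- If the plane is not a good position, there is a point of `Ω` beyond it with a boundary point
on the way to the mirror image. -/
lemma exists_exit (hΩ : IsOpen Ω) {e : E} {μ : ℝ} (h : ¬ Good Ω e μ) :
    ∃ x ∈ Ω, μ < ⟪x, e⟫ ∧ ∃ s, 0 ≤ s ∧ s ≤ 2 * (⟪x, e⟫ - μ) ∧ x - s • e ∈ frontier Ω := by
  unfold Good at h
  push Not at h
  obtain ⟨x, hx, hxμ, s, hs0, hs, hsΩ⟩ := h
  refine ⟨x, hx, hxμ, ?_⟩
  -- the segment is connected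
  have hc : IsPreconnected ((fun r : ℝ => x - r • e) '' Icc 0 s) :=
    isPreconnected_Icc.image _ (by fun_prop)
  by_contra hcon
  push Not at hcon
  have h1 : (fun r : ℝ => x - r • e) '' Icc 0 s ⊆ Ω ∪ (closure Ω)ᶜ := by
    rintro y ⟨r, hr, rfl⟩
    by_cases hy : x - r • e ∈ Ω
    · exact Or.inl hy
    · right
      intro hcl
      exact hcon r hr.1 (hr.2.trans hs) (frontier_of_closure hΩ hcl hy)
  rcases hc.subset_or_subset hΩ isClosed_closure.isOpen_compl
    (disjoint_compl_right.mono_left subset_closure) h1 with h2 | h2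
  · exact hsΩ (h2 ⟨s, ⟨hs0, le_rfl⟩, rfl⟩)
  · have := h2 ⟨0, ⟨le_rfl, hs0⟩, rfl⟩
    simp only [zero_smul, sub_zero] at this
    exact this (subset_closure hx)

/-- The critical position of the moving plane. -/
theorem critical (hΩ : IsC2Domain Ω) {e : E} (he : ‖e‖ = 1) :
    ∃ μ, Good Ω e μ ∧ ((∃ P ∈ frontier Ω, μ < ⟪P, e⟫ ∧ Rf e μ P ∈ frontier Ω) ∨
      (∃ Q ∈ frontier Ω, ⟪Q, e⟫ = μ ∧ ∃ ρ, IsDefiningAt Ω Q ρ ∧ fderiv ℝ ρ Q e = 0)) := by
  have hO := hΩ.isOpen
  obtain ⟨M, hM⟩ := hΩ.isBounded.exists_norm_le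
  have hin : ∀ x ∈ Ω, |⟪x, e⟫| ≤ M := by
    intro x hx
    have := abs_real_inner_le_norm x e
    rw [he, mul_one] at this
    exact this.trans (hM x hx)
  obtain ⟨x₀, hx₀⟩ := hΩ.isConnected.nonempty
  set A : Set ℝ := {μ | Good Ω e μ} with hA
  have hne : A.Nonempty := ⟨M, fun x hx hx' => by
    have := (abs_le.mp (hin x hx)).2
    linarith⟩
  have hbdd : BddBelow A := by
    refine ⟨-M, fun μ hμ => ?_⟩
    by_contra hcon
    push Not at hcon
    have h1 := (abs_le.mp (hin x₀ hx₀)).1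
    have h2 := Good.Rf_mem hμ he (x := x₀) ⟨hx₀, by show μ < ⟪x₀, e⟫; linarith⟩
    have h3 := (abs_le.mp (hin _ h2)).1
    rw [inner_Rf he] at h3
    linarith
  set lam := sInf A with hlam
  have hgood : Good Ω e lam := by
    intro x hx hxl s hs0 hs
    have h1 : ∀ᶠ δ : ℝ in 𝓝[>] 0, x + δ • e ∈ Ω := by
      have hc : ContinuousAt (fun δ : ℝ => x + δ • e) 0 := by fun_prop
      have : Ω ∈ 𝓝 (x + (0 : ℝ) • e) := by simpa using hO.mem_nhds hx
      exact (hc.eventually this).filter_mono nhdsWithin_le_nhds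
    obtain ⟨δ, hδ, hδ0⟩ := (h1.and self_mem_nhdsWithin).exists
    have hδ0' : 0 < δ := hδ0
    obtain ⟨μ, hμ, hμl⟩ := exists_lt_of_csInf_lt hne (show sInf A < lam + δ / 2 by linarith)
    have h2 : ⟪x + δ • e, e⟫ = ⟪x, e⟫ + δ := by
      rw [inner_add_left, real_inner_smul_left, real_inner_self_eq_norm_sq, he]; ring
    have h3 := hμ (x + δ • e) hδ (by rw [h2]; linarith) (s + δ) (by linarith)
      (by rw [h2]; linarith)
    have h4 : x + δ • e - (s + δ) • e = x - s • e := by rw [add_smul]; abel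
    rwa [h4] at h3
  -- the exit points
  have hexit : ∀ k : ℕ, ∃ z : E × ℝ, z.1 ∈ Ω ∧ lam - 1 / ((k : ℝ) + 1) < ⟪z.1, e⟫ ∧ 0 ≤ z.2 ∧
      z.2 ≤ 2 * (⟪z.1, e⟫ - (lam - 1 / ((k : ℝ) + 1))) ∧ z.1 - z.2 • e ∈ frontier Ω := by
    intro k
    have hk : (0 : ℝ) < 1 / ((k : ℝ) + 1) := by positivity
    have h1 : ¬ Good Ω e (lam - 1 / ((k : ℝ) + 1)) := by
      intro hgk
      have := csInf_le hbdd (show lam - 1 / ((k : ℝ) + 1) ∈ A from hgk)
      linarith
    obtain ⟨x, hx, hx1, s, hs0, hs, hf⟩ := exists_exit hO h1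
    exact ⟨(x, s), hx, hx1, hs0, hs, hf⟩
  choose z hz1 hz2 hz3 hz4 hz5 using hexit
  have hcomp : IsCompact (closure Ω ×ˢ Icc (0 : ℝ) (2 * (M - lam + 1))) :=
    hΩ.isBounded.isCompact_closure.prod isCompact_Icc
  have hzmem : ∀ k, z k ∈ closure Ω ×ˢ Icc (0 : ℝ) (2 * (M - lam + 1)) := by
    intro k
    refine ⟨subset_closure (hz1 k), hz3 k, (hz4 k).trans ?_⟩
    have h1 := (abs_le.mp (hin _ (hz1 k))).2
    have h2 : 1 / ((k : ℝ) + 1) ≤ 1 := by
      rw [div_le_one (by positivity)]; linarith [Nat.cast_nonneg (α := ℝ) k]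
    linarith
  obtain ⟨⟨x, s⟩, ⟨hxcl, hs0, _⟩, φ, hφ, hlim⟩ := hcomp.tendsto_subseq hzmem
  simp only at hxcl hs0
  have hlim1 : Tendsto (fun k => (z (φ k)).1) atTop (𝓝 x) :=
    (continuous_fst.tendsto (x, s)).comp hlim
  have hlim2 : Tendsto (fun k => (z (φ k)).2) atTop (𝓝 s) :=
    (continuous_snd.tendsto (x, s)).comp hlim
  have hlim3 : Tendsto (fun k => (z (φ k)).1 - (z (φ k)).2 • e) atTop (𝓝 (x - s • e)) :=
    hlim1.sub (hlim2.smul_const e)
  have hlim4 : Tendsto (fun k => ⟪(z (φ k)).1, e⟫) atTop (𝓝 ⟪x, e⟫) :=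
    ((show Continuous fun y : E => ⟪y, e⟫ by fun_prop).tendsto x).comp hlim1
  have hlim5 : Tendsto (fun k => lam - 1 / ((φ k : ℝ) + 1)) atTop (𝓝 lam) := by
    have h1 := (tendsto_one_div_add_atTop_nhds_zero_nat (𝕜 := ℝ)).comp hφ.tendsto_atTop
    simpa using h1.const_sub lam
  have hy : x - s • e ∈ frontier Ω :=
    isClosed_frontier.mem_of_tendsto hlim3 (Eventually.of_forall fun k => hz5 (φ k))
  have hxl : lam ≤ ⟪x, e⟫ :=
    le_of_tendsto_of_tendsto' hlim5 hlim4 fun k => (hz2 (φ k)).le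
  have hsl : s ≤ 2 * (⟪x, e⟫ - lam) :=
    le_of_tendsto_of_tendsto' hlim2 ((hlim4.sub hlim5).const_mul 2) fun k => hz4 (φ k)
  have hyΩ : x - s • e ∉ Ω := by
    rw [hO.frontier_eq] at hy; exact hy.2
  have hxΩ : x ∉ Ω := by
    intro hx
    rcases hxl.lt_or_eq with h1 | h1
    · exact hyΩ (hgood x hx h1 s hs0 hsl)
    · have : s = 0 := by rw [← h1] at hsl; linarith
      rw [this, zero_smul, sub_zero] at hyΩ
      exact hyΩ hx
  have hxf : x ∈ frontier Ω := frontier_of_closure hO hxcl hxΩ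
  obtain ⟨ρ, hρ⟩ := hΩ.boundary x hxf
  have hD := hgood.fderiv_nonneg hO he hρ hxf hxl
  rcases hD.lt_or_eq with hD | hD
  swap
  · exact ⟨⟪x, e⟫, hgood.mono hxl, Or.inr ⟨x, hxf, rfl, ρ, hρ, hD.symm⟩⟩
  · -- the normal has a positive component
    rcases hs0.lt_or_eq with hs | hs
    · rcases hsl.lt_or_eq with h1 | h1
      · exfalso
        have h2 : fderiv ℝ ρ x (-e) < 0 := by rw [map_neg]; linarith
        have h3 := hρ.eventually_mem (hρ.eq_zero hO hxf) h2
        obtain ⟨r, hr, hr'⟩ := (h3.and (Ioo_mem_nhdsGT (show 0 < min s (2 * (⟪x, e⟫ - lam) - s) from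
          lt_min hs (by linarith)))).exists
        have hr0 := hr'.1
        have hrs : r < s := hr'.2.trans_le (min_le_left _ _)
        have hrl : r < 2 * (⟪x, e⟫ - lam) - s := hr'.2.trans_le (min_le_right _ _)
        have h4 : ⟪x + r • -e, e⟫ = ⟪x, e⟫ - r := by
          rw [inner_add_left, real_inner_smul_left, inner_neg_left, real_inner_self_eq_norm_sq, he]
          ring
        have h5 := hgood _ hr (by rw [h4]; linarith) (s - r) (by linarith)
          (by rw [h4]; linarith)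
        have h6 : x + r • -e - (s - r) • e = x - s • e := by
          rw [sub_smul, smul_neg]; abel
        rw [h6] at h5
        exact hyΩ h5
      · refine ⟨lam, hgood, Or.inl ⟨x, hxf, by linarith, ?_⟩⟩
        rw [Rf_apply he, ← h1]
        exact hy
    · -- both sequences tend to `x`
      exfalso
      have hc : ContinuousAt (fun y => fderiv ℝ ρ y e) x := by
        have h1 : ContinuousAt (fderiv ℝ ρ) x :=
          (hρ.1.fderiv_right (m := 1) (by norm_num)).continuousAt
        exact h1.clm_apply continuousAt_const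
      have h1 : ∀ᶠ y in 𝓝 x, 0 < fderiv ℝ ρ y e := hc.eventually (lt_mem_nhds hD)
      obtain ⟨r, hr0, hr⟩ := Metric.eventually_nhds_iff.mp (h1.and hρ.eventually_defining)
      rw [← hs, zero_smul, sub_zero] at hlim3
      have h2 : ∀ᶠ k in atTop, dist (z (φ k)).1 x < r :=
        (Metric.tendsto_nhds.mp hlim1) r hr0
      have h3 : ∀ᶠ k in atTop, dist ((z (φ k)).1 - (z (φ k)).2 • e) x < r :=
        (Metric.tendsto_nhds.mp hlim3) r hr0
      obtain ⟨k, hk1, hk2⟩ := (h2.and h3).exists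
      set y := (z (φ k)).1 with hyd
      set σ := (z (φ k)).2 with hσ
      have hyk : y ∈ Ω := hz1 (φ k)
      have hσ0 : 0 ≤ σ := hz3 (φ k)
      have hyf : y - σ • e ∈ frontier Ω := hz5 (φ k)
      have hball : ∀ τ ∈ Icc (0 : ℝ) σ, dist (y - τ • e) x < r := by
        intro τ hτ
        rcases hσ0.lt_or_eq with hσ1 | hσ1
        · have hconv := (convex_ball x r) (Metric.mem_ball.mpr hk2) (Metric.mem_ball.mpr hk1)
            (show 0 ≤ τ / σ by exact div_nonneg hτ.1 hσ0)
            (show 0 ≤ 1 - τ / σ by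
              have : τ / σ ≤ 1 := by rw [div_le_one hσ1]; exact hτ.2
              linarith) (by ring)
          have e1 : (τ / σ) • (y - σ • e) + (1 - τ / σ) • y = y - τ • e := by
            rw [smul_sub, smul_smul, div_mul_cancel₀ _ hσ1.ne', sub_smul, one_smul]
            abel
          rw [e1] at hconv
          exact Metric.mem_ball.mp hconv
        · have : τ = 0 := le_antisymm (by rw [hσ1]; exact hτ.2) hτ.1
          rw [this, zero_smul, sub_zero]
          exact hk1
      have hmono : MonotoneOn (fun τ : ℝ => -ρ (y - τ • e)) (Icc 0 σ) := by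
        apply monotoneOn_of_deriv_nonneg (convex_Icc 0 σ)
        · intro τ hτ
          have hd := (hr (hball τ hτ)).2.differentiableAt
          have h4 : ContinuousAt (fun τ : ℝ => y - τ • e) τ := by fun_prop
          exact (ContinuousAt.comp (f := fun τ : ℝ => y - τ • e) hd.continuousAt
            h4).neg.continuousWithinAt
        · intro τ hτ
          rw [interior_Icc] at hτ
          have hd := (hr (hball τ ⟨hτ.1.le, hτ.2.le⟩)).2.differentiableAt
          have h4 : HasDerivAt (fun τ : ℝ => y - τ • e) (-e) τ := by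
            simpa using ((hasDerivAt_id τ).smul_const e).const_sub y
          exact (hd.hasFDerivAt.comp_hasDerivAt τ h4).neg.differentiableAt.differentiableWithinAt
        · intro τ hτ
          rw [interior_Icc] at hτ
          have hd := (hr (hball τ ⟨hτ.1.le, hτ.2.le⟩)).2.differentiableAt
          have h4 : HasDerivAt (fun τ : ℝ => y - τ • e) (-e) τ := by
            simpa using ((hasDerivAt_id τ).smul_const e).const_sub y
          have h5 := (hd.hasFDerivAt.comp_hasDerivAt τ h4).neg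
          have h6 : deriv (fun τ : ℝ => -ρ (y - τ • e)) τ =
              -(fderiv ℝ ρ (y - τ • e) (-e)) := h5.deriv
          rw [h6, map_neg, neg_neg]
          exact (hr (hball τ ⟨hτ.1.le, hτ.2.le⟩)).1.le
      have h4 := hmono ⟨le_rfl, hσ0⟩ ⟨hσ0, le_rfl⟩ hσ0
      simp only [zero_smul, sub_zero] at h4
      have h5 : ρ y < 0 := by
        have := (hr hk1).2.2.2.self_of_nhds
        exact this.mp hyk
      have h6 : ρ (y - σ • e) < 0 := by linarith
      have h7 := (hr hk2).2.2.2.self_of_nhds.mpr h6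
      rw [hO.frontier_eq] at hyf
      exact hyf.2 h7

end Pool.Agent.H43.Flux
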