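import Pool.Agent.H43.Geo2

/-!
At the critical position the difference of the reflected solution and the solution vanishes
somewhere: tangency inside the cap, and orthogonality.
-/

set_option autoImplicit false
set_option linter.unusedSectionVars false

namespace Pool.Agent.H43.Flux

open Set Filter Topology RealInnerProductSpace

variable {E : Type*} [NormedAddCommGroup E] [InnerProductSpace ℝ E] [FiniteDimensional ℝ E]
variable {Ω : Set E} {u : ℝ → E → ℝ}

lemma refl_refl (e v : E) : refl e (refl e v) = v := Submodule.reflection_reflection _ v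

lemma inner_refl_left (e v w : E) : ⟪refl e v, w⟫ = ⟪v, refl e w⟫ := by
  rw [← refl_refl e w, LinearIsometryEquiv.inner_map_map, refl_refl]

lemma deriv_le_of_growth {g : ℝ → ℝ} {b ε η₀ : ℝ} (h : HasDerivWithinAt g b (Iic 0) 0)
    (h0 : g 0 = 0) (hη₀ : 0 < η₀) (H : ∀ η ∈ Icc 0 η₀, ε * η ≤ g (-η)) : b ≤ -ε := by
  have h1 : HasDerivWithinAt g b (Iio 0) 0 := h.mono Iio_subset_Iic_self
  rw [hasDerivWithinAt_iff_tendsto_slope' (by simp)] at h1
  refine le_of_tendsto h1 ?_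
  filter_upwards [Ioo_mem_nhdsLT (show -η₀ < 0 by linarith)] with s hs
  rw [slope_def_field, h0, sub_zero, sub_zero, div_le_iff_of_neg hs.2]
  have := H (-s) ⟨by linarith [hs.2], by linarith [hs.1]⟩
  rw [neg_neg] at this
  linarith

lemma IsDefiningAt.eventually_not_mem {p : E} {ρ : E → ℝ} (h : IsDefiningAt Ω p ρ)
    (h0 : ρ p = 0) {v : E} (hv : 0 < fderiv ℝ ρ p v) : ∀ᶠ s : ℝ in 𝓝[>] 0, p + s • v ∉ Ω := by
  have h1 : HasDerivAt (fun s : ℝ => ρ (p + s • v)) (fderiv ℝ ρ p v) 0 := by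
    have := hasDerivAt_line (φ := ρ) (x := p) (v := v) (s := 0) (by simpa using h.differentiableAt)
    simpa using this
  have h2 := (hasDerivAt_iff_tendsto_slope.mp h1).eventually (lt_mem_nhds hv)
  have h3 : ∀ᶠ s : ℝ in 𝓝[>] 0, 0 < slope (fun s : ℝ => ρ (p + s • v)) 0 s :=
    h2.filter_mono (nhdsWithin_mono _ (fun y hy => ne_of_gt hy))
  have h4 : Tendsto (fun s : ℝ => p + s • v) (𝓝[>] 0) (𝓝 p) := by
    have : Continuous fun s : ℝ => p + s • v := by fun_prop
    have := this.tendsto 0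
    simp only [zero_smul, add_zero] at this
    exact this.mono_left nhdsWithin_le_nhds
  filter_upwards [h3, h4.eventually h.2.2, self_mem_nhdsWithin] with s hs1 hs2 hs3
  rw [hs2]
  have hs3' : 0 < s := hs3
  rw [slope_def_field, sub_zero] at hs1
  simp only [zero_smul, add_zero, h0, sub_zero] at hs1
  intro hcon
  exact absurd hs1 (not_lt.mpr (div_nonpos_of_nonpos_of_nonneg hcon.le hs3'.le))

/-- **Case (a)**: tangency at a point beyond the plane. -/
theorem case_a (hΩ : IsC2Domain Ω) (hu : IsHeatSolution Ω u) {e : E} (he : ‖e‖ = 1) {μ : ℝ}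
    (hg : Good Ω e μ) {P : E} (hP : P ∈ frontier Ω) (hPμ : μ < ⟪P, e⟫)
    (hRP : Rf e μ P ∈ frontier Ω) {t : ℝ} (ht : 0 < t) (hflux : HasConstantFlux Ω u t) :
    (ZeroSet (Beyond Ω e μ) (fun t x => u t (Rf e μ x) - u t x) t).Nonempty := by
  have hO := hΩ.isOpen
  obtain ⟨ρ, hρ⟩ := hΩ.boundary P hP
  obtain ⟨ρ', hρ'⟩ := hΩ.boundary _ hRP
  have hρ0 := hρ.eq_zero hO hP
  have hρ'0 := hρ'.eq_zero hO hRP
  have hνn := hρ.norm_nrm
  have hν'n := hρ'.norm_nrm
  -- the normals correspond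
  have hν' : nrm ρ' (Rf e μ P) = refl e (nrm ρ P) := by
    apply normal_unique (by rw [LinearIsometryEquiv.norm_map]; exact hνn) hν'n
    intro v hv
    rw [inner_refl_left] at hv
    by_contra hcon
    push Not at hcon
    have h1 : fderiv ℝ ρ P (refl e v) < 0 := by
      rw [hρ.fderiv_apply]
      exact mul_neg_of_pos_of_neg (norm_pos_iff.mpr hρ.gradient_ne) hv
    have h2 : 0 < fderiv ℝ ρ' (Rf e μ P) v := by
      rw [hρ'.fderiv_apply]
      exact mul_pos (norm_pos_iff.mpr hρ'.gradient_ne) hcon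
    have h3 := hρ.eventually_mem hρ0 h1
    have h4 := hρ'.eventually_not_mem hρ'0 h2
    have h5 : ∀ᶠ s : ℝ in 𝓝[>] 0, μ < ⟪P + s • refl e v, e⟫ := by
      have hc : ContinuousAt (fun s : ℝ => ⟪P + s • refl e v, e⟫) 0 := by fun_prop
      exact (hc.eventually (lt_mem_nhds (by simpa using hPμ))).filter_mono nhdsWithin_le_nhds
    obtain ⟨s, hs1, hs2, hs3⟩ := (h3.and (h4.and h5)).exists
    apply hs2
    have h6 := hg.Rf_mem he (x := P + s • refl e v) ⟨hs1, hs3⟩
    rw [Rf_add, map_smul, refl_refl] at h6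
    exact h6
  -- the interior ball
  obtain ⟨r, hr0, hrR, hball⟩ := hρ.exists_ball hρ0 (R := (⟪P, e⟫ - μ) / 2) (by linarith)
  have hn : ‖-nrm ρ P‖ = 1 := by rw [norm_neg]; exact hνn
  have hballB : Metric.ball (P + r • (-nrm ρ P)) r ⊆ Beyond Ω e μ := by
    intro x hx
    refine ⟨hball hx, ?_⟩
    show μ < ⟪x, e⟫
    rw [mem_ball_iff_norm] at hx
    have h1 : ‖P - x‖ < 2 * r := by
      have e1 : P - x = -(x - (P + r • (-nrm ρ P))) - r • (-nrm ρ P) := by abel
      rw [e1]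
      refine (norm_sub_le _ _).trans_lt ?_
      rw [norm_neg, norm_smul, hn, Real.norm_eq_abs, abs_of_pos hr0, mul_one]
      linarith
    have h2 : ⟪P - x, e⟫ ≤ ‖P - x‖ := by
      have := real_inner_le_norm (P - x) e
      rwa [he, mul_one] at this
    rw [inner_sub_left] at h2
    linarith
  have hcen : P + r • (-nrm ρ P) ∈ Metric.ball (P + r • (-nrm ρ P)) r := Metric.mem_ball_self hr0
  have hw := hu.nonnegHeat_diff hO hΩ.isBounded hg he
  rcases hw.dich (T := t) (convex_ball _ _).isPreconnected hballB with hcase | hcase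
  swap
  · exact ⟨_, hcase hcen⟩
  exfalso
  obtain ⟨_, s₁, hs₁, hs₁t, hw₁⟩ := hcase hcen
  obtain ⟨ε, hε0, η₀, hη₀, H⟩ := hw.hopf_ball hr0 hn hballB hs₁ hcen hw₁ hs₁t
  obtain ⟨b, hb⟩ := hflux
  have d1 := hb P hP _ hρ.isOuterNormal
  have d2 := hb _ hRP _ hρ'.isOuterNormal
  rw [hν'] at d2
  have d3 := d2.sub d1
  have e1 : ((fun s : ℝ => u t (Rf e μ P + s • refl e (nrm ρ P))) - fun s : ℝ => u t (P + s • nrm ρ P))
      = fun s : ℝ => u t (Rf e μ (P + s • nrm ρ P)) - u t (P + s • nrm ρ P) := by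
    funext s
    simp only [Pi.sub_apply]
    rw [Rf_add, map_smul]
  have d4 : HasDerivWithinAt (fun s : ℝ => u t (Rf e μ (P + s • nrm ρ P)) - u t (P + s • nrm ρ P))
      (b - b) (Iic 0) 0 := by
    rw [← e1]; exact d3
  have h0 : (fun s : ℝ => u t (Rf e μ (P + s • nrm ρ P)) - u t (P + s • nrm ρ P)) 0 = 0 := by
    simp only [zero_smul, add_zero]
    rw [hu.boundary t ht _ hRP, hu.boundary t ht _ hP, sub_zero]
  have := deriv_le_of_growth d4 h0 hη₀ (fun η hη => by
    have := H η hη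
    simp only [neg_smul]
    rw [smul_neg] at this
    exact this)
  linarith

/-- Lagrange multipliers on the zero set of a defining function. -/
lemma lagrange {Q : E} {ρ : E → ℝ} (hρ : IsDefiningAt Ω Q ρ) {φ : E → ℝ}
    {φ' : E →L[ℝ] ℝ} (hφ : HasStrictFDerivAt φ φ' Q)
    (hext : IsLocalExtrOn φ {x | ρ x = ρ Q} Q) : ∃ c : ℝ, φ' = c • fderiv ℝ ρ Q := by
  have hst : HasStrictFDerivAt ρ (fderiv ℝ ρ Q) Q :=
    hρ.1.hasStrictFDerivAt (by simp)
  obtain ⟨a, c, hne, heq⟩ := hext.exists_multipliers_of_hasStrictFDerivAt_1d hst hφ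
  have hc0 : c ≠ 0 := by
    intro hc0
    rw [hc0, zero_smul, add_zero] at heq
    have ha0 : a ≠ 0 := by
      intro ha0
      exact hne (by rw [ha0, hc0]; rfl)
    exact hρ.2.1 ((smul_eq_zero.mp heq).resolve_left ha0)
  refine ⟨-(a / c), ?_⟩
  have h1 : c • φ' = -(a • fderiv ℝ ρ Q) := by
    rw [eq_neg_iff_add_eq_zero, add_comm]; exact heq
  have h2 : φ' = c⁻¹ • (c • φ') := by rw [smul_smul, inv_mul_cancel₀ hc0, one_smul]
  rw [h2, h1, smul_neg, smul_smul, neg_smul]
  congr 2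
  field_simp

end Pool.Agent.H43.Flux
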