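import Pool.Agent.H43.Cor8

/-!
Symmetry of the domain, and domains which are symmetric in all directions.
-/

set_option autoImplicit false
set_option linter.unusedSectionVars false

namespace Pool.Agent.H43.Flux

open Set Filter Topology RealInnerProductSpace MeasureTheory

variable {E : Type*} [NormedAddCommGroup E] [InnerProductSpace ℝ E] [FiniteDimensional ℝ E]
variable {Ω : Set E} {u : ℝ → E → ℝ}

/-- If the difference vanishes somewhere, the domain is symmetric. -/
theorem symm_of_zero (hΩ : IsOpen Ω) (hc : IsPreconnected Ω) (hb : Bornology.IsBounded Ω)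
    (hu : IsHeatSolution Ω u) {e : E} (he : ‖e‖ = 1) {μ : ℝ} (hg : Good Ω e μ) {t : ℝ}
    (ht : 0 < t)
    (hZ : (ZeroSet (Beyond Ω e μ) (fun t x => u t (Rf e μ x) - u t x) t).Nonempty) :
    ∀ x ∈ Ω, Rf e μ x ∈ Ω := by
  set w : ℝ → E → ℝ := fun t x => u t (Rf e μ x) - u t x with hwdef
  have hw : NonnegHeat (Beyond Ω e μ) w := hu.nonnegHeat_diff hΩ hb hg he
  set Z := ZeroSet (Beyond Ω e μ) w t with hZdef
  have hZo : IsOpen Z := hw.isOpen_zero
  have hZB : Z ⊆ Beyond Ω e μ := fun x hx => hx.1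
  have hPZ : ∀ x ∈ Beyond Ω e μ, x ∈ closure Z → x ∈ Z := by
    intro x hx hxcl
    rcases hw.dich (T := t) (C := {x}) isPreconnected_singleton (singleton_subset_iff.mpr hx)
      with h1 | h1
    · exfalso
      have h2 := h1 (mem_singleton x)
      obtain ⟨y, hy1, hy2⟩ := mem_closure_iff.mp hxcl _ hw.isOpen_pos h2
      obtain ⟨_, s, hs, hst, hws⟩ := hy1
      have := hy2.2 s hs hst
      rw [this] at hws
      exact lt_irrefl _ hws
    · exact h1 (mem_singleton x)
  have hwcl : ∀ x ∈ closure Z, w (t / 2) x = 0 := by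
    intro x hx
    have h1 : ContinuousOn (w (t / 2)) (closure (Beyond Ω e μ)) := by
      have h2 : ContinuousOn (fun y : E => ((t / 2, y) : ℝ × E)) (closure (Beyond Ω e μ)) := by
        fun_prop
      exact hw.cont.comp h2 fun y hy => ⟨by show 0 < t / 2; positivity, hy⟩
    have h2 : ContinuousWithinAt (w (t / 2)) Z x :=
      (h1 x (closure_mono hZB hx)).mono (hZB.trans subset_closure)
    have h3 : w (t / 2) x ∈ closure ({0} : Set ℝ) :=
      h2.mem_closure hx (fun y hy => by
        show w (t / 2) y = 0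
        exact hy.2 (t / 2) (by positivity) (by linarith))
    simpa using h3
  set V : Set E := Z ∪ (Rf e μ ⁻¹' Z) ∪ (Ω ∩ closure Z ∩ {x | ⟪x, e⟫ = μ}) with hV
  have hVR : ∀ x ∈ V, Rf e μ x ∈ Ω := by
    rintro x ((hx | hx) | hx)
    · exact hg.Rf_mem he (hZB hx)
    · exact (hZB hx).1
    · rw [Rf_eq_self he hx.2]; exact hx.1.1
  have hVo : IsOpen V := by
    rw [isOpen_iff_mem_nhds]
    rintro x ((hx | hx) | hx)
    · exact mem_of_superset (hZo.mem_nhds hx) (fun y hy => Or.inl (Or.inl hy))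
    · exact mem_of_superset ((hZo.preimage (continuous_Rf e μ)).mem_nhds hx)
        (fun y hy => Or.inl (Or.inr hy))
    · obtain ⟨⟨hxΩ, hxcl⟩, hxμ⟩ := hx
      have hxμ' : ⟪x, e⟫ = μ := hxμ
      obtain ⟨r, hr0, hr⟩ := Metric.isOpen_iff.mp hΩ x hxΩ
      set H : Set E := Metric.ball x r ∩ {y | μ < ⟪y, e⟫} with hH
      have hHconv : Convex ℝ H := by
        refine (convex_ball _ _).inter ?_
        have h1 : IsLinearMap ℝ fun x : E => ⟪x, e⟫ :=
          ⟨fun x y => inner_add_left _ _ _, fun c x => real_inner_smul_left _ _ _⟩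
        exact convex_halfSpace_gt h1 μ
      have hHB : H ⊆ Beyond Ω e μ := fun y hy => ⟨hr hy.1, hy.2⟩
      obtain ⟨z, hz1, hz2⟩ := mem_closure_iff.mp hxcl _ Metric.isOpen_ball
        (Metric.mem_ball_self hr0)
      have hzH : z ∈ H := ⟨hz1, (hZB hz2).2⟩
      have hHZ : H ⊆ Z := by
        rcases hw.dich (T := t) hHconv.isPreconnected hHB with h1 | h1
        · exfalso
          obtain ⟨_, s, hs, hst, hws⟩ := h1 hzH
          have := hz2.2 s hs hst
          rw [this] at hws
          exact lt_irrefl _ hws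
        · exact h1
      refine mem_of_superset (Metric.ball_mem_nhds x hr0) ?_
      intro y hy
      rcases lt_trichotomy μ ⟪y, e⟫ with h1 | h1 | h1
      · exact Or.inl (Or.inl (hHZ ⟨hy, h1⟩))
      · right
        refine ⟨⟨hr hy, ?_⟩, h1.symm⟩
        have hyr : 0 < r - ‖y - x‖ := by
          rw [mem_ball_iff_norm] at hy; linarith
        refine mem_closure_half he hyr (fun y' hy' hy'μ => hHZ ⟨?_, hy'μ⟩) h1.le
        rw [mem_ball_iff_norm]
        have : y' - x = (y' - y) + (y - x) := by abel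
        rw [this]
        exact (norm_add_le _ _).trans_lt (by linarith)
      · left; right
        show Rf e μ y ∈ Z
        apply hHZ
        constructor
        · rw [mem_ball_iff_norm] at hy ⊢
          have : Rf e μ y - x = Rf e μ y - Rf e μ x := by rw [Rf_eq_self he hxμ' (x := x)]
          rw [this, norm_Rf_sub]
          exact hy
        · show μ < ⟪Rf e μ y, e⟫
          rw [inner_Rf he]; linarith
  have hVne : (Ω ∩ V).Nonempty := by
    obtain ⟨z, hz⟩ := hZ
    exact ⟨z, (hZB hz).1, Or.inl (Or.inl hz)⟩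
  have hclZ : ∀ x ∈ Ω, x ∈ closure Z → x ∈ V := by
    intro x hx hxcl
    rcases (le_of_mem_closure_beyond (closure_mono hZB hxcl)).lt_or_eq with h1 | h1
    · exact Or.inl (Or.inl (hPZ x ⟨hx, h1⟩ hxcl))
    · exact Or.inr ⟨⟨hx, hxcl⟩, h1.symm⟩
  have hsub : Ω ⊆ V := by
    refine hc.subset_of_closure_inter_subset hVo hVne ?_
    rintro x ⟨hxcl, hxΩ⟩
    rw [hV, closure_union, closure_union] at hxcl
    rcases hxcl with (hxcl | hxcl) | hxcl
    · exact hclZ x hxΩ hxcl
    · have h1 : Rf e μ x ∈ closure Z :=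
        map_mem_closure (continuous_Rf e μ) hxcl fun y hy => hy
      by_cases hRx : Rf e μ x ∈ Ω
      · rcases (le_of_mem_closure_beyond (closure_mono hZB h1)).lt_or_eq with h2 | h2
        · exact Or.inl (Or.inr (hPZ _ ⟨hRx, h2⟩ h1))
        · have h3 : ⟪x, e⟫ = μ := by rw [inner_Rf he] at h2; linarith
          rw [Rf_eq_self he h3] at h1
          exact hclZ x hxΩ h1
      · exfalso
        have h2 : Rf e μ x ∈ closure Ω :=
          closure_mono (hZB.trans inter_subset_left) h1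
        have h3 : Rf e μ x ∈ frontier Ω := frontier_of_closure hΩ h2 hRx
        have h4 := hwcl _ h1
        rw [hwdef] at h4
        simp only at h4
        rw [Rf_Rf he, hu.boundary (t / 2) (by positivity) _ h3, sub_zero] at h4
        have h5 := hu.pos hΩ (t := t / 2) (by positivity) hxΩ
        rw [h4] at h5
        exact lt_irrefl _ h5
    · have h1 : x ∈ closure Z :=
        closure_minimal (fun y hy => hy.1.2) isClosed_closure hxcl
      exact hclZ x hxΩ h1
  exact fun x hx => hVR x (hsub hx)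

/-! ### Domains with mirror symmetry in all directions -/

section Ball

variable [MeasurableSpace E] [BorelSpace E]

lemma measurePreserving_Rf (e : E) (μ : ℝ) :
    MeasurePreserving (Rf e μ) (volume : Measure E) volume :=
  (measurePreserving_add_right volume ((2 * μ) • e)).comp (refl e).measurePreserving

lemma measurableEmbedding_Rf {e : E} (he : ‖e‖ = 1) (μ : ℝ) : MeasurableEmbedding (Rf e μ) := by
  let h : E ≃ₜ E :=
    { toFun := Rf e μ
      invFun := Rf e μ
      left_inv := Rf_Rf he μ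
      right_inv := Rf_Rf he μ
      continuous_toFun := continuous_Rf e μ
      continuous_invFun := continuous_Rf e μ }
  exact h.measurableEmbedding

/-- The barycentre lies on every plane of symmetry. -/
lemma inner_barycentre (hΩ : IsOpen Ω) (hne : Ω.Nonempty) (hb : Bornology.IsBounded Ω) {e : E}
    (he : ‖e‖ = 1) {μ : ℝ} (hs : ∀ x ∈ Ω, Rf e μ x ∈ Ω) :
    ⟪((volume Ω).toReal)⁻¹ • ∫ x in Ω, x, e⟫ = μ := by
  have hpre : Rf e μ ⁻¹' Ω = Ω := by
    ext x
    constructor
    · intro hx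
      have := hs _ hx
      rwa [Rf_Rf he] at this
    · exact fun hx => hs x hx
  have hvol : volume Ω ≠ ⊤ := hb.measure_lt_top.ne
  have hvol0 : (volume Ω).toReal ≠ 0 :=
    (ENNReal.toReal_pos (hΩ.measure_pos volume hne).ne' hvol).ne'
  have hint : IntegrableOn (fun x : E => x) Ω := by
    obtain ⟨M, hM⟩ := hb.exists_norm_le
    refine Measure.integrableOn_of_bounded (M := M) hvol
      (continuous_id.aestronglyMeasurable) ?_
    exact (ae_restrict_iff' hΩ.measurableSet).mpr (Eventually.of_forall fun x hx => hM x hx)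
  have hint' : IntegrableOn (fun x : E => ⟪x, e⟫) Ω := hint.inner_const e
  have h1 : ∫ x in Ω, ⟪Rf e μ x, e⟫ = ∫ x in Ω, ⟪x, e⟫ := by
    have := (measurePreserving_Rf e μ).setIntegral_preimage_emb (measurableEmbedding_Rf he μ)
      (fun x => ⟪x, e⟫) Ω
    rwa [hpre] at this
  have h2 : ∫ x in Ω, ⟪Rf e μ x, e⟫ = (2 * μ) * (volume Ω).toReal - ∫ x in Ω, ⟪x, e⟫ := by
    have e1 : (fun x : E => ⟪Rf e μ x, e⟫) = fun x => 2 * μ - ⟪x, e⟫ := by
      funext x; rw [inner_Rf he]
    have hc : IntegrableOn (fun _ : E => 2 * μ) Ω := integrableOn_const hvol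
    rw [e1, integral_sub hc hint', setIntegral_const, smul_eq_mul, mul_comm]
    rfl
  have h3 : ⟪∫ x in Ω, x, e⟫ = ∫ x in Ω, ⟪x, e⟫ := by
    rw [real_inner_comm]
    rw [← integral_inner hint]
    congr 1
    funext x
    exact real_inner_comm _ _
  rw [real_inner_smul_left, h3]
  have h4 : ∫ x in Ω, ⟪x, e⟫ = μ * (volume Ω).toReal := by linarith
  rw [h4]
  field_simp

/-- A bounded domain which is symmetric, in the strong sense, in all directions is a ball. -/
theorem ball_of_symm (hΩ : IsOpen Ω) (hne : Ω.Nonempty) (hb : Bornology.IsBounded Ω)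
    (h : ∀ e : E, ‖e‖ = 1 → ∃ μ, Good Ω e μ ∧ ∀ x ∈ Ω, Rf e μ x ∈ Ω) :
    ∃ c : E, ∃ r : ℝ, 0 < r ∧ Ω = Metric.ball c r := by
  obtain ⟨O, hO⟩ : ∃ O : E, O = ((volume Ω).toReal)⁻¹ • ∫ x in Ω, x := ⟨_, rfl⟩
  have hsym : ∀ e : E, ‖e‖ = 1 → Good Ω e ⟪O, e⟫ ∧ ∀ x ∈ Ω, Rf e ⟪O, e⟫ x ∈ Ω := by
    intro e he
    obtain ⟨μ, h1, h2⟩ := h e he
    have h3 := inner_barycentre hΩ hne hb he h2
    rw [← hO] at h3
    rw [h3]
    exact ⟨h1, h2⟩
  -- rotation invariance
  have hrot : ∀ x ∈ Ω, ∀ y, ‖y - O‖ = ‖x - O‖ → y ∈ Ω := by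
    intro x hx y hy
    by_cases hxy : x = y
    · rw [← hxy]; exact hx
    · have hd : ‖x - y‖ ≠ 0 := norm_ne_zero_iff.mpr (sub_ne_zero.mpr hxy)
      set e : E := ‖x - y‖⁻¹ • (x - y) with he
      have he1 : ‖e‖ = 1 := by
        rw [he, norm_smul, norm_inv, norm_norm]; field_simp
      have h1 := (hsym e he1).2 x hx
      rw [Rf_apply he1, ← inner_sub_left] at h1
      have h2 : 2 * ⟪x - O, x - y⟫ = ‖x - y‖ ^ 2 := by
        have e1 : x - y = (x - O) - (y - O) := by abel
        have e2 : ‖x - y‖ ^ 2 = ‖x - O‖ ^ 2 - 2 * ⟪x - O, y - O⟫ + ‖y - O‖ ^ 2 := by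
          rw [e1, norm_sub_sq_real]
        rw [e2, hy, e1, inner_sub_right, real_inner_self_eq_norm_sq]
        ring
      have h3 : (2 * ⟪x - O, e⟫) • e = x - y := by
        rw [he, inner_smul_right, smul_smul]
        have : 2 * (‖x - y‖⁻¹ * ⟪x - O, x - y⟫) * ‖x - y‖⁻¹ = 1 := by
          have : 2 * (‖x - y‖⁻¹ * ⟪x - O, x - y⟫) * ‖x - y‖⁻¹ =
            (2 * ⟪x - O, x - y⟫) * (‖x - y‖⁻¹ * ‖x - y‖⁻¹) := by ring
          rw [this, h2]; field_simp
        rw [this, one_smul]
      rw [h3] at h1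
      have : x - (x - y) = y := by abel
      rwa [this] at h1
  -- star shape
  have hstar : ∀ x ∈ Ω, ∀ y, ‖y - O‖ ≤ ‖x - O‖ → y ∈ Ω := by
    intro x hx y hy
    by_cases hxO : ‖x - O‖ = 0
    · apply hrot x hx y
      apply le_antisymm hy
      rw [hxO]; exact norm_nonneg _
    · have hpos : 0 < ‖x - O‖ := lt_of_le_of_ne (norm_nonneg _) (Ne.symm hxO)
      -- a unit vector in the direction of `y - O`
      obtain ⟨θ, hθ, hyθ⟩ : ∃ θ : E, ‖θ‖ = 1 ∧ y - O = ‖y - O‖ • θ := by
        by_cases hyO : ‖y - O‖ = 0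
        · refine ⟨‖x - O‖⁻¹ • (x - O), ?_, ?_⟩
          · rw [norm_smul, norm_inv, norm_norm]; field_simp
          · rw [hyO, zero_smul]; exact norm_eq_zero.mp hyO
        · refine ⟨‖y - O‖⁻¹ • (y - O), ?_, ?_⟩
          · rw [norm_smul, norm_inv, norm_norm]; field_simp
          · rw [smul_smul, mul_inv_cancel₀ hyO, one_smul]
      have hz : O + ‖x - O‖ • θ ∈ Ω := by
        apply hrot x hx
        rw [add_sub_cancel_left, norm_smul, hθ, norm_norm, mul_one]
      have hin : ⟪O + ‖x - O‖ • θ, θ⟫ = ⟪O, θ⟫ + ‖x - O‖ := by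
        rw [inner_add_left, real_inner_smul_left, real_inner_self_eq_norm_sq, hθ]; ring
      have h1 := (hsym θ hθ).1 _ hz (by rw [hin]; linarith) (‖x - O‖ - ‖y - O‖) (by linarith)
        (by rw [hin]; linarith [norm_nonneg (y - O)])
      have h2 : O + ‖x - O‖ • θ - (‖x - O‖ - ‖y - O‖) • θ = O + ‖y - O‖ • θ := by
        rw [sub_smul]; abel
      have h3 : O + (y - O) = y := by abel
      rwa [h2, ← hyθ, h3] at h1
  -- the radius
  obtain ⟨M, hM⟩ := hb.exists_norm_le
  set S : Set ℝ := (fun x => ‖x - O‖) '' Ω with hS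
  have hSne : S.Nonempty := hne.image _
  have hSb : BddAbove S := by
    refine ⟨M + ‖O‖, ?_⟩
    rintro _ ⟨x, hx, rfl⟩
    exact (norm_sub_le _ _).trans (by linarith [hM x hx])
  have hle : ∀ x ∈ Ω, ‖x - O‖ ≤ sSup S := fun x hx => le_csSup hSb ⟨x, hx, rfl⟩
  by_cases hR : 0 < sSup S
  · refine ⟨O, sSup S, hR, Subset.antisymm ?_ ?_⟩
    · intro x hx
      rw [mem_ball_iff_norm]
      by_cases hxO : ‖x - O‖ = 0
      · rw [hxO]; exact hR
      · obtain ⟨ε, hε0, hε⟩ := Metric.isOpen_iff.mp hΩ x hx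
        have hpos : 0 < ‖x - O‖ := lt_of_le_of_ne (norm_nonneg _) (Ne.symm hxO)
        have h1 : x + (ε / 2) • (‖x - O‖⁻¹ • (x - O)) ∈ Ω := by
          apply hε
          rw [mem_ball_iff_norm, add_sub_cancel_left, norm_smul, norm_smul, norm_inv, norm_norm,
            inv_mul_cancel₀ hxO, mul_one, Real.norm_eq_abs, abs_of_pos (by positivity)]
          linarith
        have h2 := hle _ h1
        have h3 : x + (ε / 2) • (‖x - O‖⁻¹ • (x - O)) - O =
            (1 + (ε / 2) * ‖x - O‖⁻¹) • (x - O) := by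
          rw [add_smul, one_smul, mul_smul]; abel
        rw [h3, norm_smul, Real.norm_eq_abs, abs_of_pos (by positivity), add_mul, one_mul,
          mul_assoc, inv_mul_cancel₀ hxO, mul_one] at h2
        linarith
    · intro y hy
      rw [mem_ball_iff_norm] at hy
      obtain ⟨_, ⟨x, hx, rfl⟩, hlt⟩ := exists_lt_of_lt_csSup hSne hy
      exact hstar x hx y hlt.le
  · have hsing : ∀ x ∈ Ω, x = O := by
      intro x hx
      have h1 := hle x hx
      have h2 : ‖x - O‖ = 0 := le_antisymm (by linarith) (norm_nonneg _)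
      exact sub_eq_zero.mp (norm_eq_zero.mp h2)
    obtain ⟨x₀, hx₀⟩ := hne
    have hO' : O ∈ Ω := by rw [← hsing x₀ hx₀]; exact hx₀
    obtain ⟨ε, hε0, hε⟩ := Metric.isOpen_iff.mp hΩ O hO'
    refine ⟨O, ε, hε0, Subset.antisymm ?_ hε⟩
    intro x hx
    rw [hsing x hx]
    exact Metric.mem_ball_self hε0

end Ball

/-- **One time suffices.** A bounded domain of class `C²` whose solution of the heat equation with
initial temperature one has constant flux at one time is a ball. -/
theorem one_time [MeasurableSpace E] [BorelSpace E] (hΩ : IsC2Domain Ω)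
    (hu : IsHeatSolution Ω u) {t : ℝ} (ht : 0 < t) (hflux : HasConstantFlux Ω u t) :
    ∃ c : E, ∃ r : ℝ, 0 < r ∧ Ω = Metric.ball c r := by
  refine ball_of_symm hΩ.isOpen hΩ.isConnected.nonempty hΩ.isBounded fun e he => ?_
  obtain ⟨μ, hg, hcase⟩ := critical hΩ he
  refine ⟨μ, hg, ?_⟩
  apply symm_of_zero hΩ.isOpen hΩ.isConnected.isPreconnected hΩ.isBounded hu he hg ht
  rcases hcase with ⟨P, hP, hPμ, hRP⟩ | ⟨Q, hQ, hQμ, ρ, hρ, hρe⟩
  · exact case_a hΩ hu he hg hP hPμ hRP ht hflux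
  · exact case_b' hΩ hu he hg hQ hQμ hρ hρe ht hflux

end Pool.Agent.H43.Flux
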