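import Mathlib

/-!
Second derivatives along lines, the Laplacian, and the weak maximum principle for the heat operator.
-/

set_option autoImplicit false
set_option linter.unusedSectionVars false

namespace Pool.Agent.H43.Flux

open Set Filter Topology Laplacian

variable {E : Type*} [NormedAddCommGroup E] [InnerProductSpace ℝ E] [FiniteDimensional ℝ E]

/-- Line derivative near a point of smoothness. -/
lemma hasDerivAt_line {φ : E → ℝ} {x v : E} {s : ℝ} (h : DifferentiableAt ℝ φ (x + s • v)) :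
    HasDerivAt (fun s : ℝ => φ (x + s • v)) (fderiv ℝ φ (x + s • v) v) s := by
  have h1 : HasDerivAt (fun s : ℝ => x + s • v) v s := by
    simpa using ((hasDerivAt_id s).smul_const v).const_add x
  exact h.hasFDerivAt.comp_hasDerivAt s h1

/-- The second derivative along a line. -/
lemma deriv_deriv_line {φ : E → ℝ} {x v : E} (h : ContDiffAt ℝ 2 φ x) :
    deriv (deriv fun s : ℝ => φ (x + s • v)) 0 = iteratedFDeriv ℝ 2 φ x ![v, v] := by
  have h1 : ∀ᶠ y in 𝓝 x, DifferentiableAt ℝ φ y := by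
    filter_upwards [h.eventually (by simp)] with y hy
    exact hy.differentiableAt (by simp)
  have hc : Tendsto (fun s : ℝ => x + s • v) (𝓝 0) (𝓝 x) := by
    have : Continuous fun s : ℝ => x + s • v := by fun_prop
    simpa using this.tendsto 0
  have h2 : deriv (fun s : ℝ => φ (x + s • v)) =ᶠ[𝓝 0] fun s => fderiv ℝ φ (x + s • v) v := by
    filter_upwards [hc.eventually h1] with s hs
    exact (hasDerivAt_line hs).deriv
  rw [h2.deriv_eq]
  have h3 : DifferentiableAt ℝ (fderiv ℝ φ) x := by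
    have := h.fderiv_right (m := 1) (by norm_num)
    exact this.differentiableAt (by simp)
  have h4 : HasDerivAt (fun s : ℝ => fderiv ℝ φ (x + s • v) v) (fderiv ℝ (fderiv ℝ φ) x v v) 0 := by
    have h5 : HasDerivAt (fun s : ℝ => x + s • v) v 0 := by
      simpa using ((hasDerivAt_id (0 : ℝ)).smul_const v).const_add x
    have h6 : HasFDerivAt (fderiv ℝ φ) (fderiv ℝ (fderiv ℝ φ) x) (x + (0 : ℝ) • v) := by
      simpa using h3.hasFDerivAt
    have h7 : HasDerivAt (fun s : ℝ => fderiv ℝ φ (x + s • v)) (fderiv ℝ (fderiv ℝ φ) x v) 0 :=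
      h6.comp_hasDerivAt (0 : ℝ) h5
    exact (ContinuousLinearMap.apply ℝ ℝ v).hasFDerivAt.comp_hasDerivAt (0 : ℝ) h7
  rw [h4.deriv, iteratedFDeriv_two_apply]
  simp

/-- The Laplacian as a sum of second derivatives along the lines of an orthonormal basis. -/
lemma laplacian_eq_sum {ι : Type*} [Fintype ι] (b : OrthonormalBasis ι ℝ E) {φ : E → ℝ} {x : E}
    (h : ContDiffAt ℝ 2 φ x) :
    Δ φ x = ∑ i, deriv (deriv fun s : ℝ => φ (x + s • b i)) 0 := by
  rw [InnerProductSpace.laplacian_eq_iteratedFDeriv_orthonormalBasis φ b]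
  exact Finset.sum_congr rfl fun i _ => (deriv_deriv_line h).symm

/-- Second derivative test, necessary condition. -/
lemma deriv_deriv_nonneg_of_isLocalMin {g : ℝ → ℝ} (hmin : IsLocalMin g 0)
    (hc : ContinuousAt g 0) : 0 ≤ deriv (deriv g) 0 := by
  by_contra hneg
  push Not at hneg
  have hmax := isLocalMax_of_deriv_deriv_neg hneg hmin.deriv_eq_zero hc
  have heq : g =ᶠ[𝓝 0] fun _ => g 0 := by
    filter_upwards [hmin, hmax] with s h1 h2
    exact le_antisymm h2 h1
  have h1 : deriv g =ᶠ[𝓝 0] deriv (fun _ => g 0) := heq.deriv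
  rw [h1.deriv_eq] at hneg
  simp at hneg

lemma laplacian_nonneg_of_isLocalMin {φ : E → ℝ} {x : E} (h : ContDiffAt ℝ 2 φ x)
    (hmin : IsLocalMin φ x) : 0 ≤ Δ φ x := by
  rw [laplacian_eq_sum (stdOrthonormalBasis ℝ E) h]
  refine Finset.sum_nonneg fun i _ => ?_
  have hc : Continuous fun s : ℝ => x + s • (stdOrthonormalBasis ℝ E) i := by fun_prop
  apply deriv_deriv_nonneg_of_isLocalMin
  · have : Tendsto (fun s : ℝ => x + s • (stdOrthonormalBasis ℝ E) i) (𝓝 0) (𝓝 x) := by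
      simpa using hc.tendsto 0
    have h2 := this.eventually hmin
    show ∀ᶠ s in 𝓝 (0 : ℝ), _
    filter_upwards [h2] with s hs
    simpa using hs
  · have h3 : ContinuousAt φ (x + (0 : ℝ) • (stdOrthonormalBasis ℝ E) i) := by
      simpa using h.continuousAt
    exact ContinuousAt.comp (f := fun s : ℝ => x + s • (stdOrthonormalBasis ℝ E) i) h3
      hc.continuousAt

/-- If `f` has derivative `a` at `t` and `f s ≥ f t + δ (t - s)` for `s < t` near `t`, then
`a ≤ - δ`. -/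
lemma deriv_le_of_left {f : ℝ → ℝ} {a t δ : ℝ} (h : HasDerivAt f a t)
    (hs : ∀ᶠ s in 𝓝[<] t, f t + δ * (t - s) ≤ f s) : a ≤ -δ := by
  have h1 : Tendsto (slope f t) (𝓝[<] t) (𝓝 a) :=
    (hasDerivAt_iff_tendsto_slope.mp h).mono_left (nhdsWithin_mono _ (by
      intro y hy; exact ne_of_lt hy))
  refine le_of_tendsto h1 ?_
  filter_upwards [hs, self_mem_nhdsWithin] with s h2 (h3 : s < t)
  rw [slope_def_field, div_le_iff_of_neg (by linarith)]
  linarith

/-- **Weak maximum principle** on a compact set. -/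
theorem weak_max {K : Set (ℝ × E)} (hK : IsCompact K) {f : ℝ → E → ℝ}
    (hc : ContinuousOn (fun z : ℝ × E => f z.1 z.2) K)
    (h : ∀ t x, (t, x) ∈ K → f t x < 0 →
      (∀ᶠ y in 𝓝 x, (t, y) ∈ K) ∧ (∀ᶠ s in 𝓝[<] t, (s, x) ∈ K) ∧
        ContDiffAt ℝ 2 (f t) x ∧ ∃ a, HasDerivAt (fun s => f s x) a t ∧ Δ (f t) x ≤ a) :
    ∀ t x, (t, x) ∈ K → 0 ≤ f t x := by
  intro t₀ x₀ h₀
  by_contra hneg
  push Not at hneg
  obtain ⟨R, hR⟩ : ∃ R : ℝ, ∀ z ∈ K, |z.1| ≤ R := by
    obtain ⟨R, hR⟩ := hK.isBounded.exists_norm_le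
    exact ⟨R, fun z hz => (norm_fst_le z).trans (hR z hz)⟩
  have hR0 : 0 ≤ R := (abs_nonneg _).trans (hR _ h₀)
  set δ : ℝ := -f t₀ x₀ / (2 * (2 * R + 1)) with hδ
  have hδ0 : 0 < δ := by
    rw [hδ]; apply div_pos (by linarith) (by linarith)
  have hδ1 : δ * (2 * R) < -f t₀ x₀ := by
    have h1 : δ * (2 * (2 * R + 1)) = -f t₀ x₀ := by
      rw [hδ]; field_simp
    nlinarith
  -- minimum of `g = f + δ (t + R)`
  obtain ⟨z₁, hz₁, hmin⟩ := hK.exists_isMinOn ⟨_, h₀⟩
    (f := fun z : ℝ × E => f z.1 z.2 + δ * (z.1 + R)) (hc.add (by fun_prop))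
  obtain ⟨t₁, x₁⟩ := z₁
  have hmin' : ∀ t x, (t, x) ∈ K → f t₁ x₁ + δ * (t₁ + R) ≤ f t x + δ * (t + R) :=
    fun t x htx => hmin htx
  have ht₁ := abs_le.mp (hR _ hz₁)
  have ht₀ := abs_le.mp (hR _ h₀)
  simp only at ht₁ ht₀
  have hf₁ : f t₁ x₁ < 0 := by
    have h1 := hmin' _ _ h₀
    have h2 : 0 ≤ δ * (t₁ + R) := mul_nonneg hδ0.le (by linarith)
    have h3 : δ * (t₀ + R) ≤ δ * (2 * R) := mul_le_mul_of_nonneg_left (by linarith) hδ0.le
    linarith
  obtain ⟨hsp, hti, hcd, a, ha, hla⟩ := h t₁ x₁ hz₁ hf₁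
  have hloc : IsLocalMin (f t₁) x₁ := by
    filter_upwards [hsp] with y hy
    have := hmin' _ _ hy
    linarith
  have h1 := laplacian_nonneg_of_isLocalMin hcd hloc
  have h2 : a ≤ -δ := by
    apply deriv_le_of_left ha
    filter_upwards [hti] with s hs
    have := hmin' _ _ hs
    linarith
  linarith

/-- **Weak maximum principle** on a cylinder, with initial values in the sense of a lower limit. -/
theorem cylinder_max {D : Set E} (hD : IsOpen D) (hb : Bornology.IsBounded D) {T : ℝ}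
    {f : ℝ → E → ℝ} (hc : ContinuousOn (fun z : ℝ × E => f z.1 z.2) (Ioc 0 T ×ˢ closure D))
    (hin : ∀ t ∈ Ioc 0 T, ∀ x ∈ D, ContDiffAt ℝ 2 (f t) x ∧
      ∃ a, HasDerivAt (fun s => f s x) a t ∧ Δ (f t) x ≤ a)
    (hbd : ∀ t ∈ Ioc 0 T, ∀ x ∈ frontier D, 0 ≤ f t x)
    (hini : ∀ x ∈ closure D, ∀ ε > 0, ∀ᶠ z in 𝓝 ((0 : ℝ), x), 0 < z.1 → z.2 ∈ closure D →
      -ε < f z.1 z.2) :
    ∀ t ∈ Ioc 0 T, ∀ x ∈ closure D, 0 ≤ f t x := by
  intro t ht x hx
  refine le_of_forall_pos_lt_add fun ε hε => ?_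
  have hcomp : IsCompact (closure D) := hb.isCompact_closure
  have h1 : ∀ᶠ s in 𝓝 (0 : ℝ), ∀ y ∈ closure D, 0 < s → y ∈ closure D → -(ε / 2) < f s y :=
    hcomp.eventually_forall_of_forall_eventually fun y hy => hini y hy (ε / 2) (by positivity)
  obtain ⟨η, hη, hη'⟩ := Metric.eventually_nhds_iff.mp h1
  -- choose an initial time
  set τ : ℝ := min (η / 2) t with hτ
  have hτ0 : 0 < τ := lt_min (by positivity) ht.1
  have hτt : τ ≤ t := min_le_right _ _
  have hτη : τ < η := (min_le_left _ _).trans_lt (by linarith)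
  have hstart : ∀ y ∈ closure D, -(ε / 2) < f τ y := by
    intro y hy
    refine hη' (y := τ) ?_ y hy hτ0 hy
    rw [Real.dist_eq, sub_zero, abs_of_pos hτ0]; exact hτη
  have hK : IsCompact (Icc τ t ×ˢ closure D) := isCompact_Icc.prod hcomp
  have hsub : Icc τ t ×ˢ closure D ⊆ Ioc 0 T ×ˢ closure D := by
    rintro ⟨s, y⟩ ⟨hs, hy⟩
    exact ⟨⟨hτ0.trans_le hs.1, hs.2.trans ht.2⟩, hy⟩
  have key := weak_max (f := fun s y => f s y + ε / 2) hK
    ((hc.mono hsub).add continuousOn_const) ?_ t x ⟨⟨hτt, le_rfl⟩, hx⟩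
  · linarith
  · rintro s y ⟨hs, hy⟩ hneg
    simp only at hneg hs hy
    have hs0 : 0 < s := hτ0.trans_le hs.1
    have hsT : s ∈ Ioc 0 T := ⟨hs0, hs.2.trans ht.2⟩
    have hyD : y ∈ D := by
      by_contra hyD
      have : y ∈ frontier D := by
        rw [hD.frontier_eq]; exact ⟨hy, hyD⟩
      have := hbd s hsT y this
      linarith
    have hsτ : τ < s := by
      rcases hs.1.lt_or_eq with h | h
      · exact h
      · exfalso
        rw [← h] at hneg
        have := hstart y hy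
        linarith
    obtain ⟨hcd, a, ha, hla⟩ := hin s hsT y hyD
    refine ⟨?_, ?_, hcd.add contDiffAt_const, a, ha.add_const _, ?_⟩
    · filter_upwards [hD.mem_nhds hyD] with y' hy'
      exact ⟨⟨hsτ.le, hs.2⟩, subset_closure hy'⟩
    · filter_upwards [Ioo_mem_nhdsLT hsτ] with s' hs'
      exact ⟨⟨hs'.1.le, hs'.2.le.trans hs.2⟩, hy⟩
    · have h2 : Δ (fun y => f s y + ε / 2) y = Δ (f s) y := by
        have h3 := hcd.laplacian_add (contDiffAt_const (c := ε / 2) (x := y) (n := 2) (𝕜 := ℝ))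
        have h4 : Δ (fun _ : E => ε / 2) y = 0 := by
          rw [InnerProductSpace.laplacian_const]; rfl
        rw [h4, add_zero] at h3
        exact h3
      rw [h2]; exact hla

end Pool.Agent.H43.Flux
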