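import Pool.Agent.H43.Heat1

/-!
Barriers for the heat operator: comparison on compact sets, spreading of positivity, and the
boundary point lemma (with a linear weight, which also gives the corner lemma).
-/

set_option autoImplicit false
set_option linter.unusedSectionVars false

namespace Pool.Agent.H43.Flux

open Set Filter Topology Laplacian RealInnerProductSpace

variable {E : Type*} [NormedAddCommGroup E] [InnerProductSpace ℝ E] [FiniteDimensional ℝ E]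

/-- `w` is a supersolution of the heat equation at `(t, x)`. -/
def SuperAt (w : ℝ → E → ℝ) (t : ℝ) (x : E) : Prop :=
  ContDiffAt ℝ 2 (w t) x ∧ ∃ a, HasDerivAt (fun s => w s x) a t ∧ Δ (w t) x ≤ a

/-- Comparison on a compact set. -/
theorem compare {K : Set (ℝ × E)} (hK : IsCompact K) {w z : ℝ → E → ℝ}
    (hw : ContinuousOn (fun y : ℝ × E => w y.1 y.2) K)
    (hz : Continuous fun y : ℝ × E => z y.1 y.2)
    (h : ∀ t x, (t, x) ∈ K → w t x < z t x →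
      (∀ᶠ y in 𝓝 x, (t, y) ∈ K) ∧ (∀ᶠ s in 𝓝[<] t, (s, x) ∈ K) ∧ SuperAt w t x ∧
        ContDiffAt ℝ 2 (z t) x ∧ ∃ a, HasDerivAt (fun s => z s x) a t ∧ a ≤ Δ (z t) x) :
    ∀ t x, (t, x) ∈ K → z t x ≤ w t x := by
  intro t x htx
  have key := weak_max (f := fun s y => w s y - z s y) hK (hw.sub hz.continuousOn) ?_ t x htx
  · linarith
  intro s y hsy hneg
  obtain ⟨h1, h2, ⟨h3, a, h4, h5⟩, h6, a', h7, h8⟩ := h s y hsy (by linarith)
  refine ⟨h1, h2, h3.sub h6, a - a', h4.sub h7, ?_⟩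
  have h9 : Δ (fun y => w s y - z s y) y = Δ (w s) y - Δ (z s) y := by
    have h10 := h3.laplacian_add h6.neg
    have h11 : Δ (-(z s)) y = -Δ (z s) y := by
      rw [InnerProductSpace.laplacian_neg]; rfl
    have h12 : (fun y => w s y - z s y) = w s + -(z s) := by
      funext y; simp [sub_eq_add_neg]
    rw [h12]
    have h13 : Δ (w s + -(z s)) y = Δ (w s) y + Δ (-(z s)) y := h10
    rw [h13, h11]; ring
  rw [h9]; linarith

lemma dd_poly (a₀ a₁ a₂ a₃ a₄ : ℝ) :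
    deriv (deriv fun s : ℝ => a₀ + a₁ * s + a₂ * s ^ 2 + a₃ * s ^ 3 + a₄ * s ^ 4) 0 = 2 * a₂ := by
  have h1 : deriv (fun s : ℝ => a₀ + a₁ * s + a₂ * s ^ 2 + a₃ * s ^ 3 + a₄ * s ^ 4) =
      fun s => a₁ + 2 * a₂ * s + 3 * a₃ * s ^ 2 + 4 * a₄ * s ^ 3 := by
    funext s
    apply HasDerivAt.deriv
    have h := (((((hasDerivAt_const s a₀).add ((hasDerivAt_id s).const_mul a₁)).add
      ((hasDerivAt_pow 2 s).const_mul a₂)).add ((hasDerivAt_pow 3 s).const_mul a₃)).add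
      ((hasDerivAt_pow 4 s).const_mul a₄))
    exact h.congr_deriv (by push_cast; simp; ring)
  rw [h1]
  apply HasDerivAt.deriv
  have h := (((hasDerivAt_const (0 : ℝ) a₁).add ((hasDerivAt_id (0 : ℝ)).const_mul (2 * a₂))).add
      ((hasDerivAt_pow 2 (0 : ℝ)).const_mul (3 * a₃))).add
      ((hasDerivAt_pow 3 (0 : ℝ)).const_mul (4 * a₄))
  exact h.congr_deriv (by simp)

lemma norm_sq_line (x p v : E) (hv : ‖v‖ = 1) (s : ℝ) :
    ‖x + s • v - p‖ ^ 2 = ‖x - p‖ ^ 2 + 2 * ⟪x - p, v⟫ * s + s ^ 2 := by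
  have h1 : x + s • v - p = (x - p) + s • v := by abel
  rw [h1, norm_add_sq_real, inner_smul_right, norm_smul, hv, Real.norm_eq_abs, mul_one, sq_abs]
  ring

lemma inner_line (x p v n : E) (s : ℝ) :
    ⟪x + s • v - p, n⟫ = ⟪x - p, n⟫ + ⟪v, n⟫ * s := by
  have h1 : x + s • v - p = (x - p) + s • v := by abel
  rw [h1, inner_add_left, real_inner_smul_left]
  ring

/-- Laplacian of the barrier in the boundary point lemma. -/
lemma laplacian_barrier (p n g : E) (ℓ₀ K B c : ℝ) (hn : ‖n‖ = 1) (hgn : ⟪g, n⟫ = 0) (x : E) :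
    Δ (fun x : E => (ℓ₀ + ⟪x - p, g⟫) * (⟪x - p, n⟫ - B * ‖x - p‖ ^ 2 + K * ⟪x - p, n⟫ ^ 2 - c)) x =
      (ℓ₀ + ⟪x - p, g⟫) * (2 * K - 2 * Module.finrank ℝ E * B) - 4 * B * ⟪x - p, g⟫ := by
  have hcd : ContDiffAt ℝ 2
      (fun x : E => (ℓ₀ + ⟪x - p, g⟫) * (⟪x - p, n⟫ - B * ‖x - p‖ ^ 2 + K * ⟪x - p, n⟫ ^ 2 - c)) x := by
    apply ContDiff.contDiffAt
    have h1 : ContDiff ℝ 2 fun x : E => x - p := contDiff_id.sub contDiff_const
    have h2 : ContDiff ℝ 2 fun x : E => ⟪x - p, g⟫ := h1.inner ℝ contDiff_const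
    have h3 : ContDiff ℝ 2 fun x : E => ⟪x - p, n⟫ := h1.inner ℝ contDiff_const
    have h4 : ContDiff ℝ 2 fun x : E => ‖x - p‖ ^ 2 := h1.norm_sq ℝ
    exact (contDiff_const.add h2).mul (((h3.sub (contDiff_const.mul h4)).add
      (contDiff_const.mul (h3.pow 2))).sub contDiff_const)
  set b := stdOrthonormalBasis ℝ E with hb
  rw [laplacian_eq_sum b hcd]
  have hterm : ∀ i, deriv (deriv fun s : ℝ => (fun x : E => (ℓ₀ + ⟪x - p, g⟫) *
      (⟪x - p, n⟫ - B * ‖x - p‖ ^ 2 + K * ⟪x - p, n⟫ ^ 2 - c)) (x + s • b i)) 0 =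
      2 * (⟪g, b i⟫ * ⟪b i, n⟫ * (1 + 2 * K * ⟪x - p, n⟫) - 2 * B * (⟪g, b i⟫ * ⟪b i, x - p⟫)
        + (ℓ₀ + ⟪x - p, g⟫) * (K * (⟪n, b i⟫ * ⟪b i, n⟫) - B)) := by
    intro i
    have hbi : ‖b i‖ = 1 := b.norm_eq_one i
    set L := ℓ₀ + ⟪x - p, g⟫
    set v := ⟪x - p, n⟫
    set q := ‖x - p‖ ^ 2
    set G := ⟪b i, g⟫
    set V := ⟪b i, n⟫
    set C := ⟪x - p, b i⟫
    have h1 : (fun s : ℝ => (fun x : E => (ℓ₀ + ⟪x - p, g⟫) *
      (⟪x - p, n⟫ - B * ‖x - p‖ ^ 2 + K * ⟪x - p, n⟫ ^ 2 - c)) (x + s • b i)) =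
      fun s : ℝ => (L * (v - B * q + K * v ^ 2 - c)) +
        (G * (v - B * q + K * v ^ 2 - c) + L * (V - 2 * B * C + 2 * K * v * V)) * s +
        (G * (V - 2 * B * C + 2 * K * v * V) + L * (K * V ^ 2 - B)) * s ^ 2 +
        (G * (K * V ^ 2 - B)) * s ^ 3 + 0 * s ^ 4 := by
      funext s
      simp only
      rw [norm_sq_line x p (b i) hbi s, inner_line x p (b i) g s, inner_line x p (b i) n s]
      ring
    rw [h1, dd_poly]
    have e1 : ⟪g, b i⟫ = G := real_inner_comm _ _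
    have e2 : ⟪b i, x - p⟫ = C := real_inner_comm _ _
    have e3 : ⟪n, b i⟫ = V := real_inner_comm _ _
    rw [e1, e2, e3]
    ring
  rw [Finset.sum_congr rfl fun i _ => hterm i]
  rw [← Finset.mul_sum, Finset.sum_add_distrib, Finset.sum_sub_distrib, ← Finset.sum_mul,
    ← Finset.mul_sum, ← Finset.mul_sum, Finset.sum_sub_distrib, ← Finset.mul_sum]
  rw [b.sum_inner_mul_inner, b.sum_inner_mul_inner, b.sum_inner_mul_inner]
  rw [hgn, real_inner_self_eq_norm_sq, hn, real_inner_comm g (x - p)]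
  simp
  ring

/-- Laplacian of the barrier in the spreading lemma. -/
lemma laplacian_spread (p : E) (C k : ℝ) (x : E) :
    Δ (fun x : E => k * (C - ‖x - p‖ ^ 2) ^ 2) x =
      k * (8 * ‖x - p‖ ^ 2 - 4 * Module.finrank ℝ E * (C - ‖x - p‖ ^ 2)) := by
  have hcd : ContDiffAt ℝ 2 (fun x : E => k * (C - ‖x - p‖ ^ 2) ^ 2) x := by
    apply ContDiff.contDiffAt
    have h1 : ContDiff ℝ 2 fun x : E => x - p := contDiff_id.sub contDiff_const
    have h4 : ContDiff ℝ 2 fun x : E => ‖x - p‖ ^ 2 := h1.norm_sq ℝ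
    exact contDiff_const.mul ((contDiff_const.sub h4).pow 2)
  set b := stdOrthonormalBasis ℝ E with hb
  rw [laplacian_eq_sum b hcd]
  have hterm : ∀ i, deriv (deriv fun s : ℝ => (fun x : E => k * (C - ‖x - p‖ ^ 2) ^ 2)
      (x + s • b i)) 0 =
      2 * (k * (4 * (⟪x - p, b i⟫ * ⟪b i, x - p⟫) - 2 * (C - ‖x - p‖ ^ 2))) := by
    intro i
    have hbi : ‖b i‖ = 1 := b.norm_eq_one i
    set q := ‖x - p‖ ^ 2
    set c := ⟪x - p, b i⟫
    have h1 : (fun s : ℝ => (fun x : E => k * (C - ‖x - p‖ ^ 2) ^ 2) (x + s • b i)) =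
      fun s : ℝ => (k * (C - q) ^ 2) + (k * (2 * (C - q) * (- 2 * c))) * s +
        (k * (4 * c ^ 2 - 2 * (C - q))) * s ^ 2 +
        (k * (4 * c)) * s ^ 3 + k * s ^ 4 := by
      funext s
      simp only
      rw [norm_sq_line x p (b i) hbi s]
      ring
    rw [h1, dd_poly]
    have e2 : ⟪b i, x - p⟫ = c := real_inner_comm _ _
    rw [e2]
    ring
  rw [Finset.sum_congr rfl fun i _ => hterm i]
  rw [← Finset.mul_sum, ← Finset.mul_sum, Finset.sum_sub_distrib, ← Finset.mul_sum,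
    b.sum_inner_mul_inner, real_inner_self_eq_norm_sq]
  simp
  ring

end Pool.Agent.H43.Flux
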