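import Pool.Agent.H43.Heat2

/-!
Spreading of positivity (strong maximum principle) and the boundary point lemma.
-/

set_option autoImplicit false
set_option linter.unusedSectionVars false

namespace Pool.Agent.H43.Flux

open Set Filter Topology Laplacian RealInnerProductSpace

variable {E : Type*} [NormedAddCommGroup E] [InnerProductSpace ℝ E] [FiniteDimensional ℝ E]

/-- `w ≥ 0` is a supersolution on `(0, ∞) × D`, continuous up to the lateral boundary. -/
structure NonnegHeat (D : Set E) (w : ℝ → E → ℝ) : Prop where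
  isOpen : IsOpen D
  cont : ContinuousOn (fun z : ℝ × E => w z.1 z.2) (Ioi 0 ×ˢ closure D)
  nonneg : ∀ t > 0, ∀ x ∈ closure D, 0 ≤ w t x
  super : ∀ t > 0, ∀ x ∈ D, SuperAt w t x

lemma NonnegHeat.continuousAt {D : Set E} {w : ℝ → E → ℝ} (h : NonnegHeat D w) {t : ℝ}
    (ht : 0 < t) {x : E} (hx : x ∈ D) : ContinuousAt (fun z : ℝ × E => w z.1 z.2) (t, x) := by
  apply h.cont.continuousAt
  refine prod_mem_nhds (Ioi_mem_nhds ht) ?_
  exact mem_of_superset (h.isOpen.mem_nhds hx) subset_closure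

/-- Spreading of positivity. -/
theorem NonnegHeat.spread {D : Set E} {w : ℝ → E → ℝ} (h : NonnegHeat D w) {x₀ x : E}
    {R s₀ t₀ : ℝ} (hR : Metric.closedBall x₀ R ⊆ D) (hs₀ : 0 < s₀) (hst : s₀ < t₀)
    (hw : 0 < w s₀ x₀) (hx : ‖x - x₀‖ < R) : 0 < w t₀ x := by
  have hR0 : 0 < R := (norm_nonneg _).trans_lt hx
  have hx₀D : x₀ ∈ D := hR (Metric.mem_closedBall_self hR0.le)
  have hc : ContinuousAt (w s₀) x₀ := by
    have h1 : ContinuousAt (fun y : E => (s₀, y)) x₀ := by fun_prop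
    exact ContinuousAt.comp (g := fun z : ℝ × E => w z.1 z.2) (h.continuousAt hs₀ hx₀D) h1
  set m := w s₀ x₀ / 2 with hm
  have hm0 : 0 < m := by positivity
  have h1 : ∀ᶠ y in 𝓝 x₀, m < w s₀ y := hc.eventually (lt_mem_nhds (by rw [hm]; linarith))
  obtain ⟨r', hr'0, hr'⟩ := Metric.eventually_nhds_iff.mp h1
  set r := min (r' / 2) (R / 2) with hr
  have hr0 : 0 < r := lt_min (by positivity) (by positivity)
  have hrR : r < R := (min_le_right _ _).trans_lt (by linarith)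
  have hball : ∀ y, ‖y - x₀‖ ≤ r → m < w s₀ y := by
    intro y hy
    apply hr'
    rw [dist_eq_norm]
    exact hy.trans_lt ((min_le_left _ _).trans_lt (by linarith))
  set k := (R ^ 2 - r ^ 2) / (t₀ - s₀) with hk
  have hts : 0 < t₀ - s₀ := by linarith
  have hk0 : 0 < k := div_pos (by nlinarith) hts
  have hkt : k * (t₀ - s₀) = R ^ 2 - r ^ 2 := by rw [hk]; field_simp
  set N : ℝ := ((Module.finrank ℝ E : ℕ) : ℝ) with hN
  have hN0 : 0 ≤ N := by positivity
  set c := 2 * k + 4 * N + 8 with hcdef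
  set α := c ^ 2 / (32 * r ^ 2) with hα
  have hα' : α * (32 * r ^ 2) = c ^ 2 := by rw [hα]; field_simp
  set ε := m / r ^ 4 with hε
  have hε0 : 0 < ε := by positivity
  have hεr : ε * r ^ 4 = m := by rw [hε]; field_simp
  set z : ℝ → E → ℝ := fun t y =>
    (ε * Real.exp (-α * (t - s₀))) * ((r ^ 2 + k * (t - s₀)) - ‖y - x₀‖ ^ 2) ^ 2 with hz
  set K : Set (ℝ × E) := {y | s₀ ≤ y.1 ∧ y.1 ≤ t₀ ∧ ‖y.2 - x₀‖ ^ 2 ≤ r ^ 2 + k * (y.1 - s₀)} with hKdef
  have hnormR : ∀ y ∈ K, ‖y.2 - x₀‖ ≤ R := by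
    rintro y ⟨hy1, hy2, hy3⟩
    have : ‖y.2 - x₀‖ ^ 2 ≤ R ^ 2 := by
      have : k * (y.1 - s₀) ≤ k * (t₀ - s₀) := mul_le_mul_of_nonneg_left (by linarith) hk0.le
      linarith
    exact (pow_le_pow_iff_left₀ (norm_nonneg _) hR0.le two_ne_zero).mp this
  have hKc : IsCompact K := by
    have hcl : IsClosed K := by
      have e : K = {y : ℝ × E | s₀ ≤ y.1} ∩ ({y : ℝ × E | y.1 ≤ t₀} ∩
        {y : ℝ × E | ‖y.2 - x₀‖ ^ 2 ≤ r ^ 2 + k * (y.1 - s₀)}) := by
        ext y; simp [hKdef]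
      rw [e]
      exact (isClosed_le continuous_const continuous_fst).inter
        ((isClosed_le continuous_fst continuous_const).inter
          (isClosed_le (by fun_prop) (by fun_prop)))
    refine IsCompact.of_isClosed_subset (isCompact_Icc.prod (isCompact_closedBall x₀ R))
      (s := Icc s₀ t₀ ×ˢ Metric.closedBall x₀ R) hcl ?_
    intro y hy
    refine ⟨⟨hy.1, hy.2.1⟩, ?_⟩
    rw [mem_closedBall_iff_norm]
    exact hnormR y hy
  have hKD : ∀ t y, (t, y) ∈ K → y ∈ D := by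
    intro t y hy
    apply hR
    rw [mem_closedBall_iff_norm]
    exact hnormR _ hy
  have key := compare hKc (w := w) (z := z) ?_ ?_ ?_ t₀ x ?_
  · refine lt_of_lt_of_le ?_ key
    rw [hz]
    have h2 : 0 < (r ^ 2 + k * (t₀ - s₀)) - ‖x - x₀‖ ^ 2 := by
      rw [hkt]
      nlinarith [norm_nonneg (x - x₀)]
    positivity
  · refine h.cont.mono ?_
    rintro ⟨t, y⟩ hy
    exact ⟨hs₀.trans_le hy.1, subset_closure (hKD t y hy)⟩
  · rw [hz]; fun_prop
  · intro t y hy hlt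
    have hyD := hKD t y hy
    obtain ⟨hy1, hy2, hy3⟩ := hy
    simp only at hy1 hy2 hy3
    have ht0 : 0 < t := hs₀.trans_le hy1
    have hwn := h.nonneg t ht0 y (subset_closure hyD)
    set ψ := r ^ 2 + k * (t - s₀) - ‖y - x₀‖ ^ 2 with hψ
    have hψ0 : 0 < ψ := by
      rcases (sub_nonneg.mpr hy3).lt_or_eq with h2 | h2
      · exact h2
      · exfalso
        have : z t y = 0 := by
          rw [hz]; simp only
          rw [← h2]; ring
        linarith
    have hts' : s₀ < t := by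
      rcases hy1.lt_or_eq with h2 | h2
      · exact h2
      · exfalso
        have h3 : ‖y - x₀‖ ^ 2 ≤ r ^ 2 := by rw [← h2] at hy3; linarith
        have h4 : ‖y - x₀‖ ≤ r := (pow_le_pow_iff_left₀ (norm_nonneg _) hr0.le two_ne_zero).mp h3
        have h5 := hball y h4
        have h6 : z t y ≤ m := by
          rw [hz]; simp only
          rw [← h2, sub_self, mul_zero, Real.exp_zero, mul_zero, add_zero, mul_one]
          have h7 : (r ^ 2 - ‖y - x₀‖ ^ 2) ^ 2 ≤ (r ^ 2) ^ 2 := by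
            have := sq_nonneg ‖y - x₀‖
            apply pow_le_pow_left₀ (by linarith) (by linarith)
          calc ε * (r ^ 2 - ‖y - x₀‖ ^ 2) ^ 2 ≤ ε * (r ^ 2) ^ 2 :=
                mul_le_mul_of_nonneg_left h7 hε0.le
            _ = m := by rw [← hεr]; ring
        rw [← h2] at hlt h6
        linarith
    refine ⟨?_, ?_, h.super t ht0 y hyD, ?_, ?_⟩
    · have h2 : ∀ᶠ y' in 𝓝 y, ‖y' - x₀‖ ^ 2 < r ^ 2 + k * (t - s₀) := by
        have hcont : ContinuousAt (fun y' : E => ‖y' - x₀‖ ^ 2) y := by fun_prop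
        exact hcont.eventually (gt_mem_nhds (by linarith))
      filter_upwards [h2] with y' hy'
      exact ⟨hy1, hy2, hy'.le⟩
    · have h2 : ∀ᶠ s in 𝓝[<] t, ‖y - x₀‖ ^ 2 < r ^ 2 + k * (s - s₀) := by
        have hcont : ContinuousAt (fun s : ℝ => r ^ 2 + k * (s - s₀)) t := by fun_prop
        exact (hcont.eventually (lt_mem_nhds (by linarith))).filter_mono nhdsWithin_le_nhds
      filter_upwards [h2, Ioo_mem_nhdsLT hts'] with s hs hs'
      exact ⟨hs'.1.le, hs'.2.le.trans hy2, hs.le⟩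
    · apply ContDiff.contDiffAt
      have h1 : ContDiff ℝ 2 fun x : E => x - x₀ := contDiff_id.sub contDiff_const
      have h4 : ContDiff ℝ 2 fun x : E => ‖x - x₀‖ ^ 2 := h1.norm_sq ℝ
      exact contDiff_const.mul ((contDiff_const.sub h4).pow 2)
    · set X := Real.exp (-α * (t - s₀)) with hX
      have hX0 : 0 < X := Real.exp_pos _
      refine ⟨ε * X * (2 * k * ψ - α * ψ ^ 2), ?_, ?_⟩
      · have d1 : HasDerivAt (fun s : ℝ => -α * (s - s₀)) (-α) t := by
          simpa using ((hasDerivAt_id t).sub_const s₀).const_mul (-α)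
        have d2 : HasDerivAt (fun s : ℝ => ε * Real.exp (-α * (s - s₀)))
            (ε * (X * (-α))) t := (d1.exp).const_mul ε
        have d3 : HasDerivAt (fun s : ℝ => r ^ 2 + k * (s - s₀) - ‖y - x₀‖ ^ 2) k t :=
          (((((hasDerivAt_id t).sub_const s₀).const_mul k).const_add (r ^ 2)).sub_const
            (‖y - x₀‖ ^ 2)).congr_deriv (mul_one k)
        have d4 := d2.mul (d3.pow 2)
        refine d4.congr_deriv ?_
        have e2 : ((2 : ℕ) : ℝ) = 2 := by norm_num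
        have e3 : (2 : ℕ) - 1 = 1 := rfl
        rw [← hψ, e2, e3, pow_one]
        change ε * (X * -α) * ψ ^ 2 + ε * X * (2 * ψ * k) = ε * X * (2 * k * ψ - α * ψ ^ 2)
        ring
      · show _ ≤ Δ (fun y => (ε * X) * ((r ^ 2 + k * (t - s₀)) - ‖y - x₀‖ ^ 2) ^ 2) y
        rw [laplacian_spread]
        apply mul_le_mul_of_nonneg_left _ (by positivity)
        have h8 : ‖y - x₀‖ ^ 2 = r ^ 2 + k * (t - s₀) - ψ := by rw [hψ]; ring
        have h9 : r ^ 2 + k * (t - s₀) - ‖y - x₀‖ ^ 2 = ψ := hψ.symm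
        rw [h9, ← hN]
        have h10 : r ^ 2 - ψ ≤ ‖y - x₀‖ ^ 2 := by
          rw [h8]
          have : 0 ≤ k * (t - s₀) := mul_nonneg hk0.le (by linarith)
          linarith
        have h11 : 0 ≤ (32 * r ^ 2) * (α * ψ ^ 2 - c * ψ + 8 * r ^ 2) := by
          have : (32 * r ^ 2) * (α * ψ ^ 2 - c * ψ + 8 * r ^ 2) = (c * ψ - 16 * r ^ 2) ^ 2 := by
            have : (32 * r ^ 2) * (α * ψ ^ 2 - c * ψ + 8 * r ^ 2) =
              (α * (32 * r ^ 2)) * ψ ^ 2 - 32 * r ^ 2 * c * ψ + 256 * r ^ 4 := by ring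
            rw [this, hα']; ring
          rw [this]; positivity
        have h12 : 0 ≤ α * ψ ^ 2 - c * ψ + 8 * r ^ 2 :=
          nonneg_of_mul_nonneg_right h11 (by positivity)
        rw [hcdef] at h12
        linarith
  · refine ⟨hst.le, le_rfl, ?_⟩
    simp only
    rw [hkt]
    nlinarith [norm_nonneg (x - x₀)]

/-- The region of the boundary point lemma. -/
def Cap (p n g : E) (ℓ₀ β a δ : ℝ) : Set E :=
  {x | β * ‖x - p‖ ^ 2 ≤ ⟪x - p, n⟫ ∧ ⟪x - p, n⟫ ≤ a ∧ ‖x - p‖ ≤ δ ∧ 0 ≤ ℓ₀ + ⟪x - p, g⟫}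

lemma isCompact_cap (p n g : E) (ℓ₀ β a δ : ℝ) : IsCompact (Cap p n g ℓ₀ β a δ) := by
  have e : Cap p n g ℓ₀ β a δ = {x : E | β * ‖x - p‖ ^ 2 ≤ ⟪x - p, n⟫} ∩
      ({x : E | ⟪x - p, n⟫ ≤ a} ∩ ({x : E | ‖x - p‖ ≤ δ} ∩ {x : E | 0 ≤ ℓ₀ + ⟪x - p, g⟫})) := by
    ext x; simp [Cap]
  have hcl : IsClosed (Cap p n g ℓ₀ β a δ) := by
    rw [e]
    exact (isClosed_le (by fun_prop) (by fun_prop)).inter
      ((isClosed_le (by fun_prop) (by fun_prop)).inter
      ((isClosed_le (by fun_prop) (by fun_prop)).inter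
      (isClosed_le (by fun_prop) (by fun_prop))))
  refine (isCompact_closedBall p δ).of_isClosed_subset hcl ?_
  intro x hx
  rw [mem_closedBall_iff_norm]
  exact hx.2.2.1

/-- **Boundary point lemma**, with the linear weight `ℓ₀ + ⟪x - p, g⟫`. -/
theorem hopf_core {w : ℝ → E → ℝ} {p n g : E} {ℓ₀ β a δ τ m t' K : ℝ} (hn : ‖n‖ = 1)
    (hgn : ⟪g, n⟫ = 0) (hℓ₀ : 0 ≤ ℓ₀) (hβ : 0 ≤ β) (ha : 0 < a) (hm : 0 ≤ m)
    (hK : K = (Module.finrank ℝ E + 2) * (1 + β) + 1 / 2)
    (hδ : a + K * a ^ 2 ≤ δ ^ 2) (hτ : a + K * a ^ 2 ≤ τ) (hβa : K * β * a ≤ 1)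
    (hcont : ContinuousOn (fun z : ℝ × E => w z.1 z.2) (Icc (t' - τ) t' ×ˢ Cap p n g ℓ₀ β a δ))
    (hnonneg : ∀ t ∈ Icc (t' - τ) t', ∀ x ∈ Cap p n g ℓ₀ β a δ, 0 ≤ w t x)
    (hsuper : ∀ t ∈ Icc (t' - τ) t', ∀ x, β * ‖x - p‖ ^ 2 < ⟪x - p, n⟫ → ⟪x - p, n⟫ < a →
      ‖x - p‖ < δ → 0 < ℓ₀ + ⟪x - p, g⟫ → SuperAt w t x)
    (hlow : ∀ t ∈ Icc (t' - τ) t', ∀ x ∈ Cap p n g ℓ₀ β a δ, ⟪x - p, n⟫ = a →
      m * (ℓ₀ + ⟪x - p, g⟫) ≤ w t x) :
    ∀ x ∈ Cap p n g ℓ₀ β a δ, (m / (a + K * a ^ 2)) * ((ℓ₀ + ⟪x - p, g⟫) *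
      (⟪x - p, n⟫ - (1 + β) * ‖x - p‖ ^ 2 + K * ⟪x - p, n⟫ ^ 2)) ≤ w t' x := by
  intro x₁ hx₁
  set N : ℝ := ((Module.finrank ℝ E : ℕ) : ℝ) with hN
  have hN0 : 0 ≤ N := by positivity
  have hK0 : 0 < K := by rw [hK]; positivity
  set A := a + K * a ^ 2 with hA
  have hA0 : 0 < A := by positivity
  set ε := m / A with hε
  have hε0 : 0 ≤ ε := by positivity
  have hεA : ε * A = m := by rw [hε]; field_simp
  set z : ℝ → E → ℝ := fun t x => (ε * ℓ₀ + ⟪x - p, ε • g⟫) *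
    (⟪x - p, n⟫ - (1 + β) * ‖x - p‖ ^ 2 + K * ⟪x - p, n⟫ ^ 2 - (t' - t)) with hz
  have hz' : ∀ t x, z t x = (ε * (ℓ₀ + ⟪x - p, g⟫)) *
    (⟪x - p, n⟫ - (1 + β) * ‖x - p‖ ^ 2 + K * ⟪x - p, n⟫ ^ 2 - (t' - t)) := by
    intro t x
    rw [hz]; simp only
    rw [inner_smul_right]; ring
  have hτ0 : 0 < τ := hA0.trans_le hτ
  have hcomp : IsCompact (Icc (t' - τ) t' ×ˢ Cap p n g ℓ₀ β a δ) :=
    isCompact_Icc.prod (isCompact_cap _ _ _ _ _ _ _)
  have key := compare hcomp (w := w) (z := z) hcont (by rw [hz]; fun_prop) ?_ t' x₁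
    ⟨⟨by linarith, le_rfl⟩, hx₁⟩
  · rw [hz'] at key
    calc _ = _ := by ring
      _ ≤ _ := key
  · rintro t x ⟨ht, hx⟩ hlt
    simp only at ht hx
    have hwn := hnonneg t ht x hx
    have hlow' := hlow t ht x hx
    obtain ⟨hx1, hx2, hx3, hx4⟩ := hx
    have hst := hsuper t ht x
    rw [hz' t x] at hlt
    set v := ⟪x - p, n⟫ with hv
    set q := ‖x - p‖ ^ 2 with hq
    set L := ℓ₀ + ⟪x - p, g⟫ with hL
    have hq0 : 0 ≤ q := by positivity
    have hv0 : 0 ≤ v := le_trans (by positivity) hx1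
    have htt : 0 ≤ t' - t := by linarith [ht.2]
    have hpos : 0 < ε * L * (v - (1 + β) * q + K * v ^ 2 - (t' - t)) := lt_of_le_of_lt hwn hlt
    have hεL : 0 ≤ ε * L := by positivity
    have hbr : 0 < v - (1 + β) * q + K * v ^ 2 - (t' - t) := by
      by_contra hcon
      push Not at hcon
      have := mul_nonpos_of_nonneg_of_nonpos hεL hcon
      linarith
    have hKv : v + K * v ^ 2 ≤ A := by
      have h1 : v ^ 2 ≤ a ^ 2 := pow_le_pow_left₀ hv0 hx2 2
      have h2 : K * v ^ 2 ≤ K * a ^ 2 := mul_le_mul_of_nonneg_left h1 hK0.le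
      rw [hA]; linarith
    -- strict inequalities
    have s1 : β * q < v := by
      rcases hx1.lt_or_eq with h | h
      · exact h
      · exfalso
        have h1 : K * v ^ 2 ≤ q := by
          calc K * v ^ 2 = K * β * v * q := by rw [← h]; ring
            _ ≤ 1 * q := by
              apply mul_le_mul_of_nonneg_right _ hq0
              calc K * β * v ≤ K * β * a := mul_le_mul_of_nonneg_left hx2 (by positivity)
                _ ≤ 1 := hβa
            _ = q := one_mul q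
        nlinarith
    have s3 : ‖x - p‖ < δ := by
      rcases hx3.lt_or_eq with h | h
      · exact h
      · exfalso
        have h1 : q = δ ^ 2 := by rw [hq, h]
        have h2 : 0 ≤ β * q := by positivity
        linarith
    have s4 : 0 < L := by
      rcases hx4.lt_or_eq with h | h
      · exact h
      · exfalso
        rw [← h] at hpos; simp at hpos
    have s2 : v < a := by
      rcases hx2.lt_or_eq with h | h
      · exact h
      · exfalso
        have h1 := hlow' h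
        have h2 : ε * L * (v - (1 + β) * q + K * v ^ 2 - (t' - t)) ≤ ε * L * A := by
          apply mul_le_mul_of_nonneg_left _ hεL
          have : 0 ≤ (1 + β) * q := by positivity
          linarith
        have h3 : ε * L * A = m * L := by rw [← hεA]; ring
        linarith
    have s5 : t' - τ < t := by
      rcases ht.1.lt_or_eq with h | h
      · exact h
      · exfalso
        have h1 : 0 ≤ (1 + β) * q := by positivity
        have h2 : t' - t = τ := by linarith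
        linarith
    refine ⟨?_, ?_, hst s1 s2 s3 s4, ?_, ?_⟩
    · have c1 : ∀ᶠ y in 𝓝 x, 0 < ⟪y - p, n⟫ - β * ‖y - p‖ ^ 2 := by
        have hc : ContinuousAt (fun y : E => ⟪y - p, n⟫ - β * ‖y - p‖ ^ 2) x := by fun_prop
        exact hc.eventually (lt_mem_nhds (by simp only; linarith))
      have c2 : ∀ᶠ y in 𝓝 x, ⟪y - p, n⟫ < a := by
        have hc : ContinuousAt (fun y : E => ⟪y - p, n⟫) x := by fun_prop
        exact hc.eventually (gt_mem_nhds s2)
      have c3 : ∀ᶠ y in 𝓝 x, ‖y - p‖ < δ := by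
        have hc : ContinuousAt (fun y : E => ‖y - p‖) x := by fun_prop
        exact hc.eventually (gt_mem_nhds s3)
      have c4 : ∀ᶠ y in 𝓝 x, 0 < ℓ₀ + ⟪y - p, g⟫ := by
        have hc : ContinuousAt (fun y : E => ℓ₀ + ⟪y - p, g⟫) x := by fun_prop
        exact hc.eventually (lt_mem_nhds s4)
      filter_upwards [c1, c2, c3, c4] with y h1 h2 h3 h4
      exact ⟨ht, by linarith, h2.le, h3.le, h4.le⟩
    · filter_upwards [Ioo_mem_nhdsLT s5] with s hs
      exact ⟨⟨hs.1.le, hs.2.le.trans ht.2⟩, hx1, hx2, hx3, hx4⟩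
    · apply ContDiff.contDiffAt
      have h1 : ContDiff ℝ 2 fun x : E => x - p := contDiff_id.sub contDiff_const
      have h2 : ContDiff ℝ 2 fun x : E => ⟪x - p, ε • g⟫ := h1.inner ℝ contDiff_const
      have h3 : ContDiff ℝ 2 fun x : E => ⟪x - p, n⟫ := h1.inner ℝ contDiff_const
      have h4 : ContDiff ℝ 2 fun x : E => ‖x - p‖ ^ 2 := h1.norm_sq ℝ
      exact (contDiff_const.add h2).mul (((h3.sub (contDiff_const.mul h4)).add
        (contDiff_const.mul (h3.pow 2))).sub contDiff_const)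
    · refine ⟨ε * L, ?_, ?_⟩
      · have d1 : HasDerivAt (fun s : ℝ => v - (1 + β) * q + K * v ^ 2 - (t' - s)) 1 t := by
          have := ((hasDerivAt_id t).const_sub t').const_sub (v - (1 + β) * q + K * v ^ 2)
          simpa using this
        have d2 := d1.const_mul (ε * L)
        have e : (fun s : ℝ => z s x) = fun s => ε * L *
            (v - (1 + β) * q + K * v ^ 2 - (t' - s)) := by
          funext s; rw [hz' s x]
        rw [e]
        simpa using d2
      · have e : Δ (z t) x = (ε * ℓ₀ + ⟪x - p, ε • g⟫) * (2 * K - 2 * N * (1 + β)) -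
            4 * (1 + β) * ⟪x - p, ε • g⟫ :=
          laplacian_barrier p n (ε • g) (ε * ℓ₀) K (1 + β) (t' - t) hn
            (by rw [real_inner_smul_left, hgn, mul_zero]) x
        rw [e, inner_smul_right]
        have e2 : ⟪x - p, g⟫ = L - ℓ₀ := by rw [hL]; ring
        rw [e2, hK]
        have h1 : 0 ≤ ε * ℓ₀ * (1 + β) := by positivity
        nlinarith

end Pool.Agent.H43.Flux
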