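import Pool.Agent.H43.Heat3

/-!
Strong maximum principle, Hopf lemma at a boundary ball, uniform Hopf lemma at a plane and the
corner lemma.
-/

set_option autoImplicit false
set_option linter.unusedSectionVars false

namespace Pool.Agent.H43.Flux

open Set Filter Topology Laplacian RealInnerProductSpace

variable {E : Type*} [NormedAddCommGroup E] [InnerProductSpace ℝ E] [FiniteDimensional ℝ E]

/-- Points of `D` where `w` is positive at some time before `T`. -/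
def PosSet (D : Set E) (w : ℝ → E → ℝ) (T : ℝ) : Set E :=
  {x | x ∈ D ∧ ∃ t, 0 < t ∧ t < T ∧ 0 < w t x}

/-- Points of `D` where `w` vanishes at all times before `T`. -/
def ZeroSet (D : Set E) (w : ℝ → E → ℝ) (T : ℝ) : Set E :=
  {x | x ∈ D ∧ ∀ t, 0 < t → t < T → w t x = 0}

namespace NonnegHeat

variable {D : Set E} {w : ℝ → E → ℝ} {T : ℝ}

lemma continuousAt_space (h : NonnegHeat D w) {t : ℝ} (ht : 0 < t) {x : E} (hx : x ∈ D) :
    ContinuousAt (w t) x := by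
  have h1 : ContinuousAt (fun y : E => (t, y)) x := by fun_prop
  exact ContinuousAt.comp (g := fun z : ℝ × E => w z.1 z.2) (h.continuousAt ht hx) h1

lemma isOpen_pos (h : NonnegHeat D w) : IsOpen (PosSet D w T) := by
  rw [isOpen_iff_mem_nhds]
  rintro x ⟨hx, t, ht, htT, hw⟩
  filter_upwards [h.isOpen.mem_nhds hx, (h.continuousAt_space ht hx).eventually (lt_mem_nhds hw)]
    with y hy hy'
  exact ⟨hy, t, ht, htT, hy'⟩

lemma isOpen_zero (h : NonnegHeat D w) : IsOpen (ZeroSet D w T) := by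
  rw [isOpen_iff_mem_nhds]
  rintro x ⟨hx, hz⟩
  obtain ⟨r, hr0, hr⟩ := Metric.isOpen_iff.mp h.isOpen x hx
  have hr3 : 0 < r / 3 := by positivity
  filter_upwards [Metric.ball_mem_nhds x hr3] with y hy
  have hyD : y ∈ D := hr (Metric.ball_subset_ball (by linarith) hy)
  refine ⟨hyD, fun t ht htT => ?_⟩
  by_contra hne
  have hpos : 0 < w t y := lt_of_le_of_ne (h.nonneg t ht y (subset_closure hyD)) (Ne.symm hne)
  have hcb : Metric.closedBall y (r / 3) ⊆ D := by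
    intro z hz'
    apply hr
    rw [Metric.mem_ball] at hy ⊢
    rw [Metric.mem_closedBall] at hz'
    linarith [dist_triangle z y x]
  have h1 := h.spread hcb ht (t₀ := (t + T) / 2) (by linarith) hpos (x := x) (by
    rw [← dist_eq_norm, dist_comm]; exact hy)
  rw [hz ((t + T) / 2) (by linarith) (by linarith)] at h1
  exact lt_irrefl _ h1

lemma dich (h : NonnegHeat D w) {C : Set E} (hC : IsPreconnected C) (hCD : C ⊆ D) :
    C ⊆ PosSet D w T ∨ C ⊆ ZeroSet D w T := by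
  apply hC.subset_or_subset h.isOpen_pos h.isOpen_zero
  · rw [Set.disjoint_left]
    rintro x ⟨_, t, ht, htT, hw⟩ ⟨_, hz⟩
    rw [hz t ht htT] at hw
    exact lt_irrefl _ hw
  · intro x hx
    by_cases hz : ∃ t, 0 < t ∧ t < T ∧ 0 < w t x
    · exact Or.inl ⟨hCD hx, hz⟩
    · right
      refine ⟨hCD hx, fun t ht htT => ?_⟩
      by_contra hne
      exact hz ⟨t, ht, htT, lt_of_le_of_ne (h.nonneg t ht x (subset_closure (hCD hx)))
        (Ne.symm hne)⟩

/-- **Strong maximum principle**. -/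
theorem pos_of_pos (h : NonnegHeat D w) {C : Set E} (hC : IsPreconnected C) (hCD : C ⊆ D)
    {x₁ : E} (hx₁ : x₁ ∈ C) {s₁ : ℝ} (hs₁ : 0 < s₁) (hw : 0 < w s₁ x₁) {x : E} (hx : x ∈ C)
    {t : ℝ} (ht : s₁ < t) : 0 < w t x := by
  rcases h.dich (T := (s₁ + t) / 2) hC hCD with h1 | h1
  · obtain ⟨hxD, s, hs, hsT, hws⟩ := h1 hx
    obtain ⟨r, hr0, hr⟩ := Metric.isOpen_iff.mp h.isOpen x hxD
    exact h.spread (R := r / 2) (Subset.trans (Metric.closedBall_subset_ball (by linarith)) hr)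
      hs (by linarith) hws (by simpa using hr0)
  · have := (h1 hx₁).2 s₁ hs₁ (by linarith)
    rw [this] at hw
    exact absurd hw (lt_irrefl _)

lemma exists_lower (h : NonnegHeat D w) {K : Set E} (hK : IsCompact K) (hKD : K ⊆ D) {s t : ℝ}
    (hs : 0 < s) (hpos : ∀ t' ∈ Icc s t, ∀ x ∈ K, 0 < w t' x) :
    ∃ m > 0, ∀ t' ∈ Icc s t, ∀ x ∈ K, m ≤ w t' x := by
  rcases (Icc s t ×ˢ K).eq_empty_or_nonempty with he | hne
  · refine ⟨1, one_pos, fun t' ht' x hx => ?_⟩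
    have : (t', x) ∈ Icc s t ×ˢ K := ⟨ht', hx⟩
    rw [he] at this
    exact absurd this (notMem_empty _)
  · have hcont : ContinuousOn (fun z : ℝ × E => w z.1 z.2) (Icc s t ×ˢ K) := by
      refine h.cont.mono ?_
      rintro ⟨t', x⟩ ⟨ht', hx⟩
      exact ⟨hs.trans_le ht'.1, subset_closure (hKD hx)⟩
    obtain ⟨⟨t₀, x₀⟩, ⟨ht₀, hx₀⟩, hmin⟩ := (isCompact_Icc.prod hK).exists_isMinOn hne hcont
    exact ⟨w t₀ x₀, hpos t₀ ht₀ x₀ hx₀, fun t' ht' x hx => hmin (a := (t', x)) ⟨ht', hx⟩⟩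

end NonnegHeat

lemma exists_small (K M c : ℝ) (hK : 0 < K) (hM : 0 < M) (hc : 0 ≤ c) :
    ∃ a > 0, a ≤ 1 ∧ a + K * a ^ 2 ≤ M ∧ c * a ≤ 1 := by
  refine ⟨min 1 (min (M / (1 + K)) (1 / (c + 1))), ?_, min_le_left _ _, ?_, ?_⟩
  · exact lt_min one_pos (lt_min (by positivity) (by positivity))
  · set a := min 1 (min (M / (1 + K)) (1 / (c + 1))) with ha
    have h1 : a ≤ 1 := min_le_left _ _
    have h2 : a ≤ M / (1 + K) := (min_le_right _ _).trans (min_le_left _ _)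
    have h0 : 0 < a := lt_min one_pos (lt_min (by positivity) (by positivity))
    rw [le_div_iff₀ (by positivity)] at h2
    have h3 : a ^ 2 ≤ a := by nlinarith
    nlinarith
  · set a := min 1 (min (M / (1 + K)) (1 / (c + 1))) with ha
    have h2 : a ≤ 1 / (c + 1) := (min_le_right _ _).trans (min_le_right _ _)
    have h0 : 0 < a := lt_min one_pos (lt_min (by positivity) (by positivity))
    rw [le_div_iff₀ (by positivity)] at h2
    nlinarith

lemma mem_ball_iff_inner {p n x : E} {ρ : ℝ} (hρ : 0 < ρ) (hn : ‖n‖ = 1) :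
    x ∈ Metric.ball (p + ρ • n) ρ ↔ ‖x - p‖ ^ 2 < 2 * ρ * ⟪x - p, n⟫ := by
  rw [mem_ball_iff_norm]
  have h1 : ‖x - (p + ρ • n)‖ ^ 2 = ‖x - p‖ ^ 2 - 2 * ρ * ⟪x - p, n⟫ + ρ ^ 2 := by
    have : x - (p + ρ • n) = (x - p) - ρ • n := by abel
    rw [this, norm_sub_sq_real, inner_smul_right, norm_smul, hn, Real.norm_eq_abs, mul_one, sq_abs]
    ring
  constructor
  · intro h
    have h2 : ‖x - (p + ρ • n)‖ ^ 2 < ρ ^ 2 := pow_lt_pow_left₀ h (norm_nonneg _) two_ne_zero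
    linarith
  · intro h
    have h2 : ‖x - (p + ρ • n)‖ ^ 2 < ρ ^ 2 := by linarith
    exact (pow_lt_pow_iff_left₀ (norm_nonneg _) hρ.le two_ne_zero).mp h2

/-- A point of the smaller closed ball is in the open ball or is the boundary point. -/
lemma cap_mem_ball {p n x : E} {ρ : ℝ} (hρ : 0 < ρ) (hn : ‖n‖ = 1)
    (hx : ρ⁻¹ * ‖x - p‖ ^ 2 ≤ ⟪x - p, n⟫) : x = p ∨ x ∈ Metric.ball (p + ρ • n) ρ := by
  by_cases h : x = p
  · exact Or.inl h
  · right
    rw [mem_ball_iff_inner hρ hn]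
    have h1 : 0 < ‖x - p‖ := norm_pos_iff.mpr (sub_ne_zero.mpr h)
    have h2 : 0 < ‖x - p‖ ^ 2 := by positivity
    have h3 : ‖x - p‖ ^ 2 ≤ ρ * ⟪x - p, n⟫ := by
      calc ‖x - p‖ ^ 2 = ρ * (ρ⁻¹ * ‖x - p‖ ^ 2) := by field_simp
        _ ≤ _ := mul_le_mul_of_nonneg_left hx hρ.le
    linarith

lemma isCompact_cap_slice (p n g : E) (ℓ₀ β a δ : ℝ) :
    IsCompact (Cap p n g ℓ₀ β a δ ∩ {x | ⟪x - p, n⟫ = a}) :=
  (isCompact_cap p n g ℓ₀ β a δ).inter_right (isClosed_eq (by fun_prop) (by fun_prop))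

/-- **Hopf lemma** at a boundary point with an interior ball. -/
theorem NonnegHeat.hopf_ball {D : Set E} {w : ℝ → E → ℝ} (h : NonnegHeat D w) {p n : E} {ρ : ℝ}
    (hρ : 0 < ρ) (hn : ‖n‖ = 1) (hB : Metric.ball (p + ρ • n) ρ ⊆ D) {s₁ : ℝ} {x₁ : E}
    (hs₁ : 0 < s₁) (hx₁ : x₁ ∈ Metric.ball (p + ρ • n) ρ) (hw : 0 < w s₁ x₁) {t₁ : ℝ}
    (ht₁ : s₁ < t₁) : ∃ ε > 0, ∃ η₀ > 0, ∀ η ∈ Icc 0 η₀, ε * η ≤ w t₁ (p + η • n) := by
  have hC : IsPreconnected (Metric.ball (p + ρ • n) ρ) := (convex_ball _ _).isPreconnected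
  have hpos : ∀ x ∈ Metric.ball (p + ρ • n) ρ, ∀ t > s₁, 0 < w t x := fun x hx t ht =>
    h.pos_of_pos hC hB hx₁ hs₁ hw hx ht
  set β := ρ⁻¹ with hβ
  have hβ0 : 0 < β := inv_pos.mpr hρ
  set K : ℝ := (Module.finrank ℝ E + 2) * (1 + β) + 1 / 2 with hK
  have hK0 : 0 < K := by positivity
  have hKβ : 1 + β ≤ K := by
    rw [hK]
    have : (0 : ℝ) ≤ Module.finrank ℝ E := by positivity
    nlinarith
  set τ := (t₁ - s₁) / 2 with hτ
  have hτ0 : 0 < τ := by rw [hτ]; linarith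
  obtain ⟨a, ha0, ha1, haM, hac⟩ := exists_small K (min 1 τ) (K * β) hK0
    (lt_min one_pos hτ0) (by positivity)
  have hpcl : p ∈ closure D := by
    refine closure_mono hB ?_
    rw [closure_ball _ hρ.ne']
    rw [mem_closedBall_iff_norm]
    have : p - (p + ρ • n) = -(ρ • n) := by abel
    rw [this, norm_neg, norm_smul, hn, Real.norm_eq_abs, abs_of_pos hρ, mul_one]
  have hcap : ∀ x ∈ Cap p n 0 1 β a 1, x ∈ closure D := by
    intro x hx
    rcases cap_mem_ball hρ hn hx.1 with h1 | h1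
    · rw [h1]; exact hpcl
    · exact subset_closure (hB h1)
  have hslice : Cap p n 0 1 β a 1 ∩ {x | ⟪x - p, n⟫ = a} ⊆ Metric.ball (p + ρ • n) ρ := by
    rintro x ⟨hx, hxa⟩
    rcases cap_mem_ball hρ hn hx.1 with h1 | h1
    · exfalso
      simp only [mem_ofPred_eq] at hxa
      rw [h1, sub_self, inner_zero_left] at hxa
      linarith
    · exact h1
  have htime : ∀ t ∈ Icc (t₁ - τ) t₁, s₁ < t ∧ 0 < t := by
    intro t ht
    have : s₁ < t := by
      have := ht.1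
      rw [hτ] at this
      linarith
    exact ⟨this, hs₁.trans this⟩
  obtain ⟨m, hm0, hm⟩ := h.exists_lower (isCompact_cap_slice p n 0 1 β a 1)
    (hslice.trans hB) (s := t₁ - τ) (t := t₁) (by rw [hτ]; linarith)
    (fun t ht x hx => hpos x (hslice hx) t (htime t ht).1)
  have key := hopf_core (w := w) (p := p) (n := n) (g := 0) (ℓ₀ := 1) (β := β) (a := a) (δ := 1)
    (τ := τ) (m := m) (t' := t₁) (K := K) hn (inner_zero_left _) zero_le_one hβ0.le ha0 hm0.le hK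
    (by rw [one_pow]; exact haM.trans (min_le_left _ _)) (haM.trans (min_le_right _ _)) hac
    (h.cont.mono (by
      rintro ⟨t, x⟩ ⟨ht, hx⟩
      exact ⟨(htime t ht).2, hcap x hx⟩))
    (fun t ht x hx => h.nonneg t (htime t ht).2 x (hcap x hx))
    (fun t ht x hx1 _ _ _ => by
      have hxb : x ∈ Metric.ball (p + ρ • n) ρ := by
        rcases cap_mem_ball hρ hn hx1.le with h1 | h1
        · exfalso
          rw [h1] at hx1; simp at hx1
        · exact h1
      exact h.super t (htime t ht).2 x (hB hxb))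
    (fun t ht x hx hxa => by
      rw [inner_zero_right, add_zero, mul_one]
      exact hm t ht x ⟨hx, hxa⟩)
  refine ⟨m / (a + K * a ^ 2), by positivity, min a ρ, lt_min ha0 hρ, fun η hη => ?_⟩
  have hηa : η ≤ a := hη.2.trans (min_le_left _ _)
  have hηρ : η ≤ ρ := hη.2.trans (min_le_right _ _)
  have e1 : p + η • n - p = η • n := by abel
  have e2 : ⟪p + η • n - p, n⟫ = η := by
    rw [e1, real_inner_smul_left, real_inner_self_eq_norm_sq, hn]; ring
  have e3 : ‖p + η • n - p‖ = η := by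
    rw [e1, norm_smul, hn, Real.norm_eq_abs, abs_of_nonneg hη.1, mul_one]
  have hmem : p + η • n ∈ Cap p n 0 1 β a 1 := by
    refine ⟨?_, ?_, ?_, ?_⟩
    · rw [e2, e3]
      calc β * η ^ 2 = (β * η) * η := by ring
        _ ≤ 1 * η := by
          apply mul_le_mul_of_nonneg_right _ hη.1
          calc β * η ≤ β * ρ := mul_le_mul_of_nonneg_left hηρ hβ0.le
            _ = 1 := by rw [hβ]; field_simp
        _ = η := one_mul η
    · rw [e2]; exact hηa
    · rw [e3]; exact hηa.trans ha1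
    · rw [inner_zero_right]; norm_num
  have := key _ hmem
  rw [e2, e3, inner_zero_right, add_zero, one_mul] at this
  refine le_trans ?_ this
  apply mul_le_mul_of_nonneg_left _ (by positivity)
  nlinarith [sq_nonneg η]

/-- Points on the flat part of a half ball are in the closure. -/
lemma mem_closure_half {D : Set E} {e y : E} (he : ‖e‖ = 1) {μ r : ℝ} (hr : 0 < r)
    (hC : ∀ x, ‖x - y‖ < r → μ < ⟪x, e⟫ → x ∈ D) (hy : μ ≤ ⟪y, e⟫) : y ∈ closure D := by
  have h1 : Tendsto (fun s : ℝ => y + s • e) (𝓝[>] 0) (𝓝 y) := by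
    have : Continuous fun s : ℝ => y + s • e := by fun_prop
    have := this.tendsto 0
    simp only [zero_smul, add_zero] at this
    exact this.mono_left nhdsWithin_le_nhds
  refine mem_closure_of_tendsto h1 ?_
  filter_upwards [Ioo_mem_nhdsGT hr] with s hs
  apply hC
  · have : y + s • e - y = s • e := by abel
    rw [this, norm_smul, he, Real.norm_eq_abs, abs_of_pos hs.1, mul_one]
    exact hs.2
  · rw [inner_add_left, real_inner_smul_left, real_inner_self_eq_norm_sq, he]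
    have := hs.1
    linarith

/-- **Hopf lemma** at a plane, uniformly near a point of the plane. -/
theorem NonnegHeat.hopf_flat {D : Set E} {w : ℝ → E → ℝ} (h : NonnegHeat D w) {e x₀ : E}
    (he : ‖e‖ = 1) {μ r s₁ t₁ : ℝ} (hx₀ : ⟪x₀, e⟫ = μ) (hr : 0 < r)
    (hC : ∀ x, ‖x - x₀‖ < r → μ < ⟪x, e⟫ → x ∈ D) (hs₁ : 0 < s₁) (ht₁ : s₁ < t₁)
    (hpos : ∀ x, ‖x - x₀‖ < r → μ < ⟪x, e⟫ → ∀ t > s₁, 0 < w t x) :
    ∃ ε > 0, ∃ r' > 0, ∀ x, ‖x - x₀‖ < r' → μ ≤ ⟪x, e⟫ →
      ∀ t ∈ Icc (t₁ - (t₁ - s₁) / 3) t₁, ε * (⟪x, e⟫ - μ) ≤ w t x := by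
  set τ := (t₁ - s₁) / 3 with hτ
  have hτ0 : 0 < τ := by rw [hτ]; linarith
  set K : ℝ := (Module.finrank ℝ E + 2) * (1 + 0) + 1 / 2 with hK
  have hK0 : 0 < K := by positivity
  have hK1 : 1 ≤ K := by
    rw [hK]
    have : (0 : ℝ) ≤ Module.finrank ℝ E := by positivity
    linarith
  set δ := r / 3 with hδ
  have hδ0 : 0 < δ := by positivity
  obtain ⟨a, ha0, ha1, haM, hac⟩ := exists_small K (min (δ ^ 2) τ) 0 hK0
    (lt_min (by positivity) hτ0) le_rfl
  have haδ : a ≤ δ := by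
    have h1 : a + K * a ^ 2 ≤ δ ^ 2 := haM.trans (min_le_left _ _)
    have h2 : a ^ 2 ≤ δ ^ 2 := by nlinarith [sq_nonneg a]
    exact (pow_le_pow_iff_left₀ ha0.le hδ0.le two_ne_zero).mp h2
  have hdcl : ∀ x, ‖x - x₀‖ < r → μ ≤ ⟪x, e⟫ → x ∈ closure D := by
    intro x hx hxμ
    refine mem_closure_half he (r := r - ‖x - x₀‖) (by linarith) (fun y hy hyμ => ?_) hxμ
    apply hC y _ hyμ
    have : y - x₀ = (y - x) + (x - x₀) := by abel
    rw [this]
    exact (norm_add_le _ _).trans_lt (by linarith)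
  -- the compact slice
  set Sa : Set E := Metric.closedBall x₀ (2 * r / 3) ∩ {x | ⟪x, e⟫ - μ = a} with hSa
  have hSc : IsCompact Sa := (isCompact_closedBall _ _).inter_right
    (isClosed_eq (by fun_prop) (by fun_prop))
  have hSb : ∀ x ∈ Sa, ‖x - x₀‖ < r ∧ μ < ⟪x, e⟫ := by
    rintro x ⟨hx1, hx2⟩
    rw [mem_closedBall_iff_norm] at hx1
    simp only [mem_ofPred_eq] at hx2
    exact ⟨by linarith, by linarith⟩
  obtain ⟨m, hm0, hm⟩ := h.exists_lower hSc (fun x hx => hC x (hSb x hx).1 (hSb x hx).2)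
    (s := t₁ - 2 * τ) (t := t₁) (by rw [hτ]; linarith)
    (fun t ht x hx => hpos x (hSb x hx).1 (hSb x hx).2 t (by
      have := ht.1
      rw [hτ] at this
      show s₁ < t
      linarith))
  refine ⟨m / (a + K * a ^ 2), by positivity, a, ha0, fun x hx hxμ t ht => ?_⟩
  set η := ⟪x, e⟫ - μ with hη
  have hη0 : 0 ≤ η := by rw [hη]; linarith
  have hηx : η = ⟪x - x₀, e⟫ := by rw [inner_sub_left, hx₀]
  have hηa : η ≤ a := by
    rw [hηx]
    calc ⟪x - x₀, e⟫ ≤ ‖x - x₀‖ * ‖e‖ := real_inner_le_norm _ _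
      _ ≤ a := by rw [he, mul_one]; exact hx.le
  set p := x - η • e with hp
  have hpe : ⟪p, e⟫ = μ := by
    rw [hp, inner_sub_left, real_inner_smul_left, real_inner_self_eq_norm_sq, he, hη]; ring
  have hpx₀ : ‖p - x₀‖ ≤ ‖x - x₀‖ := by
    have h1 : p - x₀ = (x - x₀) - η • e := by rw [hp]; abel
    have h2 : ‖p - x₀‖ ^ 2 = ‖x - x₀‖ ^ 2 - η ^ 2 := by
      rw [h1, norm_sub_sq_real, inner_smul_right, ← hηx, norm_smul, he, Real.norm_eq_abs, mul_one,
        sq_abs]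
      ring
    have h3 : ‖p - x₀‖ ^ 2 ≤ ‖x - x₀‖ ^ 2 := by rw [h2]; nlinarith [sq_nonneg η]
    exact (pow_le_pow_iff_left₀ (norm_nonneg _) (norm_nonneg _) two_ne_zero).mp h3
  have hpδ : ‖p - x₀‖ ≤ δ := hpx₀.trans (hx.le.trans haδ)
  have hinner : ∀ y, ⟪y - p, e⟫ = ⟪y, e⟫ - μ := fun y => by rw [inner_sub_left, hpe]
  have hnear : ∀ y ∈ Cap p e 0 1 0 a δ, ‖y - x₀‖ ≤ 2 * r / 3 ∧ μ ≤ ⟪y, e⟫ := by
    rintro y ⟨hy1, hy2, hy3, _⟩
    rw [hinner] at hy1
    constructor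
    · have : y - x₀ = (y - p) + (p - x₀) := by abel
      rw [this]
      refine (norm_add_le _ _).trans ?_
      rw [hδ] at hy3 hpδ
      linarith
    · linarith
  have htime : ∀ t' ∈ Icc (t - τ) t, s₁ < t' ∧ 0 < t' ∧ t' ∈ Icc (t₁ - 2 * τ) t₁ := by
    intro t' ht'
    have h1 : t₁ - 2 * τ ≤ t' := by linarith [ht'.1, ht.1]
    have h2 : s₁ < t' := by rw [hτ] at h1; linarith
    exact ⟨h2, hs₁.trans h2, h1, ht'.2.trans ht.2⟩
  have key := hopf_core (w := w) (p := p) (n := e) (g := 0) (ℓ₀ := 1) (β := 0) (a := a) (δ := δ)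
    (τ := τ) (m := m) (t' := t) (K := K) he (inner_zero_left _) zero_le_one le_rfl ha0 hm0.le hK
    (haM.trans (min_le_left _ _)) (haM.trans (min_le_right _ _)) (by rw [mul_zero, zero_mul]; norm_num)
    (h.cont.mono (by
      rintro ⟨t', y⟩ ⟨ht', hy⟩
      obtain ⟨h1, h2⟩ := hnear y hy
      exact ⟨(htime t' ht').2.1, hdcl y (by linarith) h2⟩))
    (fun t' ht' y hy => by
      obtain ⟨h1, h2⟩ := hnear y hy
      exact h.nonneg t' (htime t' ht').2.1 y (hdcl y (by linarith) h2))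
    (fun t' ht' y hy1 hy2 hy3 _ => by
      rw [hinner, zero_mul] at hy1
      refine h.super t' (htime t' ht').2.1 y (hC y ?_ (by linarith))
      have : y - x₀ = (y - p) + (p - x₀) := by abel
      rw [this]
      refine (norm_add_le _ _).trans_lt ?_
      rw [hδ] at hy3 hpδ
      linarith)
    (fun t' ht' y hy hya => by
      rw [inner_zero_right, add_zero, mul_one]
      refine hm t' (htime t' ht').2.2 y ⟨?_, ?_⟩
      · rw [mem_closedBall_iff_norm]; exact (hnear y hy).1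
      · rw [hinner] at hya; exact hya)
  have e0 : x - p = η • e := by rw [hp]; abel
  have e2 : ⟪x - p, e⟫ = η := hinner x
  have e3 : ‖x - p‖ = η := by
    rw [e0, norm_smul, he, Real.norm_eq_abs, abs_of_nonneg hη0, mul_one]
  have hmem : x ∈ Cap p e 0 1 0 a δ := by
    refine ⟨?_, ?_, ?_, ?_⟩
    · rw [e2, zero_mul]; exact hη0
    · rw [e2]; exact hηa
    · rw [e3]; exact hηa.trans haδ
    · rw [inner_zero_right]; norm_num
  have := key _ hmem
  rw [e2, e3, inner_zero_right, add_zero, one_mul] at this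
  refine le_trans ?_ this
  apply mul_le_mul_of_nonneg_left _ (by positivity)
  nlinarith [sq_nonneg η]

end Pool.Agent.H43.Flux
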