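import Pool.Agent.H43.Heat4

/-!
The corner lemma: a nonnegative supersolution in a half ball, at the corner of its flat part and
its spherical part.
-/

set_option autoImplicit false
set_option linter.unusedSectionVars false

namespace Pool.Agent.H43.Flux

open Set Filter Topology Laplacian RealInnerProductSpace

variable {E : Type*} [NormedAddCommGroup E] [InnerProductSpace ℝ E] [FiniteDimensional ℝ E]

/-- **Corner lemma**. -/
theorem NonnegHeat.hopf_corner {D : Set E} {w : ℝ → E → ℝ} (h : NonnegHeat D w) {e n Q : E}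
    {ρ μ : ℝ} (hρ : 0 < ρ) (he : ‖e‖ = 1) (hn : ‖n‖ = 1) (hen : ⟪e, n⟫ = 0) (hQ : ⟪Q, e⟫ = μ)
    (hC : ∀ x ∈ Metric.ball (Q + ρ • n) ρ, μ < ⟪x, e⟫ → x ∈ D) {s₁ t₁ : ℝ} {x₁ : E}
    (hs₁ : 0 < s₁) (ht₁ : s₁ < t₁) (hx₁ : x₁ ∈ Metric.ball (Q + ρ • n) ρ) (hx₁' : μ < ⟪x₁, e⟫)
    (hw : 0 < w s₁ x₁) :
    ∃ ε > 0, ∃ η₀ > 0, ∀ η ∈ Icc 0 η₀, ε * η ^ 2 ≤ w t₁ (Q + η • (e + n)) := by
  set B := Metric.ball (Q + ρ • n) ρ with hB
  set C : Set E := B ∩ {x | μ < ⟪x, e⟫} with hCdef
  have hCconv : Convex ℝ C := by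
    refine (convex_ball _ _).inter ?_
    have h1 : IsLinearMap ℝ fun x : E => ⟪x, e⟫ :=
      ⟨fun x y => inner_add_left _ _ _, fun c x => real_inner_smul_left _ _ _⟩
    exact convex_halfSpace_gt h1 μ
  have hCD : C ⊆ D := fun x hx => hC x hx.1 hx.2
  have hCopen : IsOpen C := Metric.isOpen_ball.inter (isOpen_lt (by fun_prop) (by fun_prop))
  have hpos : ∀ x ∈ C, ∀ t > s₁, 0 < w t x := fun x hx t ht =>
    h.pos_of_pos hCconv.isPreconnected hCD ⟨hx₁, hx₁'⟩ hs₁ hw hx ht
  have hlocB : ∀ y ∈ B, ∃ r > 0, ∀ x, ‖x - y‖ < r → x ∈ B := by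
    intro y hy
    obtain ⟨r, hr0, hr⟩ := Metric.isOpen_iff.mp Metric.isOpen_ball y hy
    exact ⟨r, hr0, fun x hx => hr (by rw [mem_ball_iff_norm]; exact hx)⟩
  have hBcl : ∀ y ∈ B, μ ≤ ⟪y, e⟫ → y ∈ closure D := by
    intro y hy hyμ
    obtain ⟨r, hr0, hr⟩ := hlocB y hy
    exact mem_closure_half he hr0 (fun x hx hxμ => hC x (hr x hx) hxμ) hyμ
  have een : ∀ η : ℝ, ⟪Q + η • (e + n) - Q, n⟫ = η := by
    intro η
    have : Q + η • (e + n) - Q = η • (e + n) := by abel
    rw [this, real_inner_smul_left, inner_add_left, hen, real_inner_self_eq_norm_sq, hn]; ring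
  have eee : ∀ η : ℝ, ⟪Q + η • (e + n) - Q, e⟫ = η := by
    intro η
    have : Q + η • (e + n) - Q = η • (e + n) := by abel
    rw [this, real_inner_smul_left, inner_add_left, real_inner_comm e n, hen,
      real_inner_self_eq_norm_sq, he]; ring
  have enorm : ∀ η : ℝ, ‖Q + η • (e + n) - Q‖ ^ 2 = 2 * η ^ 2 := by
    intro η
    have : Q + η • (e + n) - Q = η • (e + n) := by abel
    rw [this, norm_smul, mul_pow, norm_add_sq_real, hen, he, hn, Real.norm_eq_abs, sq_abs]; ring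
  have hQcl : Q ∈ closure D := by
    have h1 : Tendsto (fun s : ℝ => Q + s • (e + n)) (𝓝[>] 0) (𝓝 Q) := by
      have : Continuous fun s : ℝ => Q + s • (e + n) := by fun_prop
      have := this.tendsto 0
      simp only [zero_smul, add_zero] at this
      exact this.mono_left nhdsWithin_le_nhds
    refine mem_closure_of_tendsto h1 ?_
    filter_upwards [Ioo_mem_nhdsGT hρ] with s hs
    apply hC
    · rw [hB, mem_ball_iff_inner hρ hn, een, enorm]
      have := hs.1
      have := hs.2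
      nlinarith
    · have := eee s
      rw [inner_sub_left, hQ] at this
      have := hs.1
      linarith
  set β := ρ⁻¹ with hβ
  have hβ0 : 0 < β := inv_pos.mpr hρ
  set K : ℝ := (Module.finrank ℝ E + 2) * (1 + β) + 1 / 2 with hK
  have hK0 : 0 < K := by positivity
  have hKβ : 2 * (1 + β) ≤ K := by
    rw [hK]
    have : (0 : ℝ) ≤ Module.finrank ℝ E := by positivity
    nlinarith
  set τ := (t₁ - s₁) / 3 with hτ
  have hτ0 : 0 < τ := by rw [hτ]; linarith
  obtain ⟨a, ha0, ha1, haM, hac⟩ := exists_small K (min 1 τ) (K * β) hK0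
    (lt_min one_pos hτ0) (by positivity)
  have hye : ∀ x, ⟪x - Q, e⟫ = ⟪x, e⟫ - μ := fun x => by rw [inner_sub_left, hQ]
  have hcap : ∀ x ∈ Cap Q n e 0 β a 1, x ∈ closure D := by
    intro x hx
    rcases cap_mem_ball hρ hn hx.1 with h1 | h1
    · rw [h1]; exact hQcl
    · have := hx.2.2.2
      rw [hye, zero_add] at this
      exact hBcl x h1 (by linarith)
  have hslice : ∀ x ∈ Cap Q n e 0 β a 1 ∩ {x | ⟪x - Q, n⟫ = a}, x ∈ B ∧ μ ≤ ⟪x, e⟫ := by
    rintro x ⟨hx, hxa⟩
    constructor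
    · rcases cap_mem_ball hρ hn hx.1 with h1 | h1
      · exfalso
        simp only [mem_ofPred_eq] at hxa
        rw [h1, sub_self, inner_zero_left] at hxa
        linarith
      · exact h1
    · have := hx.2.2.2
      rw [hye, zero_add] at this
      linarith
  have htime : ∀ t ∈ Icc (t₁ - τ) t₁, s₁ < t ∧ 0 < t := by
    intro t ht
    have : s₁ < t := by
      have := ht.1
      rw [hτ] at this
      linarith
    exact ⟨this, hs₁.trans this⟩
  -- linear lower bound on the slice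
  have hlin : ∃ m > 0, ∀ x ∈ Cap Q n e 0 β a 1 ∩ {x | ⟪x - Q, n⟫ = a}, μ ≤ ⟪x, e⟫ →
      ∀ t ∈ Icc (t₁ - τ) t₁, m * (⟪x, e⟫ - μ) ≤ w t x := by
    refine (isCompact_cap_slice Q n e 0 β a 1).induction_on
      (p := fun S => ∃ m > 0, ∀ x ∈ S, μ ≤ ⟪x, e⟫ →
      ∀ t ∈ Icc (t₁ - τ) t₁, m * (⟪x, e⟫ - μ) ≤ w t x) ?_ ?_ ?_ ?_
    · exact ⟨1, one_pos, fun x hx => absurd hx (notMem_empty _)⟩
    · rintro S S' hSS' ⟨m, hm0, hm⟩
      exact ⟨m, hm0, fun x hx => hm x (hSS' hx)⟩
    · rintro S S' ⟨m, hm0, hm⟩ ⟨m', hm'0, hm'⟩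
      refine ⟨min m m', lt_min hm0 hm'0, fun x hx hxμ t ht => ?_⟩
      have hy : 0 ≤ ⟪x, e⟫ - μ := by linarith
      rcases hx with hx | hx
      · exact (mul_le_mul_of_nonneg_right (min_le_left _ _) hy).trans (hm x hx hxμ t ht)
      · exact (mul_le_mul_of_nonneg_right (min_le_right _ _) hy).trans (hm' x hx hxμ t ht)
    · intro x hx
      obtain ⟨hxB, hxμ⟩ := hslice x hx
      rcases hxμ.lt_or_eq with hlt | heq
      · -- interior point of the half ball
        obtain ⟨r, hr0, hr⟩ := Metric.isOpen_iff.mp hCopen x ⟨hxB, hlt⟩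
        have hr2 : Metric.closedBall x (r / 2) ⊆ C :=
          Subset.trans (Metric.closedBall_subset_ball (by linarith)) hr
        obtain ⟨m, hm0, hm⟩ := h.exists_lower (isCompact_closedBall x (r / 2)) (hr2.trans hCD)
          (s := t₁ - τ) (t := t₁) (by rw [hτ]; linarith)
          (fun t ht y hy => hpos y (hr2 hy) t (htime t ht).1)
        have hden : 0 < ⟪x, e⟫ - μ + r := by linarith
        refine ⟨Metric.closedBall x (r / 2), mem_nhdsWithin_of_mem_nhds
          (Metric.closedBall_mem_nhds x (by linarith)), m / (⟪x, e⟫ - μ + r), by positivity,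
          fun y hy hyμ t ht => ?_⟩
        refine le_trans ?_ (hm t ht y hy)
        have h1 : ⟪y, e⟫ - μ ≤ ⟪x, e⟫ - μ + r := by
          have h2 : ⟪y, e⟫ - ⟪x, e⟫ ≤ r := by
            rw [← inner_sub_left]
            refine (real_inner_le_norm _ _).trans ?_
            rw [he, mul_one]
            rw [mem_closedBall_iff_norm] at hy
            linarith
          linarith
        calc m / (⟪x, e⟫ - μ + r) * (⟪y, e⟫ - μ) ≤ m / (⟪x, e⟫ - μ + r) * (⟪x, e⟫ - μ + r) :=
              mul_le_mul_of_nonneg_left h1 (by positivity)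
          _ = m := by field_simp
      · -- point of the plane
        obtain ⟨r, hr0, hr⟩ := hlocB x hxB
        obtain ⟨ε, hε0, r', hr'0, hr'⟩ := h.hopf_flat he heq.symm hr0
          (fun y hy hyμ => hC y (hr y hy) hyμ) hs₁ ht₁
          (fun y hy hyμ t ht => hpos y ⟨hr y hy, hyμ⟩ t ht)
        refine ⟨Metric.ball x r', mem_nhdsWithin_of_mem_nhds (Metric.ball_mem_nhds x hr'0),
          ε, hε0, fun y hy hyμ t ht => hr' y (by rw [← mem_ball_iff_norm]; exact hy) hyμ t ht⟩
  obtain ⟨m, hm0, hm⟩ := hlin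
  have key := hopf_core (w := w) (p := Q) (n := n) (g := e) (ℓ₀ := 0) (β := β) (a := a) (δ := 1)
    (τ := τ) (m := m) (t' := t₁) (K := K) hn hen le_rfl hβ0.le ha0 hm0.le hK
    (by rw [one_pow]; exact haM.trans (min_le_left _ _)) (haM.trans (min_le_right _ _)) hac
    (h.cont.mono (by
      rintro ⟨t, x⟩ ⟨ht, hx⟩
      exact ⟨(htime t ht).2, hcap x hx⟩))
    (fun t ht x hx => h.nonneg t (htime t ht).2 x (hcap x hx))
    (fun t ht x hx1 _ _ hx4 => by
      have hxb : x ∈ B := by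
        rcases cap_mem_ball hρ hn hx1.le with h1 | h1
        · exfalso
          rw [h1] at hx1; simp at hx1
        · exact h1
      rw [zero_add, hye] at hx4
      exact h.super t (htime t ht).2 x (hC x hxb (by linarith)))
    (fun t ht x hx hxa => by
      have h1 := hm x ⟨hx, hxa⟩ (hslice x ⟨hx, hxa⟩).2 t ht
      rw [zero_add, hye]
      exact h1)
  refine ⟨m / (a + K * a ^ 2), by positivity, min (a / 2) (ρ / 2), lt_min (by positivity)
    (by positivity), fun η hη => ?_⟩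
  have hηa : η ≤ a / 2 := hη.2.trans (min_le_left _ _)
  have hηρ : η ≤ ρ / 2 := hη.2.trans (min_le_right _ _)
  have hη0 : 0 ≤ η := hη.1
  have hmem : Q + η • (e + n) ∈ Cap Q n e 0 β a 1 := by
    refine ⟨?_, ?_, ?_, ?_⟩
    · rw [een, enorm]
      calc β * (2 * η ^ 2) = (β * (2 * η)) * η := by ring
        _ ≤ 1 * η := by
          apply mul_le_mul_of_nonneg_right _ hη.1
          calc β * (2 * η) ≤ β * ρ := mul_le_mul_of_nonneg_left (by linarith) hβ0.le
            _ = 1 := by rw [hβ]; field_simp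
        _ = η := one_mul η
    · rw [een]; linarith
    · have h1 : ‖Q + η • (e + n) - Q‖ ^ 2 ≤ 1 ^ 2 := by
        rw [enorm]; nlinarith
      exact (pow_le_pow_iff_left₀ (norm_nonneg _) zero_le_one two_ne_zero).mp h1
    · rw [eee]; linarith
  have := key _ hmem
  rw [een, enorm, eee, zero_add] at this
  refine le_trans ?_ this
  apply mul_le_mul_of_nonneg_left _ (by positivity)
  nlinarith [sq_nonneg η, mul_nonneg hη0 (sq_nonneg η)]

end Pool.Agent.H43.Flux
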