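import Pool.Agent.H43.Heat5
import Pool.Agent.H43.FluxDefs

/-!
Reflections, and the comparison of the solution with its reflection in the cap.
-/

set_option autoImplicit false
set_option linter.unusedSectionVars false

namespace Pool.Agent.H43.Flux

open Set Filter Topology Laplacian RealInnerProductSpace

variable {E : Type*} [NormedAddCommGroup E] [InnerProductSpace ℝ E] [FiniteDimensional ℝ E]

/-- The linear reflection in the direction `e`. -/
noncomputable def refl (e : E) : E ≃ₗᵢ[ℝ] E := (ℝ ∙ e)ᗮ.reflection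

lemma refl_apply {e : E} (he : ‖e‖ = 1) (v : E) : refl e v = v - (2 * ⟪v, e⟫) • e := by
  unfold refl
  rw [Submodule.reflection_orthogonal_apply, Submodule.reflection_singleton_apply, he]
  simp only [RCLike.ofReal_real_eq_id, id_eq, one_pow, div_one]
  rw [real_inner_comm, two_smul, two_mul, add_smul]
  abel

/-- The reflection in the hyperplane `⟪x, e⟫ = μ`. -/
noncomputable def Rf (e : E) (μ : ℝ) (x : E) : E := refl e x + (2 * μ) • e

lemma Rf_apply {e : E} (he : ‖e‖ = 1) (μ : ℝ) (x : E) :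
    Rf e μ x = x - (2 * (⟪x, e⟫ - μ)) • e := by
  rw [Rf, refl_apply he, mul_sub, sub_smul]
  abel

lemma inner_Rf {e : E} (he : ‖e‖ = 1) (μ : ℝ) (x : E) : ⟪Rf e μ x, e⟫ = 2 * μ - ⟪x, e⟫ := by
  rw [Rf_apply he, inner_sub_left, real_inner_smul_left, real_inner_self_eq_norm_sq, he]
  ring

lemma Rf_Rf {e : E} (he : ‖e‖ = 1) (μ : ℝ) (x : E) : Rf e μ (Rf e μ x) = x := by
  rw [Rf_apply he, inner_Rf he, Rf_apply he, sub_sub, ← add_smul]
  have : 2 * (⟪x, e⟫ - μ) + 2 * (2 * μ - ⟪x, e⟫ - μ) = 0 := by ring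
  rw [this, zero_smul, sub_zero]

lemma Rf_add (e : E) (μ : ℝ) (x v : E) : Rf e μ (x + v) = Rf e μ x + refl e v := by
  rw [Rf, Rf, map_add]; abel

lemma continuous_Rf (e : E) (μ : ℝ) : Continuous (Rf e μ) :=
  (refl e).continuous.add continuous_const

lemma Rf_eq_self {e : E} (he : ‖e‖ = 1) {μ : ℝ} {x : E} (h : ⟪x, e⟫ = μ) : Rf e μ x = x := by
  rw [Rf_apply he, h]; simp

lemma norm_Rf_sub (e : E) (μ : ℝ) (x y : E) : ‖Rf e μ x - Rf e μ y‖ = ‖x - y‖ := by
  have : Rf e μ x - Rf e μ y = refl e (x - y) := by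
    rw [Rf, Rf, map_sub]; abel
  rw [this, LinearIsometryEquiv.norm_map]

lemma contDiffAt_comp_Rf {e : E} {μ : ℝ} {φ : E → ℝ} {x : E} (h : ContDiffAt ℝ 2 φ (Rf e μ x)) :
    ContDiffAt ℝ 2 (fun y => φ (Rf e μ y)) x := by
  have h1 : ContDiffAt ℝ 2 (Rf e μ) x :=
    ((refl e).contDiff.contDiffAt).add contDiffAt_const
  exact h.comp x h1

lemma laplacian_comp_Rf {e : E} {μ : ℝ} {φ : E → ℝ} {x : E} (h : ContDiffAt ℝ 2 φ (Rf e μ x)) :
    Δ (fun y => φ (Rf e μ y)) x = Δ φ (Rf e μ x) := by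
  rw [laplacian_eq_sum (stdOrthonormalBasis ℝ E) (contDiffAt_comp_Rf h),
    laplacian_eq_sum ((stdOrthonormalBasis ℝ E).map (refl e)) h]
  refine Finset.sum_congr rfl fun i _ => ?_
  have : (fun s : ℝ => (fun y => φ (Rf e μ y)) (x + s • (stdOrthonormalBasis ℝ E) i)) =
      fun s : ℝ => φ (Rf e μ x + s • ((stdOrthonormalBasis ℝ E).map (refl e)) i) := by
    funext s
    simp only
    rw [Rf_add, OrthonormalBasis.map_apply, map_smul]
  rw [this]

lemma laplacian_sub' {f g : E → ℝ} {x : E} (hf : ContDiffAt ℝ 2 f x) (hg : ContDiffAt ℝ 2 g x) :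
    Δ (fun y => f y - g y) x = Δ f x - Δ g x := by
  have h10 := hf.laplacian_add hg.neg
  have h11 : Δ (-g) x = -Δ g x := by
    rw [InnerProductSpace.laplacian_neg]; rfl
  have h12 : (fun y => f y - g y) = f + -g := by
    funext y; simp [sub_eq_add_neg]
  rw [h12]
  have h13 : Δ (f + -g) x = Δ f x + Δ (-g) x := h10
  rw [h13, h11]; ring

/-! ### The solution -/

variable {Ω : Set E} {u : ℝ → E → ℝ}

lemma frontier_of_closure (hΩ : IsOpen Ω) {x : E} (hx : x ∈ closure Ω) (hx' : x ∉ Ω) :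
    x ∈ frontier Ω := by
  rw [hΩ.frontier_eq]; exact ⟨hx, hx'⟩

lemma IsHeatSolution.smooth (hu : IsHeatSolution Ω u) (t : ℝ) (ht : t > 0) (x : E) (hx : x ∈ Ω) :
    ContDiffAt ℝ 2 (u t) x := by
  have h1 : ContDiffAt ℝ 2 (fun z : ℝ × E => u z.1 z.2) (t, x) :=
    (hu.contDiffAt t ht x hx).of_le (WithTop.coe_le_coe.mpr le_top)
  have h2 : ContDiffAt ℝ 2 (fun y : E => ((t, y) : ℝ × E)) x := by fun_prop
  exact h1.comp x h2

lemma IsHeatSolution.nonneg (hu : IsHeatSolution Ω u) (hΩ : IsOpen Ω) {t : ℝ} (ht : 0 < t)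
    {x : E} (hx : x ∈ closure Ω) : 0 ≤ u t x := by
  by_cases h : x ∈ Ω
  · exact (hu.mem_Icc t ht x h).1
  · exact (hu.boundary t ht x (frontier_of_closure hΩ hx h)).ge

lemma IsHeatSolution.le_one (hu : IsHeatSolution Ω u) (hΩ : IsOpen Ω) {t : ℝ} (ht : 0 < t)
    {x : E} (hx : x ∈ closure Ω) : u t x ≤ 1 := by
  by_cases h : x ∈ Ω
  · exact (hu.mem_Icc t ht x h).2
  · rw [hu.boundary t ht x (frontier_of_closure hΩ hx h)]; exact zero_le_one

lemma IsHeatSolution.nonnegHeat (hu : IsHeatSolution Ω u) (hΩ : IsOpen Ω) : NonnegHeat Ω u where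
  isOpen := hΩ
  cont := hu.continuousOn
  nonneg := fun _ ht _ hx => hu.nonneg hΩ ht hx
  super := fun t ht x hx => ⟨hu.smooth t ht x hx, _, hu.heat t ht x hx, le_rfl⟩

lemma IsHeatSolution.pos (hu : IsHeatSolution Ω u) (hΩ : IsOpen Ω) {t : ℝ} (ht : 0 < t)
    {x : E} (hx : x ∈ Ω) : 0 < u t x := by
  have h1 : Tendsto (fun s : ℝ => ((s, x) : ℝ × E)) (𝓝[>] 0) (𝓝[Ioi 0 ×ˢ Ω] (0, x)) := by
    rw [tendsto_nhdsWithin_iff]
    constructor
    · have : Continuous fun s : ℝ => ((s, x) : ℝ × E) := by fun_prop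
      exact (this.tendsto 0).mono_left nhdsWithin_le_nhds
    · filter_upwards [self_mem_nhdsWithin] with s hs
      exact ⟨hs, hx⟩
  have h2 := ((hu.initial x hx).comp h1).eventually (lt_mem_nhds (zero_lt_one))
  obtain ⟨s, hs1, hs2⟩ := (h2.and (Ioo_mem_nhdsGT ht)).exists
  obtain ⟨r, hr0, hr⟩ := Metric.isOpen_iff.mp hΩ x hx
  exact (hu.nonnegHeat hΩ).spread (R := r / 2)
    (Subset.trans (Metric.closedBall_subset_ball (by linarith)) hr) hs2.1 hs2.2 hs1
    (by simpa using hr0)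

/-- Comparison with a time shift. -/
lemma IsHeatSolution.cmp_shift (hu : IsHeatSolution Ω u) (hΩ : IsOpen Ω) {D : Set E}
    (hDΩ : D ⊆ Ω) (hb : Bornology.IsBounded D) {v : ℝ → E → ℝ} (hv : NonnegHeat D v)
    (hini : ∀ x ∈ closure D, x ∈ frontier Ω ∨ ∀ ε' > 0, ∀ᶠ z in 𝓝 ((0 : ℝ), x), 0 < z.1 →
      z.2 ∈ closure D → 1 - ε' < v z.1 z.2) {ε : ℝ} (hε : 0 < ε)
    (hbd : ∀ t > 0, ∀ x ∈ frontier D, u (t + ε) x ≤ v t x) :
    ∀ t > 0, ∀ x ∈ closure D, u (t + ε) x ≤ v t x := by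
  intro t ht x hx
  have hcl : closure D ⊆ closure Ω := closure_mono hDΩ
  have key := cylinder_max hv.isOpen hb (T := t) (f := fun s y => v s y - u (s + ε) y) ?_ ?_ ?_ ?_
    t ⟨ht, le_rfl⟩ x hx
  · linarith
  · have h1 : ContinuousOn (fun z : ℝ × E => u (z.1 + ε) z.2) (Ioc 0 t ×ˢ closure D) := by
      have h2 : ContinuousOn (fun z : ℝ × E => (z.1 + ε, z.2)) (Ioc 0 t ×ˢ closure D) := by
        fun_prop
      refine hu.continuousOn.comp h2 ?_
      rintro ⟨s, y⟩ ⟨hs, hy⟩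
      exact ⟨by show 0 < s + ε; linarith [hs.1], hcl hy⟩
    refine (hv.cont.mono ?_).sub h1
    rintro ⟨s, y⟩ ⟨hs, hy⟩
    exact ⟨hs.1, hy⟩
  · intro s hs y hy
    obtain ⟨h1, a, h2, h3⟩ := hv.super s hs.1 y hy
    have hs' : 0 < s + ε := by linarith [hs.1]
    have h4 := hu.smooth (s + ε) hs' y (hDΩ hy)
    have h5 := hu.heat (s + ε) hs' y (hDΩ hy)
    refine ⟨h1.sub h4, a - Δ (u (s + ε)) y, h2.sub (h5.comp_add_const s ε), ?_⟩
    rw [laplacian_sub' h1 h4]
    linarith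
  · intro s hs y hy
    have := hbd s hs.1 y hy
    linarith
  · intro y hy ε' hε'
    rcases hini y hy with h1 | h1
    · have h2 : ContinuousWithinAt (fun z : ℝ × E => u z.1 z.2) (Ioi 0 ×ˢ closure Ω) (ε, y) :=
        hu.continuousOn (ε, y) ⟨hε, hcl hy⟩
      have h3 : Tendsto (fun z : ℝ × E => u z.1 z.2) (𝓝[Ioi 0 ×ˢ closure Ω] (ε, y)) (𝓝 0) := by
        have := h2.tendsto
        simp only at this
        rwa [hu.boundary ε hε y h1] at this
      have h4 := h3.eventually (gt_mem_nhds hε')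
      rw [eventually_nhdsWithin_iff] at h4
      have h5 : Tendsto (fun z : ℝ × E => (z.1 + ε, z.2)) (𝓝 (0, y)) (𝓝 (ε, y)) := by
        have : Continuous fun z : ℝ × E => (z.1 + ε, z.2) := by fun_prop
        simpa using this.tendsto (0, y)
      filter_upwards [h5.eventually h4] with z hz hz1 hz2
      have h6 : u (z.1 + ε) z.2 < ε' := hz ⟨by show 0 < z.1 + ε; linarith, hcl hz2⟩
      have h7 := hv.nonneg z.1 hz1 z.2 hz2
      linarith
    · filter_upwards [h1 ε' hε'] with z hz hz1 hz2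
      have h6 := hz hz1 hz2
      have h7 := hu.le_one hΩ (t := z.1 + ε) (by linarith) (hcl hz2)
      linarith

lemma IsHeatSolution.initial' (hu : IsHeatSolution Ω u) (hΩ : IsOpen Ω) {x : E} (hx : x ∈ Ω)
    {ε : ℝ} (hε : 0 < ε) : ∀ᶠ z in 𝓝 ((0 : ℝ), x), 0 < z.1 → 1 - ε < u z.1 z.2 := by
  have h1 := (hu.initial x hx).eventually (lt_mem_nhds (show 1 - ε < 1 by linarith))
  rw [eventually_nhdsWithin_iff] at h1
  have h2 : ∀ᶠ z : ℝ × E in 𝓝 ((0 : ℝ), x), z.2 ∈ Ω :=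
    continuous_snd.continuousAt.eventually (hΩ.mem_nhds hx)
  filter_upwards [h1, h2] with z hz1 hz2 hz3
  exact hz1 ⟨hz3, hz2⟩

/-- The solution is nonincreasing in time. -/
lemma IsHeatSolution.mono (hu : IsHeatSolution Ω u) (hΩ : IsOpen Ω)
    (hb : Bornology.IsBounded Ω) {ε : ℝ} (hε : 0 < ε) {t : ℝ} (ht : 0 < t) {x : E}
    (hx : x ∈ closure Ω) : u (t + ε) x ≤ u t x := by
  refine hu.cmp_shift hΩ Subset.rfl hb (hu.nonnegHeat hΩ) ?_ hε ?_ t ht x hx
  · intro y hy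
    by_cases h : y ∈ Ω
    · right
      intro ε' hε'
      filter_upwards [hu.initial' hΩ h hε'] with z hz hz1 _
      exact hz hz1
    · left; exact frontier_of_closure hΩ hy h
  · intro s hs y hy
    rw [hu.boundary s hs y hy, hu.boundary (s + ε) (by linarith) y hy]

/-! ### The cap -/

/-- The plane `⟪x, e⟫ = μ` is a good position: the segments from points of `Ω` beyond the plane to
their mirror images are in `Ω`. -/
def Good (Ω : Set E) (e : E) (μ : ℝ) : Prop :=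
  ∀ x ∈ Ω, μ < ⟪x, e⟫ → ∀ s, 0 ≤ s → s ≤ 2 * (⟪x, e⟫ - μ) → x - s • e ∈ Ω

/-- The part of `Ω` beyond the plane. -/
def Beyond (Ω : Set E) (e : E) (μ : ℝ) : Set E := Ω ∩ {x | μ < ⟪x, e⟫}

lemma isOpen_beyond (hΩ : IsOpen Ω) (e : E) (μ : ℝ) : IsOpen (Beyond Ω e μ) :=
  hΩ.inter (isOpen_lt (by fun_prop) (by fun_prop))

lemma Good.Rf_mem {e : E} {μ : ℝ} (hg : Good Ω e μ) (he : ‖e‖ = 1) {x : E}
    (hx : x ∈ Beyond Ω e μ) : Rf e μ x ∈ Ω := by
  rw [Rf_apply he]
  have : μ < ⟪x, e⟫ := hx.2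
  exact hg x hx.1 hx.2 _ (by linarith) le_rfl

lemma Good.Rf_mem_closure {e : E} {μ : ℝ} (hg : Good Ω e μ) (he : ‖e‖ = 1) {x : E}
    (hx : x ∈ closure (Beyond Ω e μ)) : Rf e μ x ∈ closure Ω :=
  map_mem_closure (continuous_Rf e μ) hx fun _ hy => hg.Rf_mem he hy

lemma le_of_mem_closure_beyond {e : E} {μ : ℝ} {x : E} (hx : x ∈ closure (Beyond Ω e μ)) :
    μ ≤ ⟪x, e⟫ := by
  have h1 : IsClosed {x : E | μ ≤ ⟪x, e⟫} := isClosed_le (by fun_prop) (by fun_prop)
  exact closure_minimal (fun y hy => le_of_lt (show μ < ⟪y, e⟫ from hy.2)) h1 hx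

lemma IsHeatSolution.nonnegHeat_Rf (hu : IsHeatSolution Ω u) (hΩ : IsOpen Ω) {e : E} {μ : ℝ}
    (hg : Good Ω e μ) (he : ‖e‖ = 1) :
    NonnegHeat (Beyond Ω e μ) (fun t x => u t (Rf e μ x)) where
  isOpen := isOpen_beyond hΩ e μ
  cont := by
    have h2 : Continuous fun z : ℝ × E => (z.1, Rf e μ z.2) :=
      continuous_fst.prodMk ((continuous_Rf e μ).comp continuous_snd)
    refine hu.continuousOn.comp h2.continuousOn ?_
    rintro ⟨s, y⟩ ⟨hs, hy⟩
    exact ⟨hs, hg.Rf_mem_closure he hy⟩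
  nonneg := fun t ht x hx => hu.nonneg hΩ ht (hg.Rf_mem_closure he hx)
  super := fun t ht x hx => by
    have h1 := hu.smooth t ht _ (hg.Rf_mem he hx)
    refine ⟨contDiffAt_comp_Rf h1, _, hu.heat t ht _ (hg.Rf_mem he hx), ?_⟩
    rw [laplacian_comp_Rf h1]

/-- The solution is at most its reflection beyond a good plane. -/
lemma IsHeatSolution.le_Rf (hu : IsHeatSolution Ω u) (hΩ : IsOpen Ω)
    (hb : Bornology.IsBounded Ω) {e : E} {μ : ℝ} (hg : Good Ω e μ) (he : ‖e‖ = 1) {t : ℝ}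
    (ht : 0 < t) {x : E} (hx : x ∈ closure (Beyond Ω e μ)) : u t x ≤ u t (Rf e μ x) := by
  have hsub : Beyond Ω e μ ⊆ Ω := inter_subset_left
  have hcl : closure (Beyond Ω e μ) ⊆ closure Ω := closure_mono hsub
  have h1 : ∀ ε > 0, u (t + ε) x ≤ u t (Rf e μ x) := by
    intro ε hε
    refine hu.cmp_shift hΩ hsub (hb.subset hsub) (hu.nonnegHeat_Rf hΩ hg he) ?_ hε ?_ t ht x hx
    · intro y hy
      by_cases h : y ∈ Ω
      · right
        intro ε' hε'
        have hRy : Rf e μ y ∈ Ω := by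
          rcases (le_of_mem_closure_beyond hy).lt_or_eq with h2 | h2
          · exact hg.Rf_mem he ⟨h, h2⟩
          · rw [Rf_eq_self he h2.symm]; exact h
        have h2 : Continuous fun z : ℝ × E => (z.1, Rf e μ z.2) :=
          continuous_fst.prodMk ((continuous_Rf e μ).comp continuous_snd)
        have h3 := (h2.tendsto (0, y)).eventually (hu.initial' hΩ hRy hε')
        filter_upwards [h3] with z hz hz1 _
        exact hz hz1
      · left; exact frontier_of_closure hΩ (hcl hy) h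
    · intro s hs y hy
      have hycl := frontier_subset_closure hy
      by_cases h : y ∈ Ω
      · have h2 : ⟪y, e⟫ = μ := by
          rw [(isOpen_beyond hΩ e μ).frontier_eq] at hy
          rcases (le_of_mem_closure_beyond hycl).lt_or_eq with h2 | h2
          · exact absurd ⟨h, h2⟩ hy.2
          · exact h2.symm
        rw [Rf_eq_self he h2]
        exact hu.mono hΩ hb hε hs (hcl hycl)
      · rw [hu.boundary (s + ε) (by linarith) y (frontier_of_closure hΩ (hcl hycl) h)]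
        exact hu.nonneg hΩ hs (hg.Rf_mem_closure he hycl)
  have h2 : Tendsto (fun ε : ℝ => u (t + ε) x) (𝓝[>] 0) (𝓝 (u t x)) := by
    have h3 : ContinuousWithinAt (fun z : ℝ × E => u z.1 z.2) (Ioi 0 ×ˢ closure Ω) (t, x) :=
      hu.continuousOn (t, x) ⟨ht, hcl hx⟩
    have h4 : Tendsto (fun ε : ℝ => ((t + ε, x) : ℝ × E)) (𝓝[>] 0)
        (𝓝[Ioi 0 ×ˢ closure Ω] (t, x)) := by
      rw [tendsto_nhdsWithin_iff]
      constructor
      · have : Continuous fun ε : ℝ => ((t + ε, x) : ℝ × E) := by fun_prop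
        have := this.tendsto 0
        simp only [add_zero] at this
        exact this.mono_left nhdsWithin_le_nhds
      · filter_upwards [self_mem_nhdsWithin] with ε hε
        refine ⟨?_, hcl hx⟩
        have : 0 < ε := hε
        show 0 < t + ε
        linarith
    exact h3.tendsto.comp h4
  refine le_of_tendsto h2 ?_
  filter_upwards [self_mem_nhdsWithin] with ε hε
  exact h1 ε hε

/-- The difference of the reflected solution and the solution. -/
lemma IsHeatSolution.nonnegHeat_diff (hu : IsHeatSolution Ω u) (hΩ : IsOpen Ω)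
    (hb : Bornology.IsBounded Ω) {e : E} {μ : ℝ} (hg : Good Ω e μ) (he : ‖e‖ = 1) :
    NonnegHeat (Beyond Ω e μ) (fun t x => u t (Rf e μ x) - u t x) where
  isOpen := isOpen_beyond hΩ e μ
  cont := by
    refine (hu.nonnegHeat_Rf hΩ hg he).cont.sub (hu.continuousOn.mono ?_)
    rintro ⟨s, y⟩ ⟨hs, hy⟩
    exact ⟨hs, closure_mono inter_subset_left hy⟩
  nonneg := fun t ht x hx => sub_nonneg.mpr (hu.le_Rf hΩ hb hg he ht hx)
  super := fun t ht x hx => by
    have h1 := hu.smooth t ht _ (hg.Rf_mem he hx)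
    have h2 := hu.smooth t ht _ hx.1
    refine ⟨(contDiffAt_comp_Rf h1).sub h2, _, (hu.heat t ht _ (hg.Rf_mem he hx)).sub
      (hu.heat t ht _ hx.1), ?_⟩
    rw [laplacian_sub' (contDiffAt_comp_Rf h1) h2, laplacian_comp_Rf h1]

end Pool.Agent.H43.Flux
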